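import Pool.Agent.LTCF.Cube
import Pool.Agent.LTC.PosBasic

/-!
# Testers from a family of local tests
-/

set_option autoImplicit false

namespace Pool.Agent.LTCF

open Finset Pool.Agent.LTC

/-! ### Uniform testers -/

section Uniform

variable {ι F : Type}

theorem reads_mono (t : DecisionTree ι F) : ∀ {q q' : ℕ}, q ≤ q' → t.ReadsAtMost q →
    t.ReadsAtMost q' := by
  induction t with
  | leaf b => exact fun _ _ => trivial
  | read i next ih =>
    intro q q' h hq
    cases q with
    | zero => exact hq.elim
    | succ q =>
      cases q' with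
      | zero => omega
      | succ q' => exact fun a => ih a (by omega) (hq a)

/-- a verdict which depends only on the values at the positions in `S` is given by a decision
tree -/
theorem exists_tree [Inhabited F] (S : Finset ι) : ∀ acc : (ι → F) → Bool,
    (∀ f g : ι → F, (∀ i ∈ S, f i = g i) → acc f = acc g) →
    ∃ t : DecisionTree ι F, t.ReadsAtMost S.card ∧ ∀ f, t.run f = acc f := by
  classical
  induction S using Finset.induction_on with
  | empty =>
    intro acc h
    exact ⟨DecisionTree.leaf (acc fun _ => default), trivial, fun f =>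
      h _ _ fun i hi => absurd hi (notMem_empty i)⟩
  | insert i S hi ih =>
    intro acc h
    have h1 : ∀ a : F, ∃ t : DecisionTree ι F, t.ReadsAtMost S.card ∧
        ∀ f, t.run f = acc (Function.update f i a) := by
      intro a
      refine ih (fun f => acc (Function.update f i a)) fun f g hfg => h _ _ fun j hj => ?_
      by_cases hji : j = i
      · subst hji
        rw [Function.update_self, Function.update_self]
      · rw [Function.update_of_ne hji, Function.update_of_ne hji]
        exact hfg j ((mem_insert.1 hj).resolve_left hji)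
    choose t ht1 ht2 using h1
    refine ⟨DecisionTree.read i t, ?_, fun f => ?_⟩
    · rw [card_insert_of_notMem hi]
      exact ht1
    · rw [DecisionTree.run, ht2, Function.update_eq_self]

variable [Fintype ι] [Field F] [DecidableEq F]

/-- The uniform tester. -/
theorem testable_of_uniform (C : Submodule F (ι → F)) {Ω : Type} [Fintype Ω] [Nonempty Ω]
    (acc : Ω → (ι → F) → Bool) (S : Ω → Finset ι) {q : ℕ} (hS : ∀ ω, (S ω).card ≤ q)
    (hacc : ∀ ω, ∀ f g : ι → F, (∀ i ∈ S ω, f i = g i) → acc ω f = acc ω g) (s : ℝ)
    (hcomp : ∀ c ∈ C, ∀ ω, acc ω c = true)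
    (hsound : ∀ f : ι → F, s * relDist C f * (Fintype.card Ω : ℝ) ≤
      ((univ.filter fun ω => acc ω f = false).card : ℝ)) : LocallyTestable C q s := by
  have : Inhabited F := ⟨0⟩
  choose t ht1 ht2 using fun ω => exists_tree (S ω) (acc ω) (hacc ω)
  let T : Tester ι F :=
    { Ω := Ω
      fin := inferInstance
      prob := fun _ => 1 / (Fintype.card Ω : ℝ)
      prob_nonneg := fun _ => by positivity
      prob_sum := by
        rw [sum_const, card_univ, nsmul_eq_mul, mul_one_div_cancel]
        exact_mod_cast Fintype.card_ne_zero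
      tree := t }
  have hT : ∀ f : ι → F, T.rejectProb f =
      ((univ.filter fun ω => acc ω f = false).card : ℝ) / (Fintype.card Ω : ℝ) := by
    intro f
    simp only [Tester.rejectProb, T, ht2]
    rw [← sum_filter, sum_const, nsmul_eq_mul, mul_one_div]
  refine ⟨T, fun ω => reads_mono _ (hS ω) (ht1 ω), fun c hc => ?_, fun f => ?_⟩
  · rw [hT]
    have : (univ.filter fun ω => acc ω c = false) = ∅ := by
      refine filter_eq_empty_iff.2 fun ω _ => ?_
      rw [hcomp c hc ω]
      simp
    rw [this]
    simp
  · rw [hT, le_div_iff₀]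
    · exact hsound f
    · exact_mod_cast Fintype.card_pos

end Uniform

variable {F K : Type} [Field F] [DecidableEq F] [AddCommGroup K] [Fintype K]

/-- a local test: the values at the points `x + L j y` must lie in `G` -/
structure LTest (F K : Type) [Field F] [AddCommGroup K] where
  /-- the index set of the positions -/
  J : Type
  /-- it is finite -/
  fin : Fintype J
  /-- the positions -/
  L : J → (K × K × K) →+ K
  /-- the admissible values -/
  G : Submodule F (J → F)

/-- the function `f` passes the test at `x`, `y` -/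
def LTest.Pass (T : LTest F K) (f : K → F) (x : K) (y : K × K × K) : Prop :=
  (fun j => f (x + T.L j y)) ∈ T.G

/-! ### Counting the failures -/

open Classical in
/-- the number of the failures of the test -/
noncomputable def fails (T : LTest F K) (f : K → F) : ℕ :=
  (univ.filter fun p : K × K × K × K => ¬T.Pass f p.1 p.2).card

/-- a function of degree at most two which does not pass the test always fails it often -/
theorem fails_deg_two (T : LTest F K) (g : K → F) (hg : ∀ x a b c, dd g x a b c = 0)
    {x₀ : K} {y₀ : K × K × K} (h : ¬T.Pass g x₀ y₀) :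
    Fintype.card K ^ 4 ≤ 4 * fails T g := by
  classical
  have := T.fin
  obtain ⟨α, hα, hG⟩ : ∃ α : (T.J → F) →ₗ[F] F, α (fun j => g (x₀ + T.L j y₀)) ≠ 0 ∧
      ∀ v ∈ T.G, α v = 0 := by
    obtain ⟨α, h1, h2⟩ := Submodule.exists_dual_map_eq_bot_of_notMem h inferInstance
    refine ⟨α, h1, fun v hv => ?_⟩
    have h3 : α v ∈ T.G.map α := ⟨v, hv, rfl⟩
    rw [h2] at h3
    exact (Submodule.mem_bot F).1 h3
  set h' : K × K × K × K → F := fun p => α fun j => g (p.1 + T.L j p.2) with hh'
  have h1 : ∀ x a b c, dd h' x a b c = 0 := by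
    intro x a b c
    have h2 : dd h' x a b c = α (fun j => dd g (x.1 + T.L j x.2) (a.1 + T.L j a.2)
        (b.1 + T.L j b.2) (c.1 + T.L j c.2)) := by
      unfold dd
      have e : ∀ u : K × K × K × K, h' u = α fun j => g (u.1 + T.L j u.2) := fun _ => rfl
      have e2 : (fun j => dd g (x.1 + T.L j x.2) (a.1 + T.L j a.2)
          (b.1 + T.L j b.2) (c.1 + T.L j c.2)) =
          (fun j => g ((x + a + b + c).1 + T.L j (x + a + b + c).2)) -
          (fun j => g ((x + a + b).1 + T.L j (x + a + b).2)) -
          (fun j => g ((x + a + c).1 + T.L j (x + a + c).2)) -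
          (fun j => g ((x + b + c).1 + T.L j (x + b + c).2)) +
          (fun j => g ((x + a).1 + T.L j (x + a).2)) +
          (fun j => g ((x + b).1 + T.L j (x + b).2)) +
          (fun j => g ((x + c).1 + T.L j (x + c).2)) -
          (fun j => g (x.1 + T.L j x.2)) := by
        funext j
        simp only [dd, Pi.sub_apply, Pi.add_apply, Prod.fst_add, Prod.snd_add, map_add]
        have f1 : ∀ u v w z u' v' w' z' : K, u + u' + (v + v') + (w + w') + (z + z') =
            u + v + w + z + (u' + v' + w' + z') := by
          intros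
          abel
        have f2 : ∀ u v w u' v' w' : K, u + u' + (v + v') + (w + w') =
            u + v + w + (u' + v' + w') := by
          intros
          abel
        have f3 : ∀ u v u' v' : K, u + u' + (v + v') = u + v + (u' + v') := by
          intros
          abel
        rw [f1, f2, f2, f2, f3 x.1 a.1, f3 x.1 b.1, f3 x.1 c.1]
      change _ = α _
      unfold dd at e2
      rw [e2]
      simp only [e, map_sub, map_add]
    rw [h2]
    have h3 : (fun j => dd g (x.1 + T.L j x.2) (a.1 + T.L j a.2)
        (b.1 + T.L j b.2) (c.1 + T.L j c.2)) = 0 := by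
      funext j
      exact hg _ _ _ _
    rw [h3, map_zero]
  have h2 := card_of_deg_two h' h1 ⟨(x₀, y₀), hα⟩
  have h3 : Fintype.card (K × K × K × K) = Fintype.card K ^ 4 := by
    simp only [Fintype.card_prod]
    ring
  rw [h3] at h2
  refine h2.trans (Nat.mul_le_mul_left _ (card_le_card fun p hp => ?_))
  simp only [mem_filter, mem_univ, true_and] at hp ⊢
  exact fun h4 => hp (hG _ h4)

/-- the failures of two functions -/
theorem fails_le (T : LTest F K) {M : ℕ} (hM : @Fintype.card T.J T.fin ≤ M) (f g : K → F) :
    fails T g ≤ fails T f + M * ((univ.filter fun x => f x ≠ g x).card * Fintype.card K ^ 3) := by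
  classical
  let _ := T.fin
  set D : T.J → Finset (K × K × K × K) := fun j =>
    univ.filter fun p => f (p.1 + T.L j p.2) ≠ g (p.1 + T.L j p.2) with hD
  have hDc : ∀ j, (D j).card = (univ.filter fun x => f x ≠ g x).card * Fintype.card K ^ 3 := by
    intro j
    have h1 : Fintype.card K ^ 3 = (univ : Finset (K × K × K)).card := by
      rw [card_univ]
      simp only [Fintype.card_prod]
      ring
    rw [h1, ← card_product]
    refine card_bij' (fun p _ => (p.1 + T.L j p.2, p.2)) (fun p _ => (p.1 - T.L j p.2, p.2))
      ?_ ?_ ?_ ?_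
    · intro p hp
      simp only [hD, mem_filter, mem_univ, true_and, mem_product, and_true] at hp ⊢
      exact hp
    · intro p hp
      simp only [hD, mem_filter, mem_univ, true_and, mem_product, and_true,
        sub_add_cancel] at hp ⊢
      exact hp
    · intro p _
      simp
    · intro p _
      simp
  have hsub : (univ.filter fun p : K × K × K × K => ¬T.Pass g p.1 p.2) ⊆
      (univ.filter fun p : K × K × K × K => ¬T.Pass f p.1 p.2) ∪ univ.biUnion D := by
    intro p hp
    simp only [mem_filter, mem_univ, true_and, mem_union, mem_biUnion, hD] at hp ⊢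
    by_contra hcon
    push Not at hcon
    refine hp ?_
    have h1 := hcon.1
    unfold LTest.Pass at h1 ⊢
    have h2 : (fun j => g (p.1 + T.L j p.2)) = fun j => f (p.1 + T.L j p.2) := by
      funext j
      exact (hcon.2 j).symm
    rw [h2]
    exact h1
  unfold fails
  refine (card_le_card hsub).trans ((card_union_le _ _).trans ?_)
  refine Nat.add_le_add_left (card_biUnion_le.trans ?_) _
  rw [sum_congr rfl fun j _ => hDc j, sum_const, smul_eq_mul, card_univ]
  exact Nat.mul_le_mul_right _ hM

/-- the soundness -/
theorem sound (C : Submodule F (K → F)) {r M : ℕ} (hM : 8 ≤ M) (T : Fin r → LTest F K)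
    (hcard : ∀ i, @Fintype.card (T i).J (T i).fin ≤ M)
    (hmem : ∀ g : K → F, (∀ x a b c, dd g x a b c = 0) → (∀ i x y, (T i).Pass g x y) → g ∈ C)
    (f : K → F) :
    relDist C f * (Fintype.card K : ℝ) ^ 4 ≤
      2000 * M * ((bad f + ∑ i, fails (T i) f : ℕ) : ℝ) := by
  classical
  set n := Fintype.card K with hn
  have hn0 : 0 < n := Fintype.card_pos
  set R := bad f + ∑ i, fails (T i) f with hR
  have hd1 := relDist_le_one C f
  have hd0 := relDist_nonneg C f
  have key : ∀ X : ℕ, n ^ 4 ≤ X → X ≤ 2000 * M * R →
      relDist C f * (n : ℝ) ^ 4 ≤ 2000 * M * (R : ℝ) := by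
    intro X h1 h2
    have h3 : ((n : ℝ)) ^ 4 ≤ 2000 * M * (R : ℝ) := by
      exact_mod_cast h1.trans h2
    have h4 : (0 : ℝ) ≤ (n : ℝ) ^ 4 := by positivity
    nlinarith
  by_cases hb : n ^ 4 ≤ 231 * bad f
  · refine key _ hb ?_
    calc 231 * bad f ≤ 2000 * M * bad f := Nat.mul_le_mul_right _ (by omega)
      _ ≤ _ := Nat.mul_le_mul_left _ (Nat.le_add_right _ _)
  · push Not at hb
    obtain ⟨g, hg, hfg⟩ := exists_deg_two f hb
    by_cases hgC : g ∈ C
    · have h1 := relDist_le C f g hgC
      have h2 : (hammingDist f g : ℝ) * (n : ℝ) ^ 3 ≤ 2 * bad f := by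
        exact_mod_cast hfg
      have hn1 : (0 : ℝ) < n := by exact_mod_cast hn0
      have h3 : relDist C f * (n : ℝ) ^ 4 ≤ 2 * bad f := by
        calc relDist C f * (n : ℝ) ^ 4 ≤ (hammingDist f g : ℝ) / (n : ℝ) * (n : ℝ) ^ 4 :=
              mul_le_mul_of_nonneg_right h1 (by positivity)
          _ = (hammingDist f g : ℝ) * (n : ℝ) ^ 3 := by field_simp
          _ ≤ _ := h2
      refine h3.trans ?_
      have h4 : 2 * bad f ≤ 2000 * M * R := by
        calc 2 * bad f ≤ 2000 * M * bad f := Nat.mul_le_mul_right _ (by omega)
          _ ≤ _ := Nat.mul_le_mul_left _ (Nat.le_add_right _ _)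
      exact_mod_cast h4
    · obtain ⟨i, x₀, y₀, hxy⟩ : ∃ i x y, ¬(T i).Pass g x y := by
        by_contra hcon
        push Not at hcon
        exact hgC (hmem g hg hcon)
      have h1 := fails_deg_two (T i) g hg hxy
      have h2 := fails_le (T i) (hcard i) f g
      have h3 : fails (T i) f ≤ ∑ i, fails (T i) f :=
        single_le_sum (f := fun i => fails (T i) f) (fun _ _ => Nat.zero_le _) (mem_univ i)
      refine key (4 * (fails (T i) f + M * (2 * bad f))) ?_ ?_
      · refine h1.trans (Nat.mul_le_mul_left _ (h2.trans ?_))
        exact Nat.add_le_add_left (Nat.mul_le_mul_left _ hfg) _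
      · have h4 : fails (T i) f ≤ M * fails (T i) f := Nat.le_mul_of_pos_left _ (by omega)
        calc 4 * (fails (T i) f + M * (2 * bad f))
            ≤ 4 * (M * fails (T i) f + M * (2 * bad f)) := by omega
          _ ≤ 2000 * M * (bad f + fails (T i) f) := by nlinarith
          _ ≤ _ := Nat.mul_le_mul_left _ (Nat.add_le_add_left h3 _)

/-- If all codewords pass all tests and have degree at most two, and all functions of degree at
most two which pass all tests are codewords, the code is testable. -/
theorem testable_of_tests (C : Submodule F (K → F)) {r M : ℕ} (hM : 8 ≤ M)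
    (T : Fin r → LTest F K)
    (hcard : ∀ i, @Fintype.card (T i).J (T i).fin ≤ M)
    (hdeg : ∀ c ∈ C, ∀ x a b d, dd c x a b d = 0)
    (hpass : ∀ c ∈ C, ∀ i x y, (T i).Pass c x y)
    (hmem : ∀ g : K → F, (∀ x a b c, dd g x a b c = 0) → (∀ i x y, (T i).Pass g x y) → g ∈ C) :
    LocallyTestable C M (1 / (2000 * M * (r + 1))) := by
  classical
  let _ := fun i => (T i).fin
  let acc : Option (Fin r) × K × K × K × K → (K → F) → Bool := fun ω f =>
    match ω.1 with
    | none => decide (dd f ω.2.1 ω.2.2.1 ω.2.2.2.1 ω.2.2.2.2 = 0)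
    | some i => decide ((T i).Pass f ω.2.1 ω.2.2)
  let S : Option (Fin r) × K × K × K × K → Finset K := fun ω =>
    match ω.1 with
    | none => {ω.2.1 + ω.2.2.1 + ω.2.2.2.1 + ω.2.2.2.2, ω.2.1 + ω.2.2.1 + ω.2.2.2.1,
        ω.2.1 + ω.2.2.1 + ω.2.2.2.2, ω.2.1 + ω.2.2.2.1 + ω.2.2.2.2, ω.2.1 + ω.2.2.1,
        ω.2.1 + ω.2.2.2.1, ω.2.1 + ω.2.2.2.2, ω.2.1}
    | some i => univ.image fun j => ω.2.1 + (T i).L j ω.2.2
  have hM1 : (0 : ℝ) < M := by exact_mod_cast (by omega : 0 < M)
  refine testable_of_uniform C acc S ?_ ?_ _ ?_ ?_
  · rintro ⟨_ | i, x, a, b, c⟩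
    · exact ((card_insert_le _ _).trans (Nat.succ_le_succ ((card_insert_le _ _).trans
        (Nat.succ_le_succ card_le_six)))).trans hM
    · exact card_image_le.trans (by rw [card_univ]; exact hcard i)
  · rintro ⟨_ | i, x, a, b, c⟩ f g hfg
    · change decide (dd f x a b c = 0) = decide (dd g x a b c = 0)
      have h1 : dd f x a b c = dd g x a b c := by
        unfold dd
        rw [hfg (x + a + b + c) (by simp [S]), hfg (x + a + b) (by simp [S]),
          hfg (x + a + c) (by simp [S]), hfg (x + b + c) (by simp [S]), hfg (x + a) (by simp [S]),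
          hfg (x + b) (by simp [S]), hfg (x + c) (by simp [S]), hfg x (by simp [S])]
      rw [h1]
    · change decide ((T i).Pass f x (a, b, c)) = decide ((T i).Pass g x (a, b, c))
      have h1 : (T i).Pass f x (a, b, c) ↔ (T i).Pass g x (a, b, c) := by
        unfold LTest.Pass
        have h2 : (fun j => f (x + (T i).L j (a, b, c))) =
            fun j => g (x + (T i).L j (a, b, c)) := by
          funext j
          exact hfg _ (mem_image_of_mem _ (mem_univ j))
        rw [h2]
      exact decide_eq_decide.2 h1
  · rintro c hc ⟨_ | i, x, y⟩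
    · exact decide_eq_true (hdeg c hc _ _ _ _)
    · exact decide_eq_true (hpass c hc i x y)
  · intro f
    have h1 := sound C hM T hcard hmem f
    have h2 : (univ.filter fun ω => acc ω f = false).card = bad f + ∑ i, fails (T i) f := by
      have e1 : (univ.filter fun ω => acc ω f = false).card =
          ∑ o : Option (Fin r),
            (univ.filter fun p : K × K × K × K => acc (o, p) f = false).card := by
        rw [card_eq_sum_card_fiberwise (f := fun ω : Option (Fin r) × K × K × K × K => ω.1)
          (t := univ) (fun _ _ => mem_univ _)]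
        refine sum_congr rfl fun o _ => ?_
        refine card_bij' (fun p _ => p.2) (fun p _ => (o, p)) ?_ ?_ ?_ ?_
        · rintro ⟨o', p⟩ hp
          simp only [mem_filter, mem_univ, true_and] at hp ⊢
          obtain ⟨h1, rfl⟩ := hp
          exact h1
        · intro p hp
          simp only [mem_filter, mem_univ, true_and] at hp ⊢
          exact ⟨hp, trivial⟩
        · rintro ⟨o', p⟩ hp
          simp only [mem_filter, mem_univ, true_and] at hp
          obtain ⟨-, rfl⟩ := hp
          rfl
        · intro p _
          rfl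
      rw [e1, Fintype.sum_option]
      congr 1
      · unfold bad
        congr 1
        ext p
        simp only [mem_filter, mem_univ, true_and, acc, decide_eq_false_iff_not]
      · refine sum_congr rfl fun i _ => ?_
        unfold fails
        congr 1
        ext p
        simp only [mem_filter, mem_univ, true_and, acc, decide_eq_false_iff_not]
    have h3 : Fintype.card (Option (Fin r) × K × K × K × K) = (r + 1) * Fintype.card K ^ 4 := by
      simp only [Fintype.card_prod, Fintype.card_option, Fintype.card_fin]
      ring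
    rw [h2, h3]
    push_cast at h1 ⊢
    have h4 : (0 : ℝ) < 2000 * M * (r + 1) := by positivity
    have h5 : (1 : ℝ) / (2000 * M * (r + 1)) * relDist C f * ((r + 1) * (Fintype.card K : ℝ) ^ 4) =
        relDist C f * (Fintype.card K : ℝ) ^ 4 / (2000 * M) := by
      field_simp
    rw [h5, div_le_iff₀ (by positivity)]
    linarith

end Pool.Agent.LTCF
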