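import Pool.Agent.LTCB.Cube

/-!
# The cube test over finite commutative groups

`dd f x a b c` is the third difference of `f`. If it is zero with probability near one, then `f` is
near a function whose third differences are all zero.
-/

set_option autoImplicit false

namespace Pool.Agent.LTCF

open Finset

variable {V A : Type} [AddCommGroup V] [AddCommGroup A]

/-- the third difference -/
def dd (f : V → A) (x a b c : V) : A :=
  f (x + a + b + c) - f (x + a + b) - f (x + a + c) - f (x + b + c) +
    f (x + a) + f (x + b) + f (x + c) - f x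

/-! ### The corners of a cube -/

/-- the coefficient of a corner -/
def co (b : Bool) : ℤ := cond b 1 0

/-- the sign of a corner -/
def sg (b : Bool) : ℤ := cond b 1 (-1)

/-- the combination -/
def dot {W : Type} [AddCommGroup W] (S : Bool × Bool × Bool) (a : W × W × W) : W :=
  co S.1 • a.1 + co S.2.1 • a.2.1 + co S.2.2 • a.2.2

/-- the sign -/
def sgn (S : Bool × Bool × Bool) : ℤ := sg S.1 * sg S.2.1 * sg S.2.2

/-- the base point -/
abbrev o : Bool × Bool × Bool := (false, false, false)

/-- the signed sum of `f` over the cube -/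
def cube (f : V → A) (x : V) (a : V × V × V) : A :=
  ∑ S : Bool × Bool × Bool, sgn S • f (x + dot S a)

/-- the signed sum of `f` over the points of the cube which are not the base point -/
def vote (f : V → A) (x : V) (a : V × V × V) : A :=
  ∑ S ∈ univ.erase o, sgn S • f (x + dot S a)

theorem dot_zero {W : Type} [AddCommGroup W] (a : W × W × W) : dot o a = 0 := by
  simp [dot, co]

theorem sgn_zero : sgn o = -1 := by
  simp [sgn, sg]

theorem cube_eq (f : V → A) (x : V) (a : V × V × V) : cube f x a = vote f x a - f x := by
  unfold cube vote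
  rw [← add_sum_erase univ _ (mem_univ o), dot_zero, add_zero, sgn_zero]
  rw [neg_smul, one_smul]
  abel

theorem cube_dd (f : V → A) (x a b c : V) : cube f x (a, b, c) = dd f x a b c := by
  unfold cube dd
  simp only [Fintype.sum_prod_type, Fintype.sum_bool, sgn, sg, dot, co, cond_true, cond_false,
    one_smul, zero_smul, add_zero, mul_one, mul_neg, neg_smul, neg_neg,
    ← add_assoc]
  abel

theorem dot_dot (x : V) (a : V × V × V) (S R : Bool × Bool × Bool) (U : V × V × V)
    (U' : (V × V × V) × (V × V × V) × (V × V × V)) :
    (x + dot S a) + dot R (U + dot S U') =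
      (x + dot R U) + dot S (a + (dot R U'.1, dot R U'.2.1, dot R U'.2.2)) := by
  simp only [dot, Prod.fst_add, Prod.snd_add, Prod.smul_fst, Prod.smul_snd]
  module

theorem sum_vote (f : V → A) (x : V) (a : V × V × V) (U : V × V × V)
    (U' : (V × V × V) × (V × V × V) × (V × V × V)) :
    ∑ S : Bool × Bool × Bool, sgn S • vote f (x + dot S a) (U + dot S U') =
      ∑ R ∈ univ.erase o, sgn R • cube f (x + dot R U)
        (a + (dot R U'.1, dot R U'.2.1, dot R U'.2.2)) := by
  unfold vote cube
  simp only [smul_sum]
  rw [sum_comm]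
  refine sum_congr rfl fun R _ => sum_congr rfl fun S _ => ?_
  rw [dot_dot, smul_comm]

/-- comparison of two votes -/
theorem vote_sub_vote (f : V → A) (x : V) (a b : V × V × V) :
    vote f x a - vote f x b =
      ∑ R ∈ univ.erase o, sgn R • cube f (x + dot R b) a -
      ∑ R ∈ univ.erase o, sgn R • cube f (x + dot R a) b := by
  simp only [cube_eq, smul_sub, sum_sub_distrib]
  have h3 : ∑ R ∈ univ.erase o, sgn R • vote f (x + dot R a) b =
      ∑ R ∈ univ.erase o, sgn R • vote f (x + dot R b) a := by
    unfold vote
    simp only [smul_sum]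
    rw [sum_comm]
    refine sum_congr rfl fun R _ => sum_congr rfl fun S _ => ?_
    rw [add_right_comm, smul_comm]
  have h4 : ∑ R ∈ univ.erase o, sgn R • f (x + dot R a) = vote f x a := rfl
  have h5 : ∑ R ∈ univ.erase o, sgn R • f (x + dot R b) = vote f x b := rfl
  rw [h3, h4, h5]
  abel

/-- `dot R` as a homomorphism -/
def dotHom {W : Type} [AddCommGroup W] (R : Bool × Bool × Bool) : (W × W × W) →+ W where
  toFun := dot R
  map_zero' := by simp [dot]
  map_add' := by
    intro a b
    simp only [dot, Prod.fst_add, Prod.snd_add]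
    module

theorem dot_surjective {W : Type} [AddCommGroup W] {R : Bool × Bool × Bool} (hR : R ≠ o) (w : W) :
    ∃ a : W × W × W, dot R a = w := by
  obtain ⟨r, s, t⟩ := R
  cases r with
  | true => exact ⟨(w, 0, 0), by simp [dot, co]⟩
  | false =>
    cases s with
    | true => exact ⟨(0, w, 0), by simp [dot, co]⟩
    | false =>
      cases t with
      | true => exact ⟨(0, 0, w), by simp [dot, co]⟩
      | false => exact absurd rfl hR

section Count

variable [Fintype V] [DecidableEq A]

/-- the number of the bad cubes -/
def bad (f : V → A) : ℕ :=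
  (univ.filter fun p : V × V × V × V => dd f p.1 p.2.1 p.2.2.1 p.2.2.2 ≠ 0).card

theorem bad_eq (f : V → A) :
    bad f = (univ.filter fun p : V × V × V × V => cube f p.1 p.2 ≠ 0).card := by
  unfold bad
  congr 1
  ext p
  simp only [mem_filter, mem_univ, true_and]
  rw [← cube_dd]

theorem card_shift (f : V → A) (x : V) (a : V × V × V) :
    (univ.filter fun p : V × V × V × V => cube f (x + p.1) (a + p.2) ≠ 0).card = bad f := by
  rw [bad_eq]
  refine card_bij' (fun p _ => (x + p.1, a + p.2)) (fun p _ => (p.1 - x, p.2 - a)) ?_ ?_ ?_ ?_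
  · intro p hp
    simpa using hp
  · intro p hp
    simp only [mem_filter, mem_univ, true_and, add_sub_cancel] at hp ⊢
    exact hp
  · intro p _
    simp
  · intro p _
    simp

/-- bad cubes with a random base point -/
theorem card_cube_dot (f : V → A) (x : V) {R : Bool × Bool × Bool} (hR : R ≠ o) :
    (univ.filter fun p : (V × V × V) × (V × V × V) => cube f (x + dot R p.1) p.2 ≠ 0).card =
      bad f * Fintype.card V ^ 2 := by
  have h1 := LTCB.card_preimage (G := (V × V × V) × (V × V × V)) (H := V × V × V × V)
    ((dotHom R).prodMap (AddMonoidHom.id _)) (by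
      rintro ⟨v, b⟩
      obtain ⟨a, ha⟩ := dot_surjective hR v
      exact ⟨(a, b), by rw [AddMonoidHom.coe_prodMap]; exact Prod.ext ha rfl⟩)
    (fun p => cube f (x + p.1) (0 + p.2) ≠ 0)
  rw [card_shift] at h1
  have h2 : ∀ p : (V × V × V) × (V × V × V),
      cube f (x + (((dotHom R).prodMap (AddMonoidHom.id _)) p).1)
        (0 + (((dotHom R).prodMap (AddMonoidHom.id _)) p).2) = cube f (x + dot R p.1) p.2 := by
    intro p
    rw [zero_add]
    rfl
  simp only [h2, Fintype.card_prod] at h1
  have hn : 0 < Fintype.card V := Fintype.card_pos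
  have h3 : 0 < Fintype.card V ^ 4 := by positivity
  refine Nat.eq_of_mul_eq_mul_right h3 ?_
  calc _ = _ := by ring
    _ = _ := h1
    _ = _ := by ring

theorem card_vote_ne (f : V → A) (x : V) :
    (univ.filter fun p : (V × V × V) × (V × V × V) => vote f x p.1 ≠ vote f x p.2).card ≤
      14 * (bad f * Fintype.card V ^ 2) := by
  classical
  set I := univ.erase o with hI
  have hIc : I.card = 7 := by
    rw [hI, card_erase_of_mem (mem_univ _)]
    rfl
  have hsub : (univ.filter fun p : (V × V × V) × (V × V × V) => vote f x p.1 ≠ vote f x p.2) ⊆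
      (I.biUnion fun R => univ.filter fun p : (V × V × V) × (V × V × V) =>
        cube f (x + dot R p.1) p.2 ≠ 0) ∪
      (I.biUnion fun R => univ.filter fun p : (V × V × V) × (V × V × V) =>
        cube f (x + dot R p.2) p.1 ≠ 0) := by
    intro p hp
    simp only [mem_filter, mem_univ, true_and] at hp
    by_contra hcon
    simp only [mem_union, mem_biUnion, mem_filter, mem_univ, true_and, not_or, not_exists,
      not_and, not_not] at hcon
    apply hp
    have h1 := vote_sub_vote f x p.1 p.2
    rw [← hI, sum_eq_zero fun R hR => by rw [hcon.2 R hR, smul_zero],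
      sum_eq_zero fun R hR => by rw [hcon.1 R hR, smul_zero], sub_zero] at h1
    exact sub_eq_zero.1 h1
  have hswap : ∀ R : Bool × Bool × Bool,
      (univ.filter fun p : (V × V × V) × (V × V × V) => cube f (x + dot R p.2) p.1 ≠ 0).card =
      (univ.filter fun p : (V × V × V) × (V × V × V) => cube f (x + dot R p.1) p.2 ≠ 0).card := by
    intro R
    refine card_bij' (fun p _ => p.swap) (fun p _ => p.swap) ?_ ?_ ?_ ?_
    · intro p hp
      simpa using hp
    · intro p hp
      simpa using hp
    · intro p _
      simp
    · intro p _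
      simp
  refine (card_le_card hsub).trans ((card_union_le _ _).trans ?_)
  have h1 : (I.biUnion fun R => univ.filter fun p : (V × V × V) × (V × V × V) =>
      cube f (x + dot R p.1) p.2 ≠ 0).card ≤ 7 * (bad f * Fintype.card V ^ 2) := by
    refine card_biUnion_le.trans ?_
    rw [← hIc, ← smul_eq_mul, ← sum_const]
    exact (sum_congr rfl fun R hR => card_cube_dot f x (ne_of_mem_erase hR)).le
  have h2 : (I.biUnion fun R => univ.filter fun p : (V × V × V) × (V × V × V) =>
      cube f (x + dot R p.2) p.1 ≠ 0).card ≤ 7 * (bad f * Fintype.card V ^ 2) := by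
    refine card_biUnion_le.trans ?_
    rw [← hIc, ← smul_eq_mul, ← sum_const]
    exact (sum_congr rfl fun R hR => (hswap R).trans
      (card_cube_dot f x (ne_of_mem_erase hR))).le
  omega

/-- there is a most frequent vote -/
theorem exists_maj (f : V → A) (x : V) : ∃ v : A, ∀ w : A,
    (univ.filter fun a : V × V × V => vote f x a = w).card ≤
      (univ.filter fun a : V × V × V => vote f x a = v).card := by
  obtain ⟨v, -, hv⟩ := exists_max_image (univ.image (vote f x))
    (fun v => (univ.filter fun a : V × V × V => vote f x a = v).card)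
    ⟨vote f x 0, mem_image_of_mem _ (mem_univ _)⟩
  refine ⟨v, fun w => ?_⟩
  by_cases hw : w ∈ univ.image (vote f x)
  · exact hv w hw
  · have h0 : (univ.filter fun a : V × V × V => vote f x a = w) = ∅ := by
      refine filter_eq_empty_iff.2 fun a _ h => hw ?_
      rw [← h]
      exact mem_image_of_mem _ (mem_univ _)
    rw [h0, card_empty]
    exact Nat.zero_le _

/-- the most frequent vote -/
noncomputable def maj (f : V → A) (x : V) : A := (exists_maj f x).choose

theorem card_eq_maj (f : V → A) (x : V) (v : A) :
    (univ.filter fun a : V × V × V => vote f x a ≠ v).card +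
      (univ.filter fun a : V × V × V => vote f x a = v).card = Fintype.card V ^ 3 := by
  have htot := card_filter_add_card_filter_not (s := (univ : Finset (V × V × V)))
    (fun a => vote f x a = v)
  rw [card_univ, Fintype.card_prod, Fintype.card_prod] at htot
  have h1 : Fintype.card V * (Fintype.card V * Fintype.card V) = Fintype.card V ^ 3 := by ring
  rw [h1] at htot
  rw [← htot, add_comm]

/-- at every point few votes are different from the most frequent one -/
theorem card_minority (f : V → A) (x : V) :
    (univ.filter fun a : V × V × V => vote f x a ≠ maj f x).card * Fintype.card V ≤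
      14 * bad f := by
  classical
  set m := (univ.filter fun a : V × V × V => vote f x a ≠ maj f x).card with hm
  have h1 : ∀ v : A, m ≤ (univ.filter fun a : V × V × V => vote f x a ≠ v).card := by
    intro v
    have h2 := card_eq_maj f x v
    have h3 := card_eq_maj f x (maj f x)
    have h4 : (univ.filter fun a : V × V × V => vote f x a = v).card ≤
      (univ.filter fun a : V × V × V => vote f x a = maj f x).card :=
      (exists_maj f x).choose_spec v
    omega
  have h3 : m * Fintype.card V ^ 3 ≤ 14 * (bad f * Fintype.card V ^ 2) := by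
    refine le_trans ?_ (card_vote_ne f x)
    have h4 : (univ.filter fun p : (V × V × V) × (V × V × V) =>
        vote f x p.1 ≠ vote f x p.2).card =
        ∑ b : V × V × V, (univ.filter fun a : V × V × V => vote f x a ≠ vote f x b).card := by
      rw [card_eq_sum_card_fiberwise (f := fun p : (V × V × V) × (V × V × V) => p.2)
        (t := univ) (fun _ _ => mem_univ _)]
      refine sum_congr rfl fun b _ => ?_
      refine card_bij' (fun p _ => p.1) (fun a _ => (a, b)) ?_ ?_ ?_ ?_
      · rintro ⟨a, y⟩ hp
        simp only [mem_filter, mem_univ, true_and] at hp ⊢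
        obtain ⟨h1, rfl⟩ := hp
        exact h1
      · intro a ha
        simp only [mem_filter, mem_univ, true_and] at ha ⊢
        exact ⟨ha, trivial⟩
      · rintro ⟨a, y⟩ hp
        simp only [mem_filter, mem_univ, true_and] at hp
        obtain ⟨-, rfl⟩ := hp
        rfl
      · intro a _
        rfl
    have h5 : Fintype.card V ^ 3 = (univ : Finset (V × V × V)).card := by
      rw [card_univ, Fintype.card_prod, Fintype.card_prod]
      ring
    rw [h4, h5, mul_comm, ← smul_eq_mul, ← sum_const]
    exact sum_le_sum fun b _ => h1 _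
  have hn : 0 < Fintype.card V := Fintype.card_pos
  have h5 : 0 < Fintype.card V ^ 2 := by positivity
  refine Nat.le_of_mul_le_mul_right ?_ h5
  calc m * Fintype.card V * Fintype.card V ^ 2 = m * Fintype.card V ^ 3 := by ring
    _ ≤ _ := h3
    _ = _ := by ring

/-- the most frequent vote is near the function -/
theorem card_ne_maj (f : V → A) (hf : 231 * bad f < Fintype.card V ^ 4) :
    (univ.filter fun x => f x ≠ maj f x).card * Fintype.card V ^ 3 ≤ 2 * bad f := by
  have hn : 0 < Fintype.card V := Fintype.card_pos
  have h1 : bad f = ∑ x, (univ.filter fun a : V × V × V => cube f x a ≠ 0).card := by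
    classical
    rw [bad_eq]
    rw [card_eq_sum_card_fiberwise (f := fun p : V × V × V × V => p.1) (t := univ)
      (fun _ _ => mem_univ _)]
    refine sum_congr rfl fun x _ => ?_
    refine card_bij' (fun p _ => p.2) (fun a _ => (x, a)) ?_ ?_ ?_ ?_
    · rintro ⟨y, a⟩ hp
      simp only [mem_filter, mem_univ, true_and] at hp ⊢
      obtain ⟨h1, rfl⟩ := hp
      exact h1
    · intro a ha
      simp only [mem_filter, mem_univ, true_and] at ha ⊢
      exact ⟨ha, trivial⟩
    · rintro ⟨y, a⟩ hp
      simp only [mem_filter, mem_univ, true_and] at hp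
      obtain ⟨-, rfl⟩ := hp
      rfl
    · intro a _
      rfl
  have h2 : ∀ x ∈ univ.filter (fun x => f x ≠ maj f x), Fintype.card V ^ 3 ≤
      2 * (univ.filter fun a : V × V × V => cube f x a ≠ 0).card := by
    intro x hx
    have h3 := (mem_filter.1 hx).2
    have h4 : (univ.filter fun a : V × V × V => vote f x a = maj f x).card ≤
        (univ.filter fun a : V × V × V => cube f x a ≠ 0).card := by
      refine card_le_card fun a ha => ?_
      simp only [mem_filter, mem_univ, true_and] at ha ⊢
      rw [cube_eq, ha]
      exact sub_ne_zero.2 (Ne.symm h3)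
    have h5 := card_minority f x
    have h6 := card_eq_maj f x (maj f x)
    have h7 : 2 * (univ.filter fun a : V × V × V => vote f x a ≠ maj f x).card ≤
        Fintype.card V ^ 3 := by
      refine Nat.le_of_mul_le_mul_right ?_ hn
      calc 2 * (univ.filter fun a : V × V × V => vote f x a ≠ maj f x).card * Fintype.card V
          = 2 * ((univ.filter fun a : V × V × V => vote f x a ≠ maj f x).card *
            Fintype.card V) := by ring
        _ ≤ 2 * (14 * bad f) := Nat.mul_le_mul_left _ h5
        _ ≤ 231 * bad f := by omega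
        _ ≤ Fintype.card V ^ 4 := hf.le
        _ = _ := by ring
    omega
  calc (univ.filter fun x => f x ≠ maj f x).card * Fintype.card V ^ 3
      = ∑ _x ∈ univ.filter (fun x => f x ≠ maj f x), Fintype.card V ^ 3 := by
        rw [sum_const, smul_eq_mul]
    _ ≤ ∑ x ∈ univ.filter (fun x => f x ≠ maj f x),
        2 * (univ.filter fun a : V × V × V => cube f x a ≠ 0).card := sum_le_sum h2
    _ ≤ ∑ x, 2 * (univ.filter fun a : V × V × V => cube f x a ≠ 0).card :=
        sum_le_sum_of_subset (subset_univ _)
    _ = 2 * bad f := by rw [h1, mul_sum]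

/-- the most frequent vote has degree at most two if there are few bad cubes -/
theorem cube_maj (f : V → A) (hf : 231 * bad f < Fintype.card V ^ 4) (x : V)
    (a : V × V × V) : cube (maj f) x a = 0 := by
  classical
  set n := Fintype.card V with hn
  have hn0 : 0 < n := Fintype.card_pos
  set I := univ.erase o with hI
  have hIc : I.card = 7 := by
    rw [hI, card_erase_of_mem (mem_univ _)]
    rfl
  let Ω := (V × V × V) × ((V × V × V) × (V × V × V) × (V × V × V))
  have hΩ : Fintype.card Ω = n ^ 12 := by
    simp only [Ω, Fintype.card_prod, ← hn]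
    ring
  set E : Bool × Bool × Bool → Finset Ω := fun S => univ.filter fun p =>
    vote f (x + dot S a) (p.1 + dot S p.2) ≠ maj f (x + dot S a) with hE
  set B : Bool × Bool × Bool → Finset Ω := fun R => univ.filter fun p =>
    cube f (x + dot R p.1) (a + (dot R p.2.1, dot R p.2.2.1, dot R p.2.2.2)) ≠ 0 with hB
  have hEc : ∀ S, (E S).card * n ^ 4 ≤ 14 * bad f * n ^ 12 := by
    intro S
    have h1 := LTCB.card_preimage (G := Ω) (H := V × V × V)
      ((AddMonoidHom.fst _ _) + (dotHom S).comp (AddMonoidHom.snd _ _)) (by
        intro u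
        refine ⟨(u, 0), ?_⟩
        change u + dotHom S 0 = u
        rw [map_zero, add_zero])
      (fun u => vote f (x + dot S a) u ≠ maj f (x + dot S a))
    have h2 := card_minority f (x + dot S a)
    have h3 : (E S).card * n ^ 3 = (univ.filter fun u : V × V × V =>
        vote f (x + dot S a) u ≠ maj f (x + dot S a)).card * n ^ 12 := by
      have h4 : Fintype.card (V × V × V) = n ^ 3 := by
        simp only [Fintype.card_prod, ← hn]
        ring
      rw [hΩ, h4] at h1
      exact h1
    calc (E S).card * n ^ 4 = ((E S).card * n ^ 3) * n := by ring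
      _ = ((univ.filter fun u : V × V × V =>
        vote f (x + dot S a) u ≠ maj f (x + dot S a)).card * n) * n ^ 12 := by rw [h3]; ring
      _ ≤ _ := Nat.mul_le_mul_right _ h2
  have hBc : ∀ R ∈ I, (B R).card * n ^ 4 = bad f * n ^ 12 := by
    intro R hR
    have hR0 : R ≠ o := ne_of_mem_erase hR
    have h1 := LTCB.card_preimage (G := Ω) (H := V × V × V × V)
      ((dotHom R).prodMap ((dotHom R).prodMap ((dotHom R).prodMap (dotHom R)))) (by
        rintro ⟨v₀, v₁, v₂, v₃⟩
        obtain ⟨a₀, h₀⟩ := dot_surjective hR0 v₀
        obtain ⟨a₁, h₁⟩ := dot_surjective hR0 v₁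
        obtain ⟨a₂, h₂⟩ := dot_surjective hR0 v₂
        obtain ⟨a₃, h₃⟩ := dot_surjective hR0 v₃
        exact ⟨(a₀, a₁, a₂, a₃), Prod.ext h₀ (Prod.ext h₁ (Prod.ext h₂ h₃))⟩)
      (fun p => cube f (x + p.1) (a + p.2) ≠ 0)
    rw [card_shift] at h1
    have h4 : Fintype.card (V × V × V × V) = n ^ 4 := by
      simp only [Fintype.card_prod, ← hn]
      ring
    rw [hΩ, h4] at h1
    exact h1
  set Z : Finset Ω := univ.biUnion E ∪ I.biUnion B with hZ
  have hZc : Z.card * n ^ 4 < n ^ 12 * n ^ 4 := by
    have h1 : Z.card ≤ ∑ S, (E S).card + ∑ R ∈ I, (B R).card :=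
      (card_union_le _ _).trans (Nat.add_le_add card_biUnion_le card_biUnion_le)
    calc Z.card * n ^ 4 ≤ (∑ S, (E S).card + ∑ R ∈ I, (B R).card) * n ^ 4 :=
          Nat.mul_le_mul_right _ h1
      _ = ∑ S, (E S).card * n ^ 4 + ∑ R ∈ I, (B R).card * n ^ 4 := by
          rw [add_mul, sum_mul, sum_mul]
      _ ≤ ∑ _S : Bool × Bool × Bool, 14 * bad f * n ^ 12 + ∑ _R ∈ I, bad f * n ^ 12 :=
          Nat.add_le_add (sum_le_sum fun S _ => hEc S) (sum_le_sum fun R hR => (hBc R hR).le)
      _ = 119 * bad f * n ^ 12 := by
          rw [sum_const, sum_const, hIc, card_univ]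
          have : Fintype.card (Bool × Bool × Bool) = 8 := rfl
          rw [this, smul_eq_mul, smul_eq_mul]
          ring
      _ ≤ 231 * bad f * n ^ 12 :=
          Nat.mul_le_mul_right _ (Nat.mul_le_mul_right _ (by norm_num))
      _ < n ^ 4 * n ^ 12 := Nat.mul_lt_mul_of_pos_right hf (by positivity)
      _ = _ := by ring
  have hZlt : Z.card < n ^ 12 := lt_of_mul_lt_mul_right hZc (Nat.zero_le _)
  obtain ⟨p, hp⟩ : ∃ p : Ω, p ∉ Z := by
    by_contra hcon
    push Not at hcon
    have : Z = univ := eq_univ_of_forall hcon
    rw [this, card_univ, hΩ] at hZlt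
    exact lt_irrefl _ hZlt
  simp only [hZ, hE, hB, mem_union, mem_biUnion, mem_filter, mem_univ, true_and, not_or,
    not_exists, not_not, not_and] at hp
  have h1 := sum_vote f x a p.1 p.2
  rw [← hI, sum_eq_zero (s := I) fun R hR => by rw [hp.2 R hR, smul_zero]] at h1
  rw [cube, ← h1]
  exact sum_congr rfl fun S _ => by rw [← hp.1 S]

/-- the cube test -/
theorem exists_deg_two (f : V → A) (hf : 231 * bad f < Fintype.card V ^ 4) :
    ∃ g : V → A, (∀ x a b c, dd g x a b c = 0) ∧
      (univ.filter fun x => f x ≠ g x).card * Fintype.card V ^ 3 ≤ 2 * bad f :=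
  ⟨maj f, fun x a b c => by rw [← cube_dd]; exact cube_maj f hf x (a, b, c), card_ne_maj f hf⟩

/-- if the difference of `h` is often not zero, so is `h` -/
theorem card_of_diff (h : V → A) (a : V) :
    (univ.filter fun x => h (x + a) - h x ≠ 0).card ≤
      2 * (univ.filter fun x => h x ≠ 0).card := by
  classical
  have h1 : (univ.filter fun x => h (x + a) - h x ≠ 0) ⊆
      (univ.filter fun x => h (x + a) ≠ 0) ∪ univ.filter fun x => h x ≠ 0 := by
    intro x hx
    simp only [mem_filter, mem_univ, true_and, mem_union] at hx ⊢
    by_contra hcon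
    push Not at hcon
    exact hx (by rw [hcon.1, hcon.2, sub_zero])
  have h2 : (univ.filter fun x => h (x + a) ≠ 0).card = (univ.filter fun x => h x ≠ 0).card := by
    refine card_bij' (fun x _ => x + a) (fun x _ => x - a) ?_ ?_ ?_ ?_
    · intro x hx
      simpa using hx
    · intro x hx
      simpa using hx
    · intro x _
      simp
    · intro x _
      simp
  have h3 := (card_le_card h1).trans (card_union_le _ _)
  omega

/-- a function which is not zero and whose differences are zero has no zeros -/
theorem card_of_const (h : V → A) (hD : ∀ x a, h (x + a) - h x = 0) (hne : ∃ x, h x ≠ 0) :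
    (univ.filter fun x => h x ≠ 0).card = Fintype.card V := by
  obtain ⟨x₀, hx₀⟩ := hne
  rw [filter_true_of_mem, card_univ]
  intro y _
  have h1 := hD x₀ (y - x₀)
  rw [add_sub_cancel, sub_eq_zero] at h1
  rw [h1]
  exact hx₀

/-- a function of degree at most one which is not zero is not zero on a half of the group -/
theorem card_of_deg_one (h : V → A)
    (hD : ∀ x a b, h (x + a + b) - h (x + a) - (h (x + b) - h x) = 0) (hne : ∃ x, h x ≠ 0) :
    Fintype.card V ≤ 2 * (univ.filter fun x => h x ≠ 0).card := by
  by_cases hc : ∀ x a, h (x + a) - h x = 0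
  · rw [card_of_const h hc hne]
    omega
  · push Not at hc
    obtain ⟨x, a, hxa⟩ := hc
    have h1 := card_of_const (fun x => h (x + a) - h x) (fun x b => by
      have h2 := hD x a b
      rw [← h2]
      have h3 : x + b + a = x + a + b := by abel
      simp only [h3]
      abel) ⟨x, hxa⟩
    rw [← h1]
    exact card_of_diff h a

/-- a function of degree at most two which is not zero is not zero on a quarter of the group -/
theorem card_of_deg_two (h : V → A) (hD : ∀ x a b c, dd h x a b c = 0) (hne : ∃ x, h x ≠ 0) :
    Fintype.card V ≤ 4 * (univ.filter fun x => h x ≠ 0).card := by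
  by_cases hc : ∀ x a, h (x + a) - h x = 0
  · rw [card_of_const h hc hne]
    omega
  · push Not at hc
    obtain ⟨x, a, hxa⟩ := hc
    have h1 := card_of_deg_one (fun x => h (x + a) - h x) (fun x b c => by
      have h2 := hD x a b c
      rw [← h2]
      unfold dd
      have h3 : x + b + c + a = x + a + b + c := by abel
      have h4 : x + b + a = x + a + b := by abel
      have h5 : x + c + a = x + a + c := by abel
      simp only [h3, h4, h5]
      abel) ⟨x, hxa⟩
    have h2 := card_of_diff h a
    omega

end Count

end Pool.Agent.LTCF
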