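import Pool.Agent.LTC.Defs

/-!
# Affine invariant codes over a fixed finite field
-/

set_option autoImplicit false

namespace Pool.Agent.LTCF

open Pool.Agent.LTC

/-- The code `C` over `F`, with the positions in the field `K`, is invariant under all maps
`x ↦ a * x + b` of the positions, `a ≠ 0`. -/
def AffineInvariant {F K : Type} [Field F] [Field K] (C : Submodule F (K → F)) : Prop :=
  ∀ a b : K, a ≠ 0 → ∀ w ∈ C, (fun x => w (a * x + b)) ∈ C

/-- The statement of the question for `q` and affine invariant codes over the one field `F`: there
are a number `q'` of queries and a soundness `s > 0`, depending only on `F` and `q`, such that for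
every finite extension field `K` of `F` every affine invariant code `C` over `F` with positions in
`K`, whose dual code is spanned by the dual words of weight at most `q`, is locally testable with
`q'` queries and soundness `s`. -/
def AffineTestable (F : Type) [Field F] [DecidableEq F] (q : ℕ) : Prop :=
  ∃ (q' : ℕ) (s : ℝ), 0 < s ∧ ∀ (K : Type) [Field K] [Fintype K] [Algebra F K]
    (C : Submodule F (K → F)), AffineInvariant C →
      Submodule.span F (lowWeightDual C q) = dualCode C → LocallyTestable C q' s

/-- The statement of the question for `q` and all doubly transitive codes over the one field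
`F`. -/
def TransitiveTestable (F : Type) [Field F] [DecidableEq F] (q : ℕ) : Prop :=
  ∃ (q' : ℕ) (s : ℝ), 0 < s ∧ ∀ (ι : Type) [Fintype ι] (C : Submodule F (ι → F)),
    DoublyTransitiveCode C → Submodule.span F (lowWeightDual C q) = dualCode C →
      LocallyTestable C q' s

end Pool.Agent.LTCF
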