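import Pool.Agent.LTC.Basic
import Pool.Agent.LTCF.Defs
import Pool.Agent.LTCF.Cube

/-!
# Affine invariant codes over a finite field: basic facts
-/

set_option autoImplicit false

namespace Pool.Agent.LTCF

open Finset Pool.Agent.LTC

section Shift

variable {F K : Type} [Field F] [Field K] {C : Submodule F (K → F)}

theorem AffineInvariant.shift (hC : AffineInvariant C) {f : K → F} (hf : f ∈ C) (b : K) :
    (fun x => f (x + b)) ∈ C := by
  have := hC 1 b one_ne_zero f hf
  simpa using this

theorem AffineInvariant.scale (hC : AffineInvariant C) {f : K → F} (hf : f ∈ C) {a : K}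
    (ha : a ≠ 0) : (fun x => f (a * x)) ∈ C := by
  have := hC a 0 ha f hf
  simpa using this

/-- A code that is not zero contains the constant word. -/
theorem one_mem [Fintype F] [Fintype K] [Algebra F K] (hC : AffineInvariant C) (h : C ≠ ⊥) :
    (fun _ => 1) ∈ C := by
  obtain ⟨p, hp⟩ := CharP.exists F
  have hprime : p.Prime := CharP.char_is_prime F p
  have : Fact p.Prime := ⟨hprime⟩
  have hK : CharP K p := charP_of_injective_algebraMap (algebraMap F K).injective p
  let act : MulAction (Multiplicative K) C :=
    { smul := fun b w => ⟨fun x => (w : K → F) (x + b.toAdd), hC.shift w.2 b.toAdd⟩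
      one_smul := by
        intro w
        ext x
        change (w : K → F) (x + 0) = (w : K → F) x
        rw [add_zero]
      mul_smul := by
        intro a b w
        ext x
        change (w : K → F) (x + (a.toAdd + b.toAdd)) = (w : K → F) (x + a.toAdd + b.toAdd)
        rw [add_assoc] }
  have hG : IsPGroup p (Multiplicative K) := by
    obtain ⟨n, -, hn⟩ := FiniteField.card K p
    refine IsPGroup.of_card (n := n) ?_
    rw [← hn, Nat.card_congr Multiplicative.toAdd, Nat.card_eq_fintype_card]
  have hne : ∃ w : C, w ≠ 0 := by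
    by_contra hcon
    push Not at hcon
    apply h
    rw [Submodule.eq_bot_iff]
    intro x hx
    have := hcon ⟨x, hx⟩
    simpa using congrArg Subtype.val this
  obtain ⟨w, hw⟩ := hne
  have hdvd : p ∣ Nat.card C := by
    have h1 : addOrderOf w = p := by
      refine addOrderOf_eq_prime ?_ hw
      ext x
      change (p • (w : K → F)) x = 0
      rw [Pi.smul_apply, nsmul_eq_mul, CharP.cast_eq_zero, zero_mul]
    rw [← h1]
    exact addOrderOf_dvd_natCard w
  have h0 : (0 : C) ∈ MulAction.fixedPoints (Multiplicative K) C := by
    intro b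
    rfl
  obtain ⟨f, hf, hf0⟩ := hG.exists_fixed_point_of_prime_dvd_card_of_fixed_point C hdvd h0
  have h1 : ∀ x, (f : K → F) x = (f : K → F) 0 := by
    intro x
    have h2 := congrArg (fun w : C => (w : K → F) 0) (hf (Multiplicative.ofAdd x))
    change (f : K → F) (0 + x) = (f : K → F) 0 at h2
    rwa [zero_add] at h2
  have h2 : (f : K → F) 0 ≠ 0 := by
    intro h3
    apply hf0
    ext x
    change 0 = (f : K → F) x
    rw [h1 x, h3]
  have h3 : (fun _ => 1 : K → F) = ((f : K → F) 0)⁻¹ • (f : K → F) := by
    funext x
    rw [Pi.smul_apply, h1 x, smul_eq_mul, inv_mul_cancel₀ h2]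
  rw [h3]
  exact C.smul_mem _ f.2

omit [Field K] in
theorem const_mem (h1 : (fun _ => 1) ∈ C) (c : F) : (fun _ => c) ∈ C := by
  have h := C.smul_mem c h1
  have h2 : (c • fun _ => 1 : K → F) = fun _ => c := by
    funext x
    rw [Pi.smul_apply, smul_eq_mul, mul_one]
  rwa [h2] at h

theorem AffineInvariant.base (hC : AffineInvariant C) (h1 : (fun _ => 1) ∈ C) {f : K → F}
    (hf : f ∈ C) (x : K) : (fun y => f (x + y) - f x) ∈ C := by
  have h := C.sub_mem (hC.shift hf x) (const_mem h1 (f x))
  have h2 : ((fun y => f (y + x)) - fun _ => f x : K → F) = fun y => f (x + y) - f x := by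
    funext y
    rw [Pi.sub_apply, add_comm y x]
  rwa [h2] at h

end Shift

section Frechet

variable {F K : Type} [Field F] [Field K]

/-- the difference -/
def df (a : K) (f : K → F) (x : K) : F := f (x + a) - f x

/-- iterated differences -/
def dl : List K → (K → F) → K → F
  | [], f => f
  | a :: l, f => dl l (df a f)

theorem dl_zero (l : List K) : dl l (0 : K → F) = 0 := by
  induction l with
  | nil => rfl
  | cons a l ih =>
    have h : df a (0 : K → F) = 0 := by
      funext x
      simp [df]
    rw [dl, h, ih]

theorem dl_smul (c : F) (l : List K) (f : K → F) : dl l (c • f) = c • dl l f := by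
  induction l generalizing f with
  | nil => rfl
  | cons a l ih =>
    have h : df a (c • f) = c • df a f := by
      funext x
      simp only [df, Pi.smul_apply, smul_eq_mul]
      ring
    rw [dl, h, ih, dl]

/-- Fréchet's lemma -/
theorem frechet (n : ℕ) (I : Finset K) (f : K → K → F) (hI : I.card ≤ n + 1)
    (h : ∀ x l, ∑ i ∈ I, f i (x + i * l) = 0) (j : K) (hj : j ∈ I) (l : List K)
    (hl : l.length = n) : dl l (f j) = 0 := by
  classical
  induction n generalizing I f l with
  | zero =>
    have hI' : I = {j} := by
      refine (eq_of_subset_of_card_le (singleton_subset_iff.2 hj) ?_).symm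
      rw [card_singleton]
      exact hI
    have hl' : l = [] := List.length_eq_zero_iff.1 hl
    rw [hl', dl]
    funext x
    have := h x 0
    rw [hI', sum_singleton, mul_zero, add_zero] at this
    exact this
  | succ n ih =>
    obtain ⟨a, t, rfl⟩ : ∃ a t, l = a :: t := by
      cases l with
      | nil => simp at hl
      | cons a t => exact ⟨a, t, rfl⟩
    by_cases hone : I = {j}
    · have h2 : f j = 0 := by
        funext x
        have := h x 0
        rw [hone, sum_singleton, mul_zero, add_zero] at this
        exact this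
      rw [h2, dl_zero]
    obtain ⟨i, hi, hij⟩ : ∃ i ∈ I, i ≠ j := by
      by_contra hcon
      push Not at hcon
      apply hone
      ext k
      rw [mem_singleton]
      exact ⟨fun hk => hcon k hk, fun hk => hk ▸ hj⟩
    have hne : j - i ≠ 0 := sub_ne_zero.2 hij.symm
    set b := a / (j - i) with hb
    have h3 := ih (I.erase i) (fun k => df ((k - i) * b) (f k)) (by
      rw [card_erase_of_mem hi]
      omega) (by
      intro x l'
      have e : ∀ k, df ((k - i) * b) (f k) (x + k * l') =
          f k (x - i * b + k * (l' + b)) - f k (x + k * l') := by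
        intro k
        have e1 : x + k * l' + (k - i) * b = x - i * b + k * (l' + b) := by ring
        rw [df, e1]
      have e2 : ∑ k ∈ I.erase i, df ((k - i) * b) (f k) (x + k * l') =
          ∑ k ∈ I, df ((k - i) * b) (f k) (x + k * l') := by
        rw [← add_sum_erase I _ hi]
        have e3 : df ((i - i) * b) (f i) (x + i * l') = 0 := by
          rw [sub_self, zero_mul, df, add_zero, sub_self]
        rw [e3, zero_add]
      rw [e2]
      simp only [e]
      rw [sum_sub_distrib, h, h, sub_zero]) (mem_erase.2 ⟨hij.symm, hj⟩) t (by simpa using hl)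
    have e4 : (j - i) * b = a := by
      rw [hb, mul_div_cancel₀ _ hne]
    rw [dl]
    simp only [e4] at h3
    exact h3

theorem dd_eq_dl (f : K → F) (x a b c : K) : dd f x a b c = dl [a, b, c] f x := by
  have e1 : x + b + c + a = x + a + b + c := by ring
  have e2 : x + c + b = x + b + c := by ring
  have e3 : x + c + a = x + a + c := by ring
  have e4 : x + b + a = x + a + b := by ring
  simp only [dd, dl, df, e1, e2, e3, e4]
  ring

/-- the second difference -/
def bb (f : K → F) (x u v : K) : F := f (x + u + v) - f (x + u) - f (x + v) + f x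

theorem bb_eq_dl (f : K → F) (x a b : K) : bb f x a b = dl [a, b] f x := by
  have e4 : x + b + a = x + a + b := by ring
  simp only [bb, dl, df, e4]
  ring

end Frechet

section Words

variable {F K : Type} [Field F] [DecidableEq F] [Field K] [Fintype K]
  {C : Submodule F (K → F)}

omit [DecidableEq F] in
theorem word_rel (hC : AffineInvariant C) (h1 : (fun _ => 1) ∈ C) {u : K → F}
    (hu : u ∈ dualCode C) {f : K → F} (hf : f ∈ C) (x l : K) : ∑ i, u i * f (x + i * l) = 0 := by
  by_cases hl : l = 0
  · have h := hu _ h1
    simp only [mul_one] at h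
    simp only [hl, mul_zero, add_zero, ← sum_mul, h, zero_mul]
  · have h := hu _ (hC l x hl f hf)
    rw [← h]
    refine sum_congr rfl fun i _ => ?_
    rw [mul_comm l i, add_comm x]

theorem degree (hC : AffineInvariant C) (h1 : (fun _ => 1) ∈ C) {n : ℕ} {u : K → F}
    (hu : u ∈ lowWeightDual C (n + 1)) (hu0 : u ≠ 0) {f : K → F} (hf : f ∈ C) (l : List K)
    (hl : l.length = n) : dl l f = 0 := by
  obtain ⟨j, hj⟩ : ∃ j, u j ≠ 0 := by
    by_contra hcon
    push Not at hcon
    exact hu0 (funext hcon)
  have h := frechet n (univ.filter fun i => u i ≠ 0) (fun i => u i • f) hu.2 (by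
    intro x l'
    rw [sum_filter_of_ne]
    · exact word_rel hC h1 hu.1 hf x l'
    · intro i _ hi h0
      apply hi
      rw [Pi.smul_apply, h0, zero_smul]) j (mem_filter.2 ⟨mem_univ _, hj⟩) l hl
  rw [dl_smul] at h
  exact (smul_eq_zero.1 h).resolve_left hj

end Words

section Hat

variable {F K : Type} [Field F] [Field K] [Algebra F K]

/-- the span of the restrictions to the planes -/
def planeSpan (C : Submodule F (K → F)) : Submodule F (F × F → F) :=
  Submodule.span F {v | ∃ c ∈ C, ∃ x y z : K, v = fun s => c (x + s.1 • y + s.2 • z)}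

/-- the functions of degree at most two whose restrictions to the planes are admissible -/
def Hat (C : Submodule F (K → F)) (g : K → F) : Prop :=
  (∀ x a b c, dd g x a b c = 0) ∧
    ∀ x y z : K, (fun s : F × F => g (x + s.1 • y + s.2 • z)) ∈ planeSpan C

variable {C : Submodule F (K → F)}

/-- Linear relations on the planes carry over. -/
theorem transfer {Φ : (F × F → F) → F} (hΦ : IsLinearMap F Φ)
    (h : ∀ c ∈ C, ∀ x y z : K, Φ (fun s => c (x + s.1 • y + s.2 • z)) = 0) {g : K → F}
    (hg : Hat C g) (x y z : K) : Φ (fun s => g (x + s.1 • y + s.2 • z)) = 0 := by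
  have h1 : planeSpan C ≤ LinearMap.ker hΦ.mk' := by
    refine Submodule.span_le.2 ?_
    rintro v ⟨c, hc, x, y, z, rfl⟩
    exact h c hc x y z
  exact h1 (hg.2 x y z)

theorem hat_of_mem (hdd : ∀ c ∈ C, ∀ x a b d, dd c x a b d = 0) {c : K → F} (hc : c ∈ C) :
    Hat C c :=
  ⟨hdd c hc, fun x y z => Submodule.subset_span ⟨c, hc, x, y, z, rfl⟩⟩

end Hat

end Pool.Agent.LTCF
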