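import Pool.Agent.LTCF.Frob

/-!
# The box spaces

`bx v S` is the `K`-span of the words `fr j ∘ v` where the residue of `j` modulo `n i` is `1` or
`-1` for `i` in `S` and `0` for the other `i`.
-/

set_option autoImplicit false

namespace Pool.Agent.LTCF

open Finset Pool.Agent.LTC

variable {F K : Type} [Field F] [Fintype F] [Field K] [Algebra F K]
variable {t : ℕ} (n : Fin t → ℕ)

/-- the exponents -/
def expS (S : Finset (Fin t)) : Set ℕ :=
  {j | (∀ i ∈ S, j % n i = 1 ∨ (j + 1) % n i = 0) ∧ ∀ i, i ∉ S → j % n i = 0}

variable (F)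

/-- the span of the words `fr j ∘ v` -/
def bx {α : Type} (v : α → K) (S : Finset (Fin t)) : Submodule K (α → K) :=
  Submodule.span K {w | ∃ j ∈ expS n S, w = fun a => fr F K j (v a)}

variable {F n}

/-- the data of the exponents: `e i` is `1` modulo `n i` and `0` modulo the other `n l` -/
structure CRT (n e : Fin t → ℕ) (N : ℕ) : Prop where
  three_le : ∀ i, 3 ≤ n i
  odd : ∀ i, Odd (n i)
  one : ∀ i, e i % n i = 1
  zero : ∀ i l, l ≠ i → e i % n l = 0
  eq_zero : ∀ m : ℕ, (∀ i, m % n i = 0) → m % N = 0

section Alg

variable {α : Type} {n : Fin t → ℕ}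

theorem fr_mem_bx (v : α → K) {S : Finset (Fin t)} {j : ℕ} (hj : j ∈ expS n S) :
    (fun a => fr F K j (v a)) ∈ bx F n v S := Submodule.subset_span ⟨j, hj, rfl⟩

/-- shifting the exponents -/
theorem shift_mem {v : α → K} {S S' : Finset (Fin t)} {m : ℕ}
    (h : ∀ j ∈ expS n S, m + j ∈ expS n S') {w : α → K} (hw : w ∈ bx F n v S) :
    (fun a => fr F K m (w a)) ∈ bx F n v S' := by
  induction hw using Submodule.span_induction with
  | mem w hw =>
    obtain ⟨j, hj, rfl⟩ := hw
    have h1 := fr_mem_bx (F := F) v (h j hj)
    simpa only [fr_add] using h1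
  | zero =>
    have : (fun a => fr F K m ((0 : α → K) a)) = 0 := by
      funext a
      rw [Pi.zero_apply, map_zero]
    rw [this]
    exact Submodule.zero_mem _
  | add w w' _ _ h h' =>
    have : (fun a => fr F K m ((w + w') a)) =
        (fun a => fr F K m (w a)) + fun a => fr F K m (w' a) := by
      funext a
      rw [Pi.add_apply, map_add, Pi.add_apply]
    rw [this]
    exact Submodule.add_mem _ h h'
  | smul c w _ h =>
    have : (fun a => fr F K m ((c • w) a)) = fr F K m c • fun a => fr F K m (w a) := by
      funext a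
      rw [Pi.smul_apply, smul_eq_mul, map_mul, Pi.smul_apply, smul_eq_mul]
    rw [this]
    exact Submodule.smul_mem _ _ h

theorem bx_comp_mem (v : α → K) (S : Finset (Fin t)) {β : Type} (f : β → α) {w : β → K}
    (hw : w ∈ bx F n (fun b => v (f b)) S) : ∃ d ∈ bx F n v S, ∀ b, d (f b) = w b := by
  induction hw using Submodule.span_induction with
  | mem w hw =>
    obtain ⟨j, hj, rfl⟩ := hw
    exact ⟨_, fr_mem_bx v hj, fun _ => rfl⟩
  | zero => exact ⟨0, Submodule.zero_mem _, fun _ => rfl⟩
  | add w w' _ _ h h' =>
    obtain ⟨d, hd, h⟩ := h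
    obtain ⟨d', hd', h'⟩ := h'
    exact ⟨d + d', Submodule.add_mem _ hd hd', fun b => by simp [h, h']⟩
  | smul c w _ h =>
    obtain ⟨d, hd, h⟩ := h
    exact ⟨c • d, Submodule.smul_mem _ c hd, fun b => by simp [h]⟩

variable {e : Fin t → ℕ}

/-- the exponent `-e i` -/
def em (n e : Fin t → ℕ) (i : Fin t) : ℕ := e i * (n i - 1)

theorem em_mod {N : ℕ} (he : CRT n e N) (i : Fin t) : (em n e i + 1) % n i = 0 := by
  have h1 := he.three_le i
  have h2 : em n e i + e i = e i * n i := by
    obtain ⟨m, hm⟩ : ∃ m, n i = m + 1 := ⟨n i - 1, by omega⟩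
    rw [em, hm, Nat.add_sub_cancel]
    ring
  have h3 : (em n e i + e i) % n i = 0 := by rw [h2, Nat.mul_mod_left]
  rw [Nat.add_mod, he.one i] at h3
  rw [Nat.add_mod]
  have h4 : 1 % n i = 1 := Nat.mod_eq_of_lt (by omega)
  rwa [h4]

theorem em_mod_ne {N : ℕ} (he : CRT n e N) (i l : Fin t) (h : l ≠ i) : em n e i % n l = 0 := by
  rw [em, Nat.mul_mod, he.zero i l h, zero_mul, Nat.zero_mod]

theorem add_e_mem {N : ℕ} (he : CRT n e N) {S : Finset (Fin t)} {i : Fin t} (hi : i ∉ S) {j : ℕ}
    (hj : j ∈ expS n S) : e i + j ∈ expS n (insert i S) := by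
  constructor
  · intro l hl
    by_cases hli : l = i
    · subst hli
      left
      rw [Nat.add_mod, hj.2 l hi, he.one l, add_zero]
      exact Nat.mod_eq_of_lt (by have := he.three_le l; omega)
    · have h1 := he.zero i l hli
      rcases hj.1 l (by simpa [hli] using hl) with h2 | h2
      · left
        rw [Nat.add_mod, h1, zero_add, Nat.mod_mod, h2]
      · right
        rw [add_assoc, Nat.add_mod, h1, zero_add, Nat.mod_mod, h2]
  · intro l hl
    have hli : l ≠ i := by rintro rfl; simp at hl
    have hlS : l ∉ S := by intro h; simp [h] at hl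
    rw [Nat.add_mod, hj.2 l hlS, he.zero i l hli]
    simp

theorem add_em_mem {N : ℕ} (he : CRT n e N) {S : Finset (Fin t)} {i : Fin t} (hi : i ∉ S) {j : ℕ}
    (hj : j ∈ expS n S) : em n e i + j ∈ expS n (insert i S) := by
  constructor
  · intro l hl
    by_cases hli : l = i
    · subst hli
      right
      rw [add_right_comm, Nat.add_mod, hj.2 l hi, em_mod he l]
      simp
    · have h1 := em_mod_ne he i l hli
      rcases hj.1 l (by simpa [hli] using hl) with h2 | h2
      · left
        rw [Nat.add_mod, h1, zero_add, Nat.mod_mod, h2]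
      · right
        rw [add_assoc, Nat.add_mod, h1, zero_add, Nat.mod_mod, h2]
  · intro l hl
    have hli : l ≠ i := by rintro rfl; simp at hl
    have hlS : l ∉ S := by intro h; simp [h] at hl
    rw [Nat.add_mod, hj.2 l hlS, em_mod_ne he i l hli]
    simp

end Alg

section Dim

variable [Fintype K] {α : Type} [Fintype α] {n e : Fin t → ℕ}

omit [Fintype K] in
theorem card_submodule (V : Submodule K (α → K)) :
    Nat.card V = Nat.card K ^ Module.finrank K V := Module.natCard_eq_pow_finrank

theorem finrank_le_of_shift {V V' : Submodule K (α → K)} {m : ℕ}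
    (h : ∀ w ∈ V, (fun a => fr F K m (w a)) ∈ V') :
    Module.finrank K V ≤ Module.finrank K V' := by
  have h1 : Nat.card V ≤ Nat.card V' := by
    refine Nat.card_le_card_of_injective
      (fun w : V => (⟨fun a => fr F K m ((w : α → K) a), h w w.2⟩ : V')) ?_
    intro w w' hww
    apply Subtype.ext
    funext a
    exact fr_injective m (congrFun (congrArg Subtype.val hww) a)
  rw [card_submodule, card_submodule] at h1
  exact (Nat.pow_le_pow_iff_right (Finite.one_lt_card)).1 h1

theorem surj_of_shift {V V' : Submodule K (α → K)} {m : ℕ}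
    (h : ∀ w ∈ V, (fun a => fr F K m (w a)) ∈ V')
    (hd : Module.finrank K V' ≤ Module.finrank K V) {w : α → K} (hw : w ∈ V') :
    ∃ w' ∈ V, (fun a => fr F K m (w' a)) = w := by
  have hinj : Function.Injective
      (fun w : V => (⟨fun a => fr F K m ((w : α → K) a), h w w.2⟩ : V')) := by
    intro w w' hww
    apply Subtype.ext
    funext a
    exact fr_injective m (congrFun (congrArg Subtype.val hww) a)
  have hcard : Nat.card V = Nat.card V' := by
    rw [card_submodule, card_submodule, le_antisymm hd (finrank_le_of_shift h)]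
  have hbij := (Nat.bijective_iff_injective_and_card _).2 ⟨hinj, hcard⟩
  obtain ⟨w', hw'⟩ := hbij.2 ⟨w, hw⟩
  exact ⟨w', w'.2, congrArg Subtype.val hw'⟩

/-- if the dimension does not grow, the space is invariant -/
theorem invariant_of_finrank {N : ℕ} (hN : Module.finrank F K = N) (he : CRT n e N)
    (v : α → K) {S : Finset (Fin t)} {i : Fin t} (hi : i ∉ S)
    (hd : Module.finrank K (bx F n v (insert i S)) ≤ Module.finrank K (bx F n v S))
    {w : α → K} (hw : w ∈ bx F n v S) : (fun a => fr F K (e i) (w a)) ∈ bx F n v S := by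
  have h1 : ∀ w ∈ bx F n v S, (fun a => fr F K (e i) (w a)) ∈ bx F n v (insert i S) :=
    fun w hw => shift_mem (fun j hj => add_e_mem he hi hj) hw
  have h2 : ∀ w ∈ bx F n v S, (fun a => fr F K (em n e i) (w a)) ∈ bx F n v (insert i S) :=
    fun w hw => shift_mem (fun j hj => add_em_mem he hi hj) hw
  have hzero : ∀ m : ℕ, (∀ l, m % n l = 0) → ∀ x : K, fr F K m x = x := by
    intro m hm x
    have h3 : m ≡ 0 [MOD Module.finrank F K] := by
      rw [hN, Nat.ModEq, he.eq_zero m hm, Nat.zero_mod]
    rw [fr_modEq h3, fr_zero]
  have h4 : ∀ w ∈ bx F n v S, (fun a => fr F K (2 * e i) (w a)) ∈ bx F n v S := by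
    intro w hw
    obtain ⟨w', hw', hww⟩ := surj_of_shift h2 hd (h1 w hw)
    have h5 : (fun a => fr F K (2 * e i) (w a)) = w' := by
      funext a
      have h6 : fr F K (em n e i) (w' a) = fr F K (e i) (w a) := congrFun hww a
      rw [two_mul, fr_add, ← h6, ← fr_add]
      refine hzero _ (fun l => ?_) _
      by_cases hl : l = i
      · subst hl
        have h7 := he.three_le l
        have h8 : e l + em n e l = e l * n l := by
          obtain ⟨m, hm⟩ : ∃ m, n l = m + 1 := ⟨n l - 1, by omega⟩
          rw [em, hm, Nat.add_sub_cancel]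
          ring
        rw [h8, Nat.mul_mod_left]
      · rw [Nat.add_mod, he.zero i l hl, em_mod_ne he i l hl]
        simp
    rw [h5]
    exact hw'
  have h5 : ∀ c : ℕ, ∀ w ∈ bx F n v S, (fun a => fr F K (2 * e i * c) (w a)) ∈ bx F n v S := by
    intro c
    induction c with
    | zero =>
      intro w hw
      simpa only [mul_zero, fr_zero] using hw
    | succ c ih =>
      intro w hw
      simp only [fr_mul_succ]
      exact ih _ (h4 w hw)
  obtain ⟨m, hm⟩ := he.odd i
  have h6 := h5 (m + 1) w hw
  have h7 : ∀ x : K, fr F K (2 * e i * (m + 1)) x = fr F K (e i) x := by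
    intro x
    have h8 : 2 * e i * (m + 1) = e i * n i + e i := by
      rw [hm]
      ring
    rw [h8, fr_add]
    refine hzero _ (fun l => ?_) _
    by_cases hl : l = i
    · subst hl
      rw [Nat.mul_mod_left]
    · rw [Nat.mul_mod, he.zero i l hl, zero_mul, Nat.zero_mod]
  simpa only [h7] using h6

/-- the exponent `1` modulo all `n i`, `i ≠ k`, and `0` modulo `n k` -/
def gg (e : Fin t → ℕ) (k : Fin t) : ℕ := ∑ i ∈ univ.erase k, e i

/-- All but few of the words `fr (gg e k) ∘ v` lie in the box space of `v`. -/
theorem exists_small {N : ℕ} (hN : Module.finrank F K = N) (he : CRT n e N) (v : α → K) :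
    ∃ S : Finset (Fin t), S.card ≤ Fintype.card α ∧
      ∀ k, k ∉ S → (fun a => fr F K (gg e k) (v a)) ∈ bx F n v univ := by
  classical
  have hne : (univ.filter fun S : Finset (Fin t) =>
      S.card ≤ Module.finrank K (bx F n v S)).Nonempty := ⟨∅, by simp⟩
  obtain ⟨S, hS, hmax⟩ := exists_max_image _ (fun S : Finset (Fin t) => S.card) hne
  simp only [mem_filter, mem_univ, true_and] at hS hmax
  have hmod : ∀ (T : Finset (Fin t)) (l : Fin t),
      (∑ i ∈ T, e i) % n l = if l ∈ T then 1 else 0 := by
    intro T l
    have h3 := he.three_le l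
    induction T using Finset.induction_on with
    | empty => simp
    | insert i T hi ih =>
      rw [sum_insert hi, Nat.add_mod, ih]
      by_cases hl : l = i
      · subst hl
        rw [he.one l, if_neg hi, if_pos (mem_insert_self _ _), add_zero]
        exact Nat.mod_eq_of_lt (by omega)
      · rw [he.zero i l hl, zero_add]
        by_cases hlT : l ∈ T
        · rw [if_pos hlT, if_pos (mem_insert_of_mem hlT)]
          exact Nat.mod_eq_of_lt (by omega)
        · rw [if_neg hlT, if_neg (by simp [hl, hlT])]
          exact Nat.zero_mod _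
  refine ⟨S, hS.trans ?_, fun k hk => ?_⟩
  · refine (Submodule.finrank_le _).trans ?_
    simp
  · have hinv : ∀ w ∈ bx F n v S, (fun a => fr F K (e k) (w a)) ∈ bx F n v S := by
      intro w hw
      refine invariant_of_finrank hN he v hk ?_ hw
      by_contra hlt
      push Not at hlt
      have h1 := hmax (insert k S) (by
        rw [card_insert_of_notMem hk]
        omega)
      rw [card_insert_of_notMem hk] at h1
      omega
    have hinv' : ∀ c : ℕ, ∀ w ∈ bx F n v S,
        (fun a => fr F K (e k * c) (w a)) ∈ bx F n v S := by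
      intro c
      induction c with
      | zero =>
        intro w hw
        simpa only [mul_zero, fr_zero] using hw
      | succ c ih =>
        intro w hw
        simp only [fr_mul_succ]
        exact ih _ (hinv w hw)
    have h1 : (∑ i ∈ S, e i) ∈ expS n S := by
      constructor
      · intro i hi
        left
        rw [hmod, if_pos hi]
      · intro i hi
        rw [hmod, if_neg hi]
    have h2 := hinv' (n k - 1) _ (fr_mem_bx (F := F) v h1)
    set T := univ \ insert k S with hT
    have h3 : ∀ j ∈ expS n S, (∑ i ∈ T, e i + e k) + j ∈ expS n (univ : Finset (Fin t)) := by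
      intro j hj
      refine ⟨fun i _ => ?_, fun i hi => absurd (mem_univ i) hi⟩
      have h3 := he.three_le i
      have h4 := hmod T i
      by_cases hik : i = k
      · subst hik
        left
        have h5 : i ∉ T := by simp [hT]
        rw [if_neg h5] at h4
        rw [Nat.add_mod, Nat.add_mod (∑ i ∈ T, e i), h4, he.one i, hj.2 i hk, zero_add, add_zero,
          Nat.mod_mod]
        exact Nat.mod_eq_of_lt (by omega)
      · have h6 := he.zero k i hik
        have h7 : (∑ i ∈ T, e i + e k) % n i = (∑ i ∈ T, e i) % n i := by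
          rw [Nat.add_mod, h6, add_zero, Nat.mod_mod]
        by_cases hiS : i ∈ S
        · have h5 : i ∉ T := by simp [hT, hiS]
          rw [if_neg h5] at h4
          rw [h4] at h7
          rcases hj.1 i hiS with h8 | h8
          · left
            rw [Nat.add_mod, h7, h8, zero_add]
            exact Nat.mod_eq_of_lt (by omega)
          · right
            rw [add_assoc, Nat.add_mod, h7, h8]
            simp
        · have h5 : i ∈ T := by simp [hT, hiS, hik]
          rw [if_pos h5] at h4
          rw [h4] at h7
          left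
          rw [Nat.add_mod, h7, hj.2 i hiS, add_zero]
          exact Nat.mod_eq_of_lt (by omega)
    have h4 := shift_mem h3 h2
    have h5 : (fun a => fr F K (∑ i ∈ T, e i + e k)
        (fr F K (e k * (n k - 1)) (fr F K (∑ i ∈ S, e i) (v a)))) =
        fun a => fr F K (gg e k) (v a) := by
      funext a
      rw [← fr_add, ← fr_add]
      have h6 : (∑ i ∈ T, e i + e k + e k * (n k - 1) + ∑ i ∈ S, e i) =
          e k * n k + gg e k := by
        have h7 : gg e k = ∑ i ∈ T, e i + ∑ i ∈ S, e i := by
          rw [gg, ← sum_union (by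
            rw [hT, disjoint_left]
            intro i hi hiS
            simp [hiS] at hi)]
          refine sum_congr ?_ fun _ _ => rfl
          ext i
          simp only [mem_erase, mem_univ, and_true, mem_union, hT, mem_sdiff, mem_insert,
            true_and]
          constructor
          · intro h
            by_cases hiS : i ∈ S
            · exact Or.inr hiS
            · exact Or.inl (by
                rintro (h' | h')
                · exact h h'
                · exact hiS h')
          · rintro (h | h)
            · intro h'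
              exact h (Or.inl h')
            · rintro rfl
              exact hk h
        have h8 := he.three_le k
        have h9 : e k + e k * (n k - 1) = e k * n k := by
          obtain ⟨m, hm⟩ : ∃ m, n k = m + 1 := ⟨n k - 1, by omega⟩
          rw [hm, Nat.add_sub_cancel]
          ring
        rw [h7, ← h9]
        ring
      rw [h6, add_comm, fr_add]
      congr 1
      have h7 : e k * n k ≡ 0 [MOD Module.finrank F K] := by
        rw [hN, Nat.ModEq, he.eq_zero _ (fun l => ?_), Nat.zero_mod]
        by_cases hl : l = k
        · subst hl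
          rw [Nat.mul_mod_left]
        · rw [Nat.mul_mod, he.zero k l hl, zero_mul, Nat.zero_mod]
      rw [fr_modEq h7, fr_zero]
    rw [h5] at h4
    exact h4

end Dim

end Pool.Agent.LTCF
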