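import Mathlib

/-!
# Additive maps with values in a finite field

Every additive map from a vector space over the finite field `F` to `F` is the sum of its
components, one for each automorphism of `F`.
-/

set_option autoImplicit false

namespace Pool.Agent.LTCF

open Finset

variable {F K : Type} [Field F] [Fintype F] [AddCommGroup K] [Module F K]
variable (p : ℕ) [Fact p.Prime] [Algebra (ZMod p) F]

open Classical in
/-- the component of `a` for the automorphism `σ` -/
noncomputable def proj (σ : F ≃ₐ[ZMod p] F) (a : K → F) (x : K) : F :=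
  -∑ c : Fˣ, (σ (c : F))⁻¹ * a ((c : F) • x)

theorem proj_smul (σ : F ≃ₐ[ZMod p] F) (a : K → F) (h0 : a 0 = 0) (c : F) (x : K) :
    proj p σ a (c • x) = σ c * proj p σ a x := by
  classical
  rcases eq_or_ne c 0 with rfl | hc
  · simp [proj, h0]
  · unfold proj
    rw [mul_neg, neg_inj, mul_sum]
    refine Fintype.sum_equiv (Equiv.mulRight (Units.mk0 c hc)) _ _ fun d => ?_
    rw [Equiv.coe_mulRight, Units.val_mul, Units.val_mk0, map_mul, smul_smul]
    have h1 : σ c ≠ 0 := (map_ne_zero σ).2 hc
    have h2 : σ (d : F) ≠ 0 := (map_ne_zero σ).2 d.ne_zero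
    field_simp

theorem proj_add (σ : F ≃ₐ[ZMod p] F) (a : K → F) (ha : ∀ x y, a (x + y) = a x + a y)
    (x y : K) : proj p σ a (x + y) = proj p σ a x + proj p σ a y := by
  classical
  unfold proj
  rw [← neg_add, ← sum_add_distrib]
  congr 1
  refine sum_congr rfl fun c _ => ?_
  rw [smul_add, ha, mul_add]

theorem exists_coeff (l : F →+ F) :
    ∃ k : (F ≃ₐ[ZMod p] F) → F, ∀ x, l x = ∑ τ, k τ * τ x := by
  classical
  have hli := linearIndependent_algHom_toLinearMap (ZMod p) F F
  have hinj : Function.Injective (fun τ : F ≃ₐ[ZMod p] F => (τ : F →ₐ[ZMod p] F)) := by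
    intro s t h
    ext x
    exact DFunLike.congr_fun h x
  have hli' := hli.comp _ hinj
  have : FiniteDimensional (ZMod p) F := Module.Finite.of_finite
  have hcard : Fintype.card (F ≃ₐ[ZMod p] F) = Module.finrank F (F →ₗ[ZMod p] F) := by
    rw [Module.finrank_linearMap_self, ← Nat.card_eq_fintype_card]
    exact IsGalois.card_aut_eq_finrank (ZMod p) F
  have htop := hli'.span_eq_top_of_card_eq_finrank' hcard
  have hmem : (l.toZModLinearMap p) ∈ Submodule.span F (Set.range
      ((fun f : F →ₐ[ZMod p] F => f.toLinearMap) ∘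
        fun τ : F ≃ₐ[ZMod p] F => (τ : F →ₐ[ZMod p] F))) := by
    rw [htop]; trivial
  obtain ⟨k, hk⟩ := (Submodule.mem_span_range_iff_exists_fun F).1 hmem
  refine ⟨k, fun x => ?_⟩
  have h := LinearMap.congr_fun hk x
  simp only [LinearMap.sum_apply, LinearMap.smul_apply, Function.comp_apply,
    AlgHom.toLinearMap_apply, smul_eq_mul] at h
  rw [show l x = (l.toZModLinearMap p) x from rfl, ← h]
  rfl

open Classical in
theorem sum_aut_mul (σ τ : F ≃ₐ[ZMod p] F) :
    ∑ c : Fˣ, (σ (c : F))⁻¹ * τ (c : F) = if σ = τ then -1 else 0 := by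
  classical
  let f : Fˣ →* F :=
    { toFun := fun c => (σ (c : F))⁻¹ * τ (c : F)
      map_one' := by simp
      map_mul' := fun c d => by
        rw [Units.val_mul, map_mul, map_mul, mul_inv]
        ring }
  have h1 := sum_hom_units f
  change ∑ c : Fˣ, (σ (c : F))⁻¹ * τ (c : F) = _ at h1
  rw [h1]
  have hf : f = 1 ↔ σ = τ := by
    constructor
    · intro h
      ext x
      rcases eq_or_ne x 0 with rfl | hx
      · rw [map_zero, map_zero]
      · have h2 := DFunLike.congr_fun h (Units.mk0 x hx)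
        change (σ x)⁻¹ * τ x = 1 at h2
        have h3 : σ x ≠ 0 := (map_ne_zero σ).2 hx
        rw [inv_mul_eq_one₀ h3] at h2
        exact h2
    · rintro rfl
      ext c
      change (σ (c : F))⁻¹ * σ (c : F) = 1
      exact inv_mul_cancel₀ ((map_ne_zero σ).2 c.ne_zero)
  by_cases h : σ = τ
  · rw [if_pos h, if_pos (hf.2 h)]
    rw [Fintype.card_units, Nat.cast_sub Fintype.card_pos, Nat.cast_card_eq_zero]
    simp
  · rw [if_neg h, if_neg fun h2 => h (hf.1 h2)]
    simp

theorem sum_proj (a : K → F) (ha : ∀ x y, a (x + y) = a x + a y) (x : K) :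
    ∑ σ : F ≃ₐ[ZMod p] F, proj p σ a x = a x := by
  classical
  let l : F →+ F :=
    { toFun := fun c => a (c • x)
      map_zero' := by
        have h := ha 0 0
        rw [add_zero] at h
        rw [zero_smul]
        exact left_eq_add.1 h
      map_add' := fun c d => by rw [add_smul, ha] }
  obtain ⟨k, hk⟩ := exists_coeff p l
  have h1 : ∀ σ : F ≃ₐ[ZMod p] F, proj p σ a x = k σ := by
    intro σ
    have h2 : ∀ c : Fˣ, (σ (c : F))⁻¹ * a ((c : F) • x) =
        ∑ τ : F ≃ₐ[ZMod p] F, k τ * ((σ (c : F))⁻¹ * τ (c : F)) := by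
      intro c
      have h3 := hk (c : F)
      change a ((c : F) • x) = _ at h3
      rw [h3, mul_sum]
      exact sum_congr rfl fun τ _ => by ring
    unfold proj
    rw [sum_congr rfl fun c _ => h2 c, sum_comm]
    have h3 : ∀ τ : F ≃ₐ[ZMod p] F, ∑ c : Fˣ, k τ * ((σ (c : F))⁻¹ * τ (c : F)) =
        k τ * if σ = τ then -1 else 0 := fun τ => by rw [← mul_sum, sum_aut_mul]
    rw [sum_congr rfl fun τ _ => h3 τ]
    simp
  rw [sum_congr rfl fun σ _ => h1 σ]
  have h4 := hk 1
  change a ((1 : F) • x) = _ at h4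
  rw [one_smul] at h4
  rw [h4]
  exact sum_congr rfl fun σ _ => by rw [map_one, mul_one]

end Pool.Agent.LTCF
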