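import Pool.Agent.LTCF.Basic
import Pool.Agent.LTCF.Decomp

/-!
# The components of the additive words of an affine invariant code
-/

set_option autoImplicit false

namespace Pool.Agent.LTCF

open Finset Pool.Agent.LTC

variable {F K : Type} [Field F] [Fintype F] [Field K] [Algebra F K]
variable (p : ℕ) [Fact p.Prime] [Algebra (ZMod p) F]

/-- the automorphisms that occur in the additive codewords -/
def AA (C : Submodule F (K → F)) : Set (F ≃ₐ[ZMod p] F) :=
  {σ | ∃ a ∈ C, (∀ x y, a (x + y) = a x + a y) ∧ ∃ x, proj p σ a x ≠ 0}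

/-- the field on which all these automorphisms agree -/
def FA (C : Submodule F (K → F)) : Subfield F where
  carrier := {c | ∀ σ ∈ AA p C, ∀ τ ∈ AA p C, σ c = τ c}
  mul_mem' := by
    intro a b ha hb σ hσ τ hτ
    rw [map_mul, map_mul, ha σ hσ τ hτ, hb σ hσ τ hτ]
  one_mem' := by
    intro σ _ τ _
    rw [map_one, map_one]
  add_mem' := by
    intro a b ha hb σ hσ τ hτ
    rw [map_add, map_add, ha σ hσ τ hτ, hb σ hσ τ hτ]
  zero_mem' := by
    intro σ _ τ _
    rw [map_zero, map_zero]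
  neg_mem' := by
    intro a ha σ hσ τ hτ
    rw [map_neg, map_neg, ha σ hσ τ hτ]
  inv_mem' := by
    intro a ha σ hσ τ hτ
    rw [map_inv₀, map_inv₀, ha σ hσ τ hτ]

variable {C : Submodule F (K → F)}

theorem mem_FA {c : F} : c ∈ FA p C ↔ ∀ σ ∈ AA p C, ∀ τ ∈ AA p C, σ c = τ c := Iff.rfl

theorem proj_of_notMem {σ : F ≃ₐ[ZMod p] F} (hσ : σ ∉ AA p C) {a : K → F} (ha : a ∈ C)
    (hadd : ∀ x y, a (x + y) = a x + a y) (x : K) : proj p σ a x = 0 := by
  by_contra h
  exact hσ ⟨a, ha, hadd, x, h⟩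

omit [Fintype F] [Algebra F K] in
theorem zero_of_additive {a : K → F} (hadd : ∀ x y, a (x + y) = a x + a y) : a 0 = 0 := by
  have h := hadd 0 0
  rw [add_zero] at h
  exact left_eq_add.1 h

theorem additive_smul {a : K → F} (ha : a ∈ C) (hadd : ∀ x y, a (x + y) = a x + a y) {c : F}
    (hc : c ∈ FA p C) {σ : F ≃ₐ[ZMod p] F} (hσ : σ ∈ AA p C) (x : K) :
    a (c • x) = σ c * a x := by
  rw [← sum_proj p a hadd (c • x), ← sum_proj p a hadd x, mul_sum]
  refine sum_congr rfl fun τ _ => ?_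
  rw [proj_smul p τ a (zero_of_additive hadd)]
  by_cases hτ : τ ∈ AA p C
  · rw [hc σ hσ τ hτ]
  · rw [proj_of_notMem p hτ ha hadd, mul_zero, mul_zero]

/-- The relations between the positions of a dual word. -/
theorem sum_smul_eq_zero {ι : Type} (I : Finset ι) (α : ι → F) (t : ι → K)
    (h : ∀ a ∈ C, (∀ x y, a (x + y) = a x + a y) → ∀ l : K, ∑ i ∈ I, α i * a (l * t i) = 0)
    {σ : F ≃ₐ[ZMod p] F} (hσ : σ ∈ AA p C) : ∑ i ∈ I, σ.symm (α i) • t i = 0 := by
  classical
  obtain ⟨a, ha, hadd, x, hx⟩ := hσ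
  by_contra hS
  set S := ∑ i ∈ I, σ.symm (α i) • t i with hSdef
  have h0 := zero_of_additive hadd
  let φ : K →+ F := AddMonoidHom.mk' (proj p σ a) (proj_add p σ a hadd)
  have hφ : ∀ y, φ y = proj p σ a y := fun _ => rfl
  apply hx
  have e1 : x = ∑ i ∈ I, σ.symm (α i) • (x / S * t i) := by
    have : ∀ i, σ.symm (α i) • (x / S * t i) = x / S * (σ.symm (α i) • t i) := by
      intro i
      rw [mul_smul_comm]
    simp only [this]
    rw [← mul_sum, ← hSdef, div_mul_cancel₀ _ hS]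
  have e2 : proj p σ a x = ∑ i ∈ I, α i * proj p σ a (x / S * t i) := by
    conv_lhs => rw [e1]
    rw [← hφ, map_sum]
    refine sum_congr rfl fun i _ => ?_
    rw [hφ, proj_smul p σ a h0, AlgEquiv.apply_symm_apply]
  rw [e2]
  simp only [proj, mul_neg, mul_sum, sum_neg_distrib]
  rw [neg_eq_zero, sum_comm]
  refine sum_eq_zero fun c _ => ?_
  have e3 := h a ha hadd ((c : F) • (x / S))
  have e4 : ∀ i, α i * ((σ (c : F))⁻¹ * a ((c : F) • (x / S * t i))) =
      (σ (c : F))⁻¹ * (α i * a ((c : F) • (x / S) * t i)) := by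
    intro i
    rw [smul_mul_assoc]
    ring
  simp only [e4]
  rw [← mul_sum, e3, mul_zero]

end Pool.Agent.LTCF
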