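import Pool.Agent.LTCF.Comp

/-!
# Codes of degree at most one
-/

set_option autoImplicit false

namespace Pool.Agent.LTCF

open Finset Pool.Agent.LTC

variable {F K : Type} [Field F] [Fintype F] [Field K] [Fintype K] [Algebra F K]
variable {C : Submodule F (K → F)}

omit [Fintype K] [Fintype F] in
theorem bb_zero_of_hat (hb : ∀ c ∈ C, ∀ x u v, bb c x u v = 0) {g : K → F} (hg : Hat C g)
    (x u v : K) : bb g x u v = 0 := by
  have hΦ : IsLinearMap F (fun w : F × F → F => w (1, 1) - w (1, 0) - w (0, 1) + w (0, 0)) :=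
    ⟨fun v w => by simp only [Pi.add_apply]; ring,
      fun a v => by simp only [Pi.smul_apply, smul_eq_mul]; ring⟩
  have h := transfer hΦ (by
    intro c hc x y z
    simpa [bb] using hb c hc x y z) hg x u v
  simpa [bb] using h

omit [Fintype K] in
theorem proj_zero_of_hat (p : ℕ) [Fact p.Prime] [Algebra (ZMod p) F] (hC : AffineInvariant C)
    (h1 : (fun _ => 1) ∈ C) (hb : ∀ c ∈ C, ∀ x u v, bb c x u v = 0) {σ : F ≃ₐ[ZMod p] F}
    (hσ : σ ∉ AA p C) {g : K → F} (hg : Hat C g) (y : K) :
    proj p σ (fun y => g y - g 0) y = 0 := by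
  classical
  have hΦ : IsLinearMap F (fun w : F × F → F =>
      -∑ c : Fˣ, (σ (c : F))⁻¹ * (w ((c : F), 0) - w (0, 0))) :=
    ⟨fun v w => by
        rw [← neg_add, ← sum_add_distrib]
        congr 1
        refine sum_congr rfl fun c _ => ?_
        simp only [Pi.add_apply]
        ring,
      fun a v => by
        rw [smul_eq_mul, mul_neg, mul_sum]
        congr 1
        refine sum_congr rfl fun c _ => ?_
        simp only [Pi.smul_apply, smul_eq_mul]
        ring⟩
  have h := transfer hΦ (by
    intro c hc x y z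
    have h2 := proj_of_notMem p hσ (hC.base h1 hc x) (by
      intro u v
      have h3 := hb c hc x u v
      unfold bb at h3
      rw [← add_assoc]
      linear_combination h3) y
    unfold proj at h2
    simpa using h2) hg 0 y 0
  unfold proj
  simpa using h

/-- the plane test is enough for codes of degree at most one -/
theorem mem_of_hat_of_deg_one [DecidableEq F] (hC : AffineInvariant C) (h1 : (fun _ => 1) ∈ C)
    (hspan : Submodule.span F (lowWeightDual C 4) = dualCode C)
    (hb : ∀ c ∈ C, ∀ x u v, bb c x u v = 0) {g : K → F} (hg : Hat C g) : g ∈ C := by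
  classical
  obtain ⟨p, hp⟩ := CharP.exists F
  have hprime : p.Prime := CharP.char_is_prime F p
  have : Fact p.Prime := ⟨hprime⟩
  let _ : Algebra (ZMod p) F := ZMod.algebra F p
  refine mem_of_span_eq hspan ?_
  rintro u ⟨hu, -⟩
  set a : K → F := fun y => g y - g 0 with ha
  have hadd : ∀ x y, a (x + y) = a x + a y := by
    intro x y
    have h3 := bb_zero_of_hat hb hg 0 x y
    simp only [bb, zero_add] at h3
    simp only [ha]
    linear_combination h3
  have hu1 : ∑ i, u i = 0 := by
    have h := hu _ h1
    simpa using h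
  have e1 : ∑ i, u i * g i = ∑ i, u i * a i := by
    have : ∀ i, u i * g i = u i * a i + u i * g 0 := by
      intro i
      rw [ha]
      ring
    simp only [this]
    rw [sum_add_distrib, ← sum_mul, hu1, zero_mul, add_zero]
  rw [e1]
  have e2 : ∀ i, u i * a i = ∑ σ : F ≃ₐ[ZMod p] F, u i * proj p σ a i := by
    intro i
    rw [← mul_sum, sum_proj p a hadd]
  simp only [e2]
  rw [sum_comm]
  refine sum_eq_zero fun σ _ => ?_
  by_cases hσ : σ ∈ AA p C
  · have h0 := zero_of_additive hadd
    let φ : K →+ F := AddMonoidHom.mk' (proj p σ a) (proj_add p σ a hadd)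
    have hφ : ∀ y, φ y = proj p σ a y := fun _ => rfl
    have e3 : ∑ i, u i * proj p σ a i = proj p σ a (∑ i, σ.symm (u i) • i) := by
      rw [← hφ, map_sum]
      refine sum_congr rfl fun i _ => ?_
      rw [hφ, proj_smul p σ a h0, AlgEquiv.apply_symm_apply]
    rw [e3, sum_smul_eq_zero p univ u (fun i => i) (by
      intro b hb' hbadd l
      have h := word_rel hC h1 hu hb' 0 l
      rw [← h]
      refine sum_congr rfl fun i _ => ?_
      rw [zero_add, mul_comm l i]) hσ, ← hφ, map_zero]
  · refine sum_eq_zero fun i _ => ?_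
    rw [proj_zero_of_hat p hC h1 hb hσ hg i, mul_zero]

end Pool.Agent.LTCF
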