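import Pool.Agent.LTCF.Frob

/-!
# Five points

In an extension `E` of odd degree of a finite field with more than two elements there are five
points `z i` and coefficients `a i` in the small field with `∑ a i = 0`, `∑ a i * z i = 0`,
`∑ a i * z i * fr 1 (z i) = 0` and `∑ a i * z i ^ 2 ≠ 0`.
-/

set_option autoImplicit false

namespace Pool.Agent.LTCF

open Finset Pool.Agent.LTC

variable {F E : Type} [Field F] [Fintype F] [Field E] [Fintype E] [Algebra F E]

/-- `w ↦ w + fr 1 w` as a linear map -/
noncomputable def tw (F E : Type) [Field F] [Fintype F] [Field E] [Algebra F E] : E →ₗ[F] E :=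
  LinearMap.id + (fr F E 1).toLinearMap

omit [Fintype E] in
theorem tw_apply (w : E) : tw F E w = w + fr F E 1 w := rfl

omit [Fintype F] [Fintype E] in
theorem finrank_span_one_le : Module.finrank F (Submodule.span F ({1} : Set E)) ≤ 1 := by
  classical
  have h := finrank_span_finset_le_card (R := F) ({1} : Finset E)
  rw [coe_singleton, card_singleton] at h
  exact h

/-- a nonzero element different from `-1` -/
theorem exists_beta (hF : 3 ≤ Fintype.card F) : ∃ b : F, b ≠ 0 ∧ 1 + b ≠ 0 := by
  classical
  have h : ({0, -1} : Finset F).card < (univ : Finset F).card := by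
    rw [card_univ]
    exact lt_of_le_of_lt (card_insert_le _ _) (by simp; omega)
  obtain ⟨b, -, hb⟩ := exists_mem_notMem_of_card_lt_card h
  simp only [mem_insert, mem_singleton, not_or] at hb
  exact ⟨b, hb.1, fun h => hb.2 (by linear_combination h)⟩

omit [Fintype E] in
/-- an element which is not fixed -/
theorem exists_not_fixed (hm : 2 ≤ Module.finrank F E) : ∃ u : E, fr F E 1 u ≠ u := by
  by_contra hcon
  push Not at hcon
  have h1 : (⊤ : Submodule F E) ≤ Submodule.span F {1} := by
    intro x _
    obtain ⟨c, hc⟩ := exists_of_fixed (hcon x)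
    rw [hc, Submodule.mem_span_singleton]
    exact ⟨c, by rw [Algebra.smul_def, mul_one]⟩
  have h2 : Module.finrank F E ≤ 1 := by
    rw [← finrank_top F E]
    exact (Submodule.finrank_mono h1).trans finrank_span_one_le
  omega

theorem exists_uw_odd (hodd : Odd (Module.finrank F E)) (h2 : (2 : E) ≠ 0) (y : E) :
    ∃ w : E, w + fr F E 1 w = y := by
  have hinj : Function.Injective (tw F E) := by
    rw [← LinearMap.ker_eq_bot, Submodule.eq_bot_iff]
    intro w hw
    rw [LinearMap.mem_ker, tw_apply] at hw
    have h3 : fr F E 1 w = -w := by linear_combination hw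
    have h4 : fr F E 2 w = w := by
      have : (2 : ℕ) = 1 + 1 := rfl
      rw [this, fr_add, h3, map_neg, h3, neg_neg]
    have h5 := fixed_of_fixed_two hodd h4
    rw [h3] at h5
    have h6 : 2 * w = 0 := by linear_combination -h5
    exact (mul_eq_zero.1 h6).resolve_left h2
  have hsurj := LinearMap.injective_iff_surjective.1 hinj
  exact hsurj y

theorem exists_uw_two (hm : 5 ≤ Module.finrank F E) (h2 : (2 : F) = 0) (k : F) :
    ∃ u w : E, fr F E 1 u ≠ u ∧ w + fr F E 1 w = algebraMap F E k * (u * fr F E 1 u) := by
  classical
  have h2E : (2 : E) = 0 := by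
    have := congrArg (algebraMap F E) h2
    rwa [map_ofNat, map_zero] at this
  -- a functional whose kernel is the range of `tw`
  have hker : Module.finrank F (LinearMap.ker (tw F E)) ≤ 1 := by
    refine le_trans (Submodule.finrank_mono (t := Submodule.span F {1}) ?_)
      finrank_span_one_le
    intro w hw
    rw [LinearMap.mem_ker, tw_apply] at hw
    have h3 : fr F E 1 w = w := by linear_combination hw - w * h2E
    obtain ⟨c, hc⟩ := exists_of_fixed h3
    rw [hc, Submodule.mem_span_singleton]
    exact ⟨c, by rw [Algebra.smul_def, mul_one]⟩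
  have hrk := LinearMap.finrank_range_add_finrank_ker (tw F E)
  -- the quadratic function has values in the one dimensional quotient
  by_cases htop : LinearMap.range (tw F E) = ⊤
  · obtain ⟨u, hu⟩ := exists_not_fixed (F := F) (E := E) (by omega)
    have h3 : algebraMap F E k * (u * fr F E 1 u) ∈ LinearMap.range (tw F E) := by
      rw [htop]; trivial
    obtain ⟨w, hw⟩ := h3
    exact ⟨u, w, hu, hw⟩
  obtain ⟨y, hy⟩ : ∃ y, y ∉ LinearMap.range (tw F E) := by
    by_contra hcon
    push Not at hcon
    exact htop (Submodule.eq_top_iff'.2 hcon)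
  obtain ⟨l, hly, hl⟩ := Submodule.exists_le_ker_of_notMem hy
  have hlker : LinearMap.ker l = LinearMap.range (tw F E) := by
    symm
    refine Submodule.eq_of_le_of_finrank_le hl ?_
    have h3 := LinearMap.finrank_range_add_finrank_ker l
    have h4 : 1 ≤ Module.finrank F (LinearMap.range l) := by
      rw [Nat.one_le_iff_ne_zero, Ne, Submodule.finrank_eq_zero]
      intro h5
      apply hly
      have : l y ∈ LinearMap.range l := ⟨y, rfl⟩
      rw [h5] at this
      exact this
    omega
  -- `q u = l (u * fr u)`
  obtain ⟨a, ha⟩ := exists_not_fixed (F := F) (E := E) (by omega)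
  have key : ∃ u : E, fr F E 1 u ≠ u ∧ l (u * fr F E 1 u) = 0 := by
    by_cases hqa : l (a * fr F E 1 a) = 0
    · exact ⟨a, ha, hqa⟩
    let B : E →ₗ[F] F :=
      { toFun := fun v => l (a * fr F E 1 v + v * fr F E 1 a)
        map_add' := by
          intro v v'
          rw [← map_add, map_add (fr F E 1)]
          congr 1
          ring
        map_smul' := by
          intro c v
          rw [RingHom.id_apply, ← map_smul, map_smul (fr F E 1)]
          congr 1
          simp only [Algebra.smul_def]
          ring }
    have hB : 4 ≤ Module.finrank F (LinearMap.ker B) := by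
      have h3 := LinearMap.finrank_range_add_finrank_ker B
      have h4 : Module.finrank F (LinearMap.range B) ≤ 1 := by
        refine (Submodule.finrank_le _).trans ?_
        rw [Module.finrank_self]
      omega
    obtain ⟨v, hv, hv'⟩ : ∃ v ∈ LinearMap.ker B, v ∉ Submodule.span F {1, a} := by
      by_contra hcon
      push Not at hcon
      have h3 : Module.finrank F (LinearMap.ker B) ≤
          Module.finrank F (Submodule.span F ({1, a} : Set E)) := Submodule.finrank_mono hcon
      have h4 : Module.finrank F (Submodule.span F ({1, a} : Set E)) ≤ 2 := by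
        have h5 := finrank_span_finset_le_card (R := F) ({1, a} : Finset E)
        have h6 : ({1, a} : Finset E).card ≤ 2 := card_insert_le _ _
        simp only [coe_insert, coe_singleton] at h5
        exact h5.trans h6
      omega
    obtain ⟨x, hx⟩ := FiniteField.isSquare_of_char_two (F := F) (by
      rw [ringChar.eq_iff]
      have h3 : ringChar F ∣ 2 := ringChar.dvd (by exact_mod_cast h2)
      have h4 : ringChar F = 2 := by
        rcases (Nat.dvd_prime Nat.prime_two).1 h3 with h5 | h5
        · exfalso
          have h6 := ringChar.spec F 1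
          rw [h5] at h6
          exact one_ne_zero (α := F) (by simpa using h6.2 (dvd_refl 1))
        · exact h5
      rw [← h4]
      exact ringChar.charP F) (l (v * fr F E 1 v) / l (a * fr F E 1 a))
    refine ⟨algebraMap F E x * a + v, ?_, ?_⟩
    · intro h3
      obtain ⟨c, hc⟩ := exists_of_fixed h3
      apply hv'
      have h4 : v = c • (1 : E) + (-x) • a := by
        simp only [Algebra.smul_def, mul_one, map_neg]
        linear_combination hc
      rw [h4]
      exact Submodule.add_mem _ (Submodule.smul_mem _ _ (Submodule.subset_span (by simp)))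
        (Submodule.smul_mem _ _ (Submodule.subset_span (by simp)))
    · have h3 : (algebraMap F E x * a + v) * fr F E 1 (algebraMap F E x * a + v) =
          (x * x) • (a * fr F E 1 a) + x • (a * fr F E 1 v + v * fr F E 1 a) +
            v * fr F E 1 v := by
        rw [map_add, map_mul, AlgHom.commutes]
        simp only [Algebra.smul_def, map_mul]
        ring
      have h4 : l (a * fr F E 1 v + v * fr F E 1 a) = 0 := hv
      rw [h3, map_add, map_add, map_smul, map_smul, h4, smul_zero, add_zero, ← hx, smul_eq_mul,
        div_mul_cancel₀ _ hqa]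
      linear_combination l (v * fr F E 1 v) * h2
  obtain ⟨u, hu, hlu⟩ := key
  have h3 : algebraMap F E k * (u * fr F E 1 u) ∈ LinearMap.range (tw F E) := by
    rw [← hlker, LinearMap.mem_ker, ← Algebra.smul_def, map_smul, hlu, smul_zero]
  obtain ⟨w, hw⟩ := h3
  exact ⟨u, w, hu, hw⟩

theorem exists_uw (hodd : Odd (Module.finrank F E)) (hm : 5 ≤ Module.finrank F E) (k : F) :
    ∃ u w : E, fr F E 1 u ≠ u ∧ w + fr F E 1 w = -(algebraMap F E k * (u * fr F E 1 u)) := by
  by_cases h2 : (2 : F) = 0
  · obtain ⟨u, w, hu, hw⟩ := exists_uw_two (E := E) hm h2 (-k)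
    exact ⟨u, w, hu, by rw [hw, map_neg]; ring⟩
  · obtain ⟨u, hu⟩ := exists_not_fixed (F := F) (E := E) (by omega)
    have h2E : (2 : E) ≠ 0 := by
      intro h
      apply h2
      apply (algebraMap F E).injective
      rw [map_ofNat, map_zero]
      exact h
    obtain ⟨w, hw⟩ := exists_uw_odd hodd h2E (-(algebraMap F E k * (u * fr F E 1 u)))
    exact ⟨u, w, hu, hw⟩

/-- the five points -/
theorem exists_pentad (hF : 3 ≤ Fintype.card F) (hodd : Odd (Module.finrank F E))
    (hm : 5 ≤ Module.finrank F E) : ∃ (a : Fin 5 → F) (z : Fin 5 → E), ∑ i, a i = 0 ∧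
      ∑ i, a i • z i = 0 ∧ ∑ i, a i • (z i * fr F E 1 (z i)) = 0 ∧
        ∑ i, a i • (z i * z i) ≠ 0 := by
  obtain ⟨b, hb, hb'⟩ := exists_beta hF
  obtain ⟨u, w, hu, hw⟩ := exists_uw (E := E) hodd hm (b * (1 + b))
  set B : E := algebraMap F E b with hB
  have hBf : fr F E 1 B = B := AlgHom.commutes _ _
  have hk : algebraMap F E (b * (1 + b)) = B * (1 + B) := by
    rw [map_mul, map_add, map_one]
  rw [hk] at hw
  refine ⟨![1, -1, b, 1, -(1 + b)], ![w - B * u, w - B * u - 1, u, -1 - B * u, 0], ?_, ?_, ?_,
    ?_⟩
  · simp [Fin.sum_univ_five]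
    ring
  · simp only [Fin.sum_univ_five, Algebra.smul_def]
    simp only [Matrix.cons_val_zero, Matrix.cons_val_one, Matrix.cons_val, map_one, map_neg,
      map_add, ← hB]
    ring
  · simp only [Fin.sum_univ_five, Algebra.smul_def]
    simp only [Matrix.cons_val_zero, Matrix.cons_val_one, Matrix.cons_val, map_one, map_neg,
      map_sub, map_mul, map_zero, hBf, map_add, ← hB]
    linear_combination hw
  · intro hs
    simp only [Fin.sum_univ_five, Algebra.smul_def] at hs
    simp only [Matrix.cons_val_zero, Matrix.cons_val_one, Matrix.cons_val, map_one, map_neg,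
      map_add, ← hB] at hs
    have h1 : 2 * w + B * (1 + B) * (u * u) = 0 := by linear_combination hs
    have h2 : 2 * fr F E 1 w + B * (1 + B) * (fr F E 1 u * fr F E 1 u) = 0 := by
      have := congrArg (fr F E 1) h1
      simpa only [map_add, map_mul, map_ofNat, map_one, hBf, map_zero] using this
    have h3 : B * (1 + B) * ((u - fr F E 1 u) * (u - fr F E 1 u)) = 0 := by
      linear_combination h1 + h2 - 2 * hw
    have hB0 : B ≠ 0 := by
      intro h
      apply hb
      apply (algebraMap F E).injective
      rw [map_zero]
      exact h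
    have hB1 : 1 + B ≠ 0 := by
      intro h
      apply hb'
      apply (algebraMap F E).injective
      rw [map_zero, map_add, map_one]
      exact h
    have h4 := (mul_eq_zero.1 h3).resolve_left (mul_ne_zero hB0 hB1)
    have h5 := mul_self_eq_zero.1 h4
    exact hu (by linear_combination -h5)

end Pool.Agent.LTCF
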