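import Pool.Agent.LTCF.Neg
import Pool.Agent.LTCF.Pentad

/-!
# The bad words are far from the code
-/

set_option autoImplicit false

namespace Pool.Agent.LTCF

open Finset Pool.Agent.LTC

variable {F K : Type} [Field F] [Fintype F] [DecidableEq F] [Field K] [Fintype K] [Algebra F K]
variable {t : ℕ} {n e : Fin t → ℕ}

omit [Fintype F] in
/-- a linear function which is not zero is not zero on half of the space -/
theorem card_psi (ψ : K →ₗ[F] F) (hψ : ∃ x, ψ x ≠ 0) :
    Fintype.card K ≤ 2 * (univ.filter fun x => ψ x ≠ 0).card := by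
  classical
  obtain ⟨x₀, h₀⟩ := hψ
  have htot := card_filter_add_card_filter_not (s := (univ : Finset K)) (fun x => ψ x = 0)
  rw [card_univ] at htot
  have h1 : (univ.filter fun x => ψ x = 0).card ≤ (univ.filter fun x => ¬ ψ x = 0).card := by
    refine card_le_card_of_injOn (fun x => x + x₀) ?_ ?_
    · intro x hx
      simp only [coe_filter, mem_univ, true_and, Set.mem_ofPred_eq] at hx ⊢
      rw [map_add, hx, zero_add]
      exact h₀
    · intro x _ y _ hxy
      exact add_right_cancel hxy
  have h2 : (univ.filter fun x => ψ x ≠ 0).card = (univ.filter fun x => ¬ ψ x = 0).card := rfl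
  omega

omit [Fintype F] in
theorem exists_scale (ψ : K →ₗ[F] F) (hψ : ∃ x, ψ x ≠ 0) (h : K → K)
    (hh : ∀ x, x ≠ 0 → h x ≠ 0) :
    ∃ c : K, Fintype.card K ≤ 4 * (univ.filter fun x => ψ (c * h x) ≠ 0).card := by
  classical
  by_contra hcon
  push Not at hcon
  set N := Fintype.card K with hN
  have hN2 : 2 ≤ N := Fintype.one_lt_card
  have h1 : ∑ c : K, (univ.filter fun x => ψ (c * h x) ≠ 0).card =
      ∑ x : K, (univ.filter fun c => ψ (c * h x) ≠ 0).card := by
    simp only [card_filter]
    exact sum_comm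
  have h2 : ∀ x ∈ univ.erase (0 : K), N ≤ 2 * (univ.filter fun c => ψ (c * h x) ≠ 0).card := by
    intro x hx
    have hx0 := hh x (ne_of_mem_erase hx)
    refine (card_psi ψ hψ).trans (Nat.mul_le_mul_left 2 (le_of_eq ?_))
    refine card_bij' (fun y _ => y * (h x)⁻¹) (fun c _ => c * h x) ?_ ?_ ?_ ?_
    · intro y hy
      simp only [mem_filter, mem_univ, true_and] at hy ⊢
      rwa [inv_mul_cancel_right₀ hx0]
    · intro c hc
      simp only [mem_filter, mem_univ, true_and] at hc ⊢
      exact hc
    · intro y _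
      exact inv_mul_cancel_right₀ hx0 y
    · intro c _
      exact mul_inv_cancel_right₀ hx0 c
  have h3 : (N - 1) * N ≤ 2 * ∑ c : K, (univ.filter fun x => ψ (c * h x) ≠ 0).card := by
    rw [h1]
    calc (N - 1) * N = ∑ _x ∈ univ.erase (0 : K), N := by
          rw [sum_const, card_erase_of_mem (mem_univ _), card_univ, smul_eq_mul]
      _ ≤ ∑ x ∈ univ.erase (0 : K), 2 * (univ.filter fun c => ψ (c * h x) ≠ 0).card :=
          sum_le_sum h2
      _ ≤ ∑ x : K, 2 * (univ.filter fun c => ψ (c * h x) ≠ 0).card :=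
          sum_le_sum_of_subset (subset_univ _)
      _ = _ := by rw [mul_sum]
  have h4 : 4 * ∑ c : K, (univ.filter fun x => ψ (c * h x) ≠ 0).card + N ≤ N * N := by
    rw [mul_sum]
    calc ∑ c : K, 4 * (univ.filter fun x => ψ (c * h x) ≠ 0).card + N
        = ∑ c : K, (4 * (univ.filter fun x => ψ (c * h x) ≠ 0).card + 1) := by
          rw [sum_add_distrib, sum_const, card_univ, smul_eq_mul, mul_one]
      _ ≤ ∑ _c : K, N := sum_le_sum fun c _ => hcon c
      _ = N * N := by rw [sum_const, card_univ, smul_eq_mul]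
  obtain ⟨M, hM⟩ : ∃ M, N = M + 2 := ⟨N - 2, by omega⟩
  rw [hM] at h3 h4
  have h5 : M + 2 - 1 = M + 1 := rfl
  rw [h5] at h3
  nlinarith

omit [DecidableEq F] [Fintype K] in
theorem fr_mod_of_fixed {m : ℕ} {z : K} (h : fr F K m z = z) (j : ℕ) :
    fr F K (j % m) z = fr F K j z := by
  have h1 : ∀ l : ℕ, fr F K (m * l) z = z := by
    intro l
    induction l with
    | zero => rw [mul_zero, fr_zero]
    | succ l ih => rw [fr_mul_succ, h, ih]
  conv_rhs => rw [← Nat.mod_add_div j m, fr_add, h1]

/-- five points in the subfield of degree `n k` -/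
structure Pent (F K : Type) [Field F] [Fintype F] [Field K] [Algebra F K] (m : ℕ)
    (a : Fin 5 → F) (z : Fin 5 → K) : Prop where
  h0 : ∑ i, a i = 0
  h1 : ∑ i, a i • z i = 0
  h2 : ∑ i, a i • (z i * fr F K 1 (z i)) = 0
  h3 : ∑ i, a i • (z i * z i) ≠ 0
  fixed : ∀ i, fr F K m (z i) = z i

theorem Pent.word {m : ℕ} {a : Fin 5 → F} {z : Fin 5 → K} (h : Pent F K m a z) {k : Fin t}
    (hk : n k = m) (y l : K) :
    word (fun j => y + l * z j) a ∈ W5 F K n := by
  have e1 : ∀ l' : K, ∑ j, a j • (l' * z j) = 0 := by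
    intro l'
    have : ∑ j, a j • (l' * z j) = l' * ∑ j, a j • z j := by
      rw [mul_sum]
      exact sum_congr rfl fun j _ => (mul_smul_comm _ _ _).symm
    rw [this, h.h1, mul_zero]
  have e0 : ∀ c : K, ∑ j, a j • c = 0 := by
    intro c
    rw [← sum_smul, h.h0, zero_smul]
  refine word_mem_W5 h.h0 ?_ fun j hj => ?_
  · simp only [smul_add, sum_add_distrib, e1, e0, add_zero]
  · have e2 : ∑ i, a i • (z i * fr F K j (z i)) = 0 := by
      rcases hj.1 k (mem_univ k) with h4 | h4
      · rw [hk] at h4
        have h5 : ∀ i, fr F K j (z i) = fr F K 1 (z i) := by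
          intro i
          rw [← fr_mod_of_fixed (h.fixed i), h4]
        simp only [h5]
        exact h.h2
      · rw [hk] at h4
        have h5 : ∀ i, fr F K (j + 1) (z i) = z i := by
          intro i
          rw [← fr_mod_of_fixed (h.fixed i), h4, fr_zero]
        have h6 := congrArg (fr F K j) h.h2
        rw [map_sum, map_zero] at h6
        rw [← h6]
        refine sum_congr rfl fun i _ => ?_
        rw [map_smul, map_mul, ← fr_add, h5, mul_comm]
    have e3 : ∑ i, a i • fr F K j (z i) = 0 := by
      have h6 := congrArg (fr F K j) h.h1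
      rw [map_sum, map_zero] at h6
      simpa only [map_smul] using h6
    have e4 : ∀ i, a i • ((y + l * z i) * fr F K j (y + l * z i)) =
        a i • (y * fr F K j y) + (y * fr F K j l) * (a i • fr F K j (z i)) +
          (fr F K j y) * (a i • (l * z i)) + (l * fr F K j l) * (a i • (z i * fr F K j (z i))) := by
      intro i
      rw [map_add, map_mul]
      simp only [Algebra.smul_def]
      ring
    simp only [e4, sum_add_distrib, ← mul_sum, e0, e1, e2, e3, mul_zero, add_zero]

omit [DecidableEq F] [Fintype K] in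
theorem Pent.sum_rr {m : ℕ} {a : Fin 5 → F} {z : Fin 5 → K} (h : Pent F K m a z) {g : ℕ}
    (hg : g % m = 0) (ψ : K →ₗ[F] F) (c y l : K) :
    ∑ i, a i * ψ (c * ((y + l * z i) * fr F K g (y + l * z i))) =
      ψ (c * ((l * fr F K g l) * ∑ i, a i • (z i * z i))) := by
  have e1 : ∀ l' : K, ∑ j, a j • (l' * z j) = 0 := by
    intro l'
    have : ∑ j, a j • (l' * z j) = l' * ∑ j, a j • z j := by
      rw [mul_sum]
      exact sum_congr rfl fun j _ => (mul_smul_comm _ _ _).symm
    rw [this, h.h1, mul_zero]
  have e0 : ∀ c : K, ∑ j, a j • c = 0 := by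
    intro c
    rw [← sum_smul, h.h0, zero_smul]
  have h5 : ∀ i, fr F K g (z i) = z i := by
    intro i
    rw [← fr_mod_of_fixed (h.fixed i), hg, fr_zero]
  have e4 : ∀ i, a i • (c * ((y + l * z i) * fr F K g (y + l * z i))) =
      a i • (c * (y * fr F K g y)) + c * (y * fr F K g l) * (a i • z i) +
        c * (fr F K g y) * (a i • (l * z i)) +
          c * (l * fr F K g l) * (a i • (z i * z i)) := by
    intro i
    rw [map_add, map_mul, h5]
    simp only [Algebra.smul_def]
    ring
  have e5 : ∑ i, a i * ψ (c * ((y + l * z i) * fr F K g (y + l * z i))) =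
      ψ (∑ i, a i • (c * ((y + l * z i) * fr F K g (y + l * z i)))) := by
    rw [map_sum]
    exact sum_congr rfl fun i _ => by rw [map_smul, smul_eq_mul]
  rw [e5]
  simp only [e4, sum_add_distrib, ← mul_sum, e0, e1, h.h1, mul_zero, zero_add]
  rw [mul_assoc]

theorem card_far {m : ℕ} {a : Fin 5 → F} {z : Fin 5 → K} (h : Pent F K m a z) {k : Fin t}
    (hk : n k = m) (hg : gg e k % m = 0) (ψ : K →ₗ[F] F) (c₀ : K)
    (hc₀ : Fintype.card K ≤ 4 * (univ.filter fun l =>
      ψ (c₀ * ((l * fr F K (gg e k) l) * ∑ i, a i • (z i * z i))) ≠ 0).card)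
    {c : K → F} (hc : c ∈ code5 F K n) :
    Fintype.card K ≤ 20 * (univ.filter fun x => c x ≠ rr ψ c₀ e k x).card := by
  classical
  set g : K → F := fun x => rr ψ c₀ e k x - c x with hgdef
  have hgsum : ∀ y l : K, ∑ j, a j * g (y + l * z j) =
      ψ (c₀ * ((l * fr F K (gg e k) l) * ∑ i, a i • (z i * z i))) := by
    intro y l
    have h6 := sum_code5 hc (h.word (n := n) hk y l)
    rw [sum_word_mul] at h6
    simp only [hgdef, mul_sub, Finset.sum_sub_distrib, h6, sub_zero]
    exact h.sum_rr hg ψ c₀ y l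
  have hgne : (univ.filter fun x => c x ≠ rr ψ c₀ e k x) = univ.filter fun x => g x ≠ 0 := by
    ext x
    simp only [mem_filter, mem_univ, true_and, hgdef, ne_eq, sub_eq_zero]
    exact not_congr eq_comm
  rw [hgne]
  set L := univ.filter fun l : K =>
    ψ (c₀ * ((l * fr F K (gg e k) l) * ∑ i, a i • (z i * z i))) ≠ 0 with hL
  set B := univ.filter fun x => g x ≠ 0 with hB
  -- double counting
  have hcount : (univ ×ˢ L : Finset (K × K)).card ≤
      ∑ j : Fin 5, (univ.filter fun p : K × K => g (p.1 + p.2 * z j) ≠ 0).card := by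
    refine le_trans (card_le_card (t := (univ : Finset (Fin 5)).biUnion fun j =>
      univ.filter fun p : K × K => g (p.1 + p.2 * z j) ≠ 0) ?_) card_biUnion_le
    intro p hp
    have h6 : ψ (c₀ * ((p.2 * fr F K (gg e k) p.2) * ∑ i, a i • (z i * z i))) ≠ 0 := by
      have := (mem_product.1 hp).2
      rw [hL] at this
      exact (mem_filter.1 this).2
    rw [← hgsum p.1 p.2] at h6
    obtain ⟨j, -, hj⟩ := Finset.exists_ne_zero_of_sum_ne_zero h6
    simp only [mem_biUnion, mem_univ, true_and, mem_filter]
    exact ⟨j, right_ne_zero_of_mul hj⟩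
  have hfib : ∀ j : Fin 5, (univ.filter fun p : K × K => g (p.1 + p.2 * z j) ≠ 0).card =
      (B ×ˢ (univ : Finset K)).card := by
    intro j
    refine card_bij' (fun p _ => (p.1 + p.2 * z j, p.2))
      (fun p _ => (p.1 - p.2 * z j, p.2)) ?_ ?_ ?_ ?_
    · intro p hp
      simp only [mem_filter, mem_univ, true_and] at hp
      simp only [mem_product, hB, mem_filter, mem_univ, true_and, and_true]
      exact hp
    · intro p hp
      simp only [mem_product, hB, mem_filter, mem_univ, true_and, and_true] at hp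
      simp only [mem_filter, mem_univ, true_and, sub_add_cancel]
      exact hp
    · intro p _
      simp
    · intro p _
      simp
  simp only [hfib, card_product, card_univ, sum_const, Fintype.card_fin, smul_eq_mul] at hcount
  have hK : 0 < Fintype.card K := Fintype.card_pos
  have h6 : Fintype.card K * Fintype.card K ≤ Fintype.card K * (20 * B.card) := by
    calc Fintype.card K * Fintype.card K ≤ Fintype.card K * (4 * L.card) :=
          Nat.mul_le_mul_left _ hc₀
      _ = 4 * (Fintype.card K * L.card) := by ring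
      _ ≤ 4 * (5 * (B.card * Fintype.card K)) := Nat.mul_le_mul_left _ hcount
      _ = _ := by ring
  exact Nat.le_of_mul_le_mul_left h6 hK

end Pool.Agent.LTCF
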