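import Pool.Agent.LTC.Negative

/-!
# The powers of the Frobenius map of an extension of a finite field
-/

set_option autoImplicit false

namespace Pool.Agent.LTCF

open Finset Pool.Agent.LTC

variable (F K : Type) [Field F] [Fintype F] [Field K] [Algebra F K]

/-- the power `x ↦ x ^ (|F| ^ j)` of the Frobenius map -/
noncomputable def fr (j : ℕ) : K →ₐ[F] K := FiniteField.frobeniusAlgHom F K ^ j

variable {F K}

theorem fr_zero (x : K) : fr F K 0 x = x := by
  rw [fr, pow_zero, AlgHom.one_apply]

theorem fr_add (a b : ℕ) (x : K) : fr F K (a + b) x = fr F K a (fr F K b x) := by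
  rw [fr, pow_add, AlgHom.mul_apply]
  rfl

theorem fr_comm (a b : ℕ) (x : K) : fr F K a (fr F K b x) = fr F K b (fr F K a x) := by
  rw [← fr_add, ← fr_add, add_comm]

theorem fr_one (x : K) : fr F K 1 x = x ^ Fintype.card F := by
  rw [fr, pow_one, FiniteField.coe_frobeniusAlgHom]

theorem fr_mul_succ (a b : ℕ) (x : K) :
    fr F K (a * (b + 1)) x = fr F K (a * b) (fr F K a x) := by
  rw [mul_add, mul_one, fr_add]

theorem fr_mod [Finite K] (a : ℕ) (x : K) :
    fr F K (a % Module.finrank F K) x = fr F K a x := by
  have h : fr F K (a % Module.finrank F K) = fr F K a := by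
    rw [fr, fr, ← FiniteField.orderOf_frobeniusAlgHom F K, pow_mod_orderOf]
  rw [h]

theorem fr_modEq [Finite K] {a b : ℕ} (h : a ≡ b [MOD Module.finrank F K]) (x : K) :
    fr F K a x = fr F K b x := by
  rw [← fr_mod a, ← fr_mod b, h]

theorem fr_injective (j : ℕ) : Function.Injective (fr F K j) := (fr F K j).injective

/-- the maps between extensions commute with the Frobenius map -/
theorem map_fr {E : Type} [Field E] [Algebra F E] (φ : E →ₐ[F] K) (j : ℕ) (x : E) :
    φ (fr F E j x) = fr F K j (φ x) := by
  induction j generalizing x with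
  | zero => rw [fr_zero, fr_zero]
  | succ j ih => rw [add_comm, fr_add, fr_add, ← ih, fr_one, fr_one, map_pow]

/-- the fixed elements of the Frobenius map -/
theorem exists_of_fixed {x : K} (h : fr F K 1 x = x) : ∃ c : F, x = algebraMap F K c := by
  classical
  rw [fr_one] at h
  have h1 : (Polynomial.X ^ Fintype.card F - Polynomial.X : Polynomial K) ≠ 0 :=
    FiniteField.X_pow_card_sub_X_ne_zero K Fintype.one_lt_card
  have h2 : univ.image (algebraMap F K) =
      (Polynomial.X ^ Fintype.card F - Polynomial.X : Polynomial K).roots.toFinset := by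
    refine eq_of_subset_of_card_le ?_ ?_
    · intro y hy
      obtain ⟨c, -, rfl⟩ := mem_image.1 hy
      rw [Multiset.mem_toFinset, Polynomial.mem_roots h1, Polynomial.IsRoot.def,
        Polynomial.eval_sub, Polynomial.eval_pow, Polynomial.eval_X, ← map_pow,
        FiniteField.pow_card, sub_self]
    · rw [card_image_of_injective _ (algebraMap F K).injective, card_univ]
      refine (Multiset.toFinset_card_le _).trans ?_
      refine (Polynomial.card_roots' _).trans ?_
      rw [FiniteField.X_pow_card_sub_X_natDegree_eq K Fintype.one_lt_card]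
  have h3 : x ∈ univ.image (algebraMap F K) := by
    rw [h2, Multiset.mem_toFinset, Polynomial.mem_roots h1, Polynomial.IsRoot.def,
      Polynomial.eval_sub, Polynomial.eval_pow, Polynomial.eval_X, h, sub_self]
  obtain ⟨c, -, hc⟩ := mem_image.1 h3
  exact ⟨c, hc.symm⟩

/-- an element with `fr 2 x = x` is fixed if the degree is odd -/
theorem fixed_of_fixed_two [Finite K] (hodd : Odd (Module.finrank F K)) {x : K}
    (h : fr F K 2 x = x) : fr F K 1 x = x := by
  have h1 : ∀ m : ℕ, fr F K (2 * m) x = x := by
    intro m
    induction m with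
    | zero => rw [mul_zero, fr_zero]
    | succ m ih => rw [fr_mul_succ, h, ih]
  obtain ⟨m, hm⟩ := hodd
  have h2 : 2 * (m + 1) ≡ 1 [MOD Module.finrank F K] := by
    have : 2 * (m + 1) = Module.finrank F K + 1 := by omega
    rw [this]
    exact Nat.add_modEq_left
  rw [← fr_modEq h2 x, h1]

end Pool.Agent.LTCF
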