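import Pool.Agent.LTCF.Tests

/-!
# Affine invariant codes with dual words of weight at most four are testable
-/

set_option autoImplicit false

namespace Pool.Agent.LTCF

open Finset Pool.Agent.LTC

variable {F K : Type} [Field F] [Field K] [Algebra F K] {C : Submodule F (K → F)}

section Groups

omit [Field F] [Algebra F K] in
/-- A set of units of a finite field which is closed under multiplication is cyclic. -/
theorem exists_gen [Finite K] (P : Kˣ → Prop) (h1 : P 1) (hmul : ∀ a b, P a → P b → P (a * b)) :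
    ∃ τ, P τ ∧ ∀ τ', P τ' → ∃ k : ℕ, τ' = τ ^ k := by
  have hpow : ∀ a, P a → ∀ k : ℕ, P (a ^ k) := by
    intro a ha k
    induction k with
    | zero => rw [pow_zero]; exact h1
    | succ k ih => rw [pow_succ]; exact hmul _ _ ih ha
  let Γ : Subgroup Kˣ :=
    { carrier := {a | P a}
      mul_mem' := fun {a b} ha hb => hmul a b ha hb
      one_mem' := h1
      inv_mem' := by
        intro a ha
        have h2 : a⁻¹ = a ^ (orderOf a - 1) := by
          have h3 : 0 < orderOf a := orderOf_pos a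
          rw [inv_eq_iff_mul_eq_one, ← pow_succ', Nat.sub_add_cancel h3, pow_orderOf_eq_one]
        change P a⁻¹
        rw [h2]
        exact hpow a ha _ }
  obtain ⟨τ, hτ⟩ := IsCyclic.exists_monoid_generator (α := Γ)
  refine ⟨τ, τ.2, fun τ' hτ' => ?_⟩
  obtain ⟨k, hk⟩ := hτ ⟨τ', hτ'⟩
  exact ⟨k, by simpa using (congrArg Subtype.val hk).symm⟩

theorem Sim.one (e e' : F) (f : K → F) : Sim e e' f 1 1 := by
  intro x l
  rw [one_mul, one_mul]

theorem Sim.mul {e e' : F} {f : K → F} {τ τ' : K} {c c' : F} (h : Sim e e' f τ c)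
    (h' : Sim e e' f τ' c') : Sim e e' f (τ * τ') (c * c') := by
  intro x l
  rw [mul_assoc, h, h', mul_assoc]

theorem Sim.pow {e e' : F} {f : K → F} {τ : K} {c : F} (h : Sim e e' f τ c) (k : ℕ) :
    Sim e e' f (τ ^ k) (c ^ k) := by
  induction k with
  | zero => rw [pow_zero, pow_zero]; exact Sim.one e e' f
  | succ k ih => rw [pow_succ, pow_succ]; exact ih.mul h

omit [Algebra F K] in
theorem Adj.one (f : K → F) : Adj f 1 := by
  intro x u v
  rw [one_mul, one_mul]

omit [Algebra F K] in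
theorem Adj.mul {f : K → F} {t t' : K} (h : Adj f t) (h' : Adj f t') : Adj f (t * t') := by
  intro x u v
  rw [mul_assoc, h, h', ← mul_assoc, mul_comm t' t]

omit [Algebra F K] in
theorem Adj.pow {f : K → F} {t : K} (h : Adj f t) (k : ℕ) : Adj f (t ^ k) := by
  induction k with
  | zero => rw [pow_zero]; exact Adj.one f
  | succ k ih => rw [pow_succ]; exact ih.mul h

/-- one similitude is enough -/
theorem exists_simTest [Finite K] {e e' : F} (hd : e' - e' ^ 2 ≠ 0)
    (hq : ∃ f ∈ C, ∃ x l, qq e e' f x l ≠ 0) :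
    ∃ T : LTest F K, @Fintype.card T.J T.fin ≤ 8 ∧ (∀ f ∈ C, ∀ x y, T.Pass f x y) ∧
      ∀ g : K → F, (∀ x y, T.Pass g x y) → ∀ (τ : K) (c : F), τ ≠ 0 →
        (∀ f ∈ C, Sim e e' f τ c) → Sim e e' g τ c := by
  obtain ⟨τ, ⟨c, hc⟩, hgen⟩ := exists_gen (K := K)
    (fun τ => ∃ c : F, ∀ f ∈ C, Sim e e' f (τ : K) c)
    ⟨1, fun f _ => by rw [Units.val_one]; exact Sim.one e e' f⟩ (by
      rintro a b ⟨c, hc⟩ ⟨d, hd⟩
      exact ⟨c * d, fun f hf => by rw [Units.val_mul]; exact (hc f hf).mul (hd f hf)⟩)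
  refine ⟨simTest e e' τ c, ?_, ?_, ?_⟩
  · rw [simTest, relTest_card]
    norm_num
  · intro f hf
    exact (simTest_pass hd (τ : K) c f).2 (hc f hf)
  · intro g hg τ' c' hτ' hc'
    have h1 := (simTest_pass hd (τ : K) c g).1 hg
    obtain ⟨k, hk⟩ := hgen (Units.mk0 τ' hτ') ⟨c', by
      intro f hf
      exact hc' f hf⟩
    have h2 : τ' = (τ : K) ^ k := by
      have := congrArg Units.val hk
      simpa using this
    obtain ⟨f, hf, x, l, hne⟩ := hq
    have h3 : c' = c ^ k := by
      have h4 := (hc f hf).pow k x l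
      rw [← h2, hc' f hf x l] at h4
      exact mul_right_cancel₀ hne h4
    rw [h2, h3]
    exact h1.pow k

omit [Algebra F K] in
/-- one self-adjoint element is enough -/
theorem exists_adjTest [Finite K] (C : Submodule F (K → F)) :
    ∃ T : LTest F K, @Fintype.card T.J T.fin ≤ 8 ∧ (∀ f ∈ C, ∀ x y, T.Pass f x y) ∧
      ∀ g : K → F, (∀ x y, T.Pass g x y) → ∀ t : K, t ≠ 0 → (∀ f ∈ C, Adj f t) →
        ∀ k : ℕ, Adj g (t ^ k) := by
  obtain ⟨τ, hτ, hgen⟩ := exists_gen (K := K) (fun τ => ∀ f ∈ C, Adj f (τ : K))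
    (fun f _ => by rw [Units.val_one]; exact Adj.one f)
    (fun a b ha hb f hf => by rw [Units.val_mul]; exact (ha f hf).mul (hb f hf))
  refine ⟨adjTest F (τ : K), ?_, ?_, ?_⟩
  · rw [adjTest, relTest_card]
    norm_num
  · intro f hf
    exact (adjTest_pass (τ : K) f).2 (hτ f hf)
  · intro g hg t ht hadj k
    have h1 := (adjTest_pass (τ : K) g).1 hg
    obtain ⟨j, hj⟩ := hgen (Units.mk0 t ht) hadj
    have h2 : t = (τ : K) ^ j := by
      have := congrArg Units.val hj
      simpa using this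
    rw [h2]
    exact (h1.pow j).pow k

end Groups

variable [Fintype F] {p : ℕ} [Fact p.Prime] [Algebra (ZMod p) F] {σ : F ≃ₐ[ZMod p] F}

theorem Quad.exists_qq (h : Quad p C σ) {e : F} (he : e ∈ FA p C) (he0 : e ≠ 0) (he1 : e ≠ 1)
    (hq : ∃ c ∈ C, ∃ x u v, bb c x u v ≠ 0) : ∃ f ∈ C, ∃ x l, qq e (σ e) f x l ≠ 0 := by
  by_contra hcon
  push Not at hcon
  obtain ⟨c, hc, x, u, v, hne⟩ := hq
  have h1 := h.qq_add he he0 he1 (h.hat hc) x u v
  rw [hcon c hc, hcon c hc, hcon c hc, add_zero, zero_add] at h1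
  exact hne h1.symm

/-- The tests are enough: a function which passes them is orthogonal to the dual words. -/
theorem Quad.W_eq_zero [Fintype K] (h : Quad p C σ) {g : K → F} (hg : Hat C g)
    (hsim : (∃ e ∈ FA p C, e ≠ 0 ∧ e ≠ 1) → ∃ e ∈ FA p C, e ≠ 0 ∧ e ≠ 1 ∧
      ∀ (τ : K) (c : F), τ ≠ 0 → (∀ f ∈ C, Sim e (σ e) f τ c) → Sim e (σ e) g τ c)
    (hadj : ∀ t : K, t ≠ 0 → (∀ f ∈ C, Adj f t) → ∀ k : ℕ, Adj g (t ^ k))
    {α0 α1 α2 : F} {t0 t1 t2 : K} (w : Word C α0 α1 α2 t0 t1 t2) (x : K) :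
    W α0 α1 α2 t0 t1 t2 g x = 0 := by
  rcases w.cases h.mem with ⟨μ, s0, s1, s2, h0, h1, h2⟩ | ⟨β0, hβ0, β1, hβ1, h0, h1, ht⟩
  · exact w.line h0 h1 h2 hg x
  subst h0 h1
  -- the case of the self-adjoint elements
  have hsum : (2 : F) = 0 → β0 = -1 → β1 = -1 →
      W (α2 * σ β0) (α2 * σ β1) α2 t0 t1 t2 g x = 0 := by
    intro h2 hb0 hb1
    have e1 : t2 = t0 + t1 := by
      rw [hb0, hb1, neg_smul, neg_smul, one_smul, one_smul] at ht
      linear_combination ht
    have e2 : α2 * σ (-1) = -α2 := by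
      rw [map_neg, map_one, mul_neg, mul_one]
    rw [hb0, hb1, e1, e2] at w ⊢
    have h2K : (2 : K) = 0 := by
      have h3 := congrArg (algebraMap F K) h2
      rwa [map_ofNat, map_zero] at h3
    have : CharP K 2 := CharTwo.of_one_ne_zero_of_two_eq_zero one_ne_zero h2K
    have ht0 : t1 / t0 ≠ 0 := div_ne_zero w.n1 w.n0
    have heven : Even (Fintype.card K) := by
      rw [Nat.even_iff]
      exact FiniteField.even_card_of_char_two (by rw [ringChar.eq K 2])
    obtain ⟨m, hm⟩ := heven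
    refine W_of_adj (s := (t1 / t0) ^ m) h2 h2K w.n0 ?_
      (hadj _ ht0 (fun f hf => h.adj_of_sum w h2 hf) m) x
    rw [← pow_add, ← hm, FiniteField.pow_card]
  by_cases hE : ∃ e ∈ FA p C, e ≠ 0 ∧ e ≠ 1
  · obtain ⟨e, he, he0, he1, hs⟩ := hsim hE
    by_cases hb0 : 1 + β0 = 0
    · by_cases hb1 : 1 + β1 = 0
      · have hb0' : β0 = -1 := by linear_combination hb0
        have hb1' : β1 = -1 := by linear_combination hb1
        by_cases h2 : (2 : F) = 0
        · exact hsum h2 hb0' hb1'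
        · have e1 : t2 = t0 + t1 := by
            rw [hb0', hb1', neg_smul, neg_smul, one_smul, one_smul] at ht
            linear_combination ht
          have e2 : α2 * σ (-1) = -α2 := by
            rw [map_neg, map_one, mul_neg, mul_one]
          rw [hb0', hb1', e1, e2] at w ⊢
          obtain ⟨τ, c, hτ, hC, hW⟩ := h.sim_of_sum he he0 he1 w h2
          exact hW g hg (hs τ c hτ hC) x
      · have ht' : β1 • t1 + β0 • t0 + t2 = 0 := by
          rw [add_comm (β1 • t1)]
          exact ht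
        rw [W_swap]
        rcases h.sim_of_word he he0 he1 hβ1 hβ0 ht' w.swap hb1 with hW | ⟨τ, c, hτ, hC, hW⟩
        · exact hW g hg x
        · exact hW g hg (hs τ c hτ hC) x
    · rcases h.sim_of_word he he0 he1 hβ0 hβ1 ht w hb0 with hW | ⟨τ, c, hτ, hC, hW⟩
      · exact hW g hg x
      · exact hW g hg (hs τ c hτ hC) x
  · push Not at hE
    have h2 : (2 : F) = 0 := by
      by_contra h2
      have h3 := hE 2 (by
        rw [← one_add_one_eq_two]
        exact (FA p C).add_mem (FA p C).one_mem (FA p C).one_mem) h2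
      apply one_ne_zero (α := F)
      linear_combination h3
    have hβ : ∀ β ∈ FA p C, σ β ≠ 0 → β = -1 := by
      intro β hβ hne
      have h3 := hE β hβ (fun h0 => hne (by rw [h0, map_zero]))
      rw [h3]
      linear_combination h2
    exact hsum h2 (hβ β0 hβ0 (right_ne_zero_of_mul w.a0)) (hβ β1 hβ1 (right_ne_zero_of_mul w.a1))

/-- codes of degree two -/
theorem testable_of_quad [Fintype K] [DecidableEq F] (hC : AffineInvariant C)
    (h1 : (fun _ => 1) ∈ C) (hspan : Submodule.span F (lowWeightDual C 4) = dualCode C)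
    (hdd : ∀ c ∈ C, ∀ x a b d, dd c x a b d = 0) (hq : ∃ c ∈ C, ∃ x u v, bb c x u v ≠ 0) :
    LocallyTestable C (Fintype.card F ^ 2 + 8)
      (1 / (2000 * ((Fintype.card F ^ 2 + 8 : ℕ) : ℝ) * ((3 : ℕ) + 1))) := by
  obtain ⟨p, hp⟩ := CharP.exists F
  have hprime : p.Prime := CharP.char_is_prime F p
  have : Fact p.Prime := ⟨hprime⟩
  let _ : Algebra (ZMod p) F := ZMod.algebra F p
  -- there is an additive word
  obtain ⟨σ, hσ⟩ : ∃ σ : F ≃ₐ[ZMod p] F, σ ∈ AA p C := by
    obtain ⟨c, hc, x, u, v, hne⟩ := hq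
    by_contra hcon
    push Not at hcon
    apply hne
    have h2 := C.sub_mem (hC.base h1 hc (x + u)) (hC.base h1 hc x)
    have h3 : ((fun y => c (x + u + y) - c (x + u)) - fun y => c (x + y) - c x) =
        fun v => bb c x u v := by
      funext v
      simp only [Pi.sub_apply, bb]
      ring
    rw [h3] at h2
    have hadd : ∀ v w, bb c x u (v + w) = bb c x u v + bb c x u w :=
      fun v w => bb_add_right (hdd c hc) x u v w
    rw [← sum_proj p (fun v => bb c x u v) hadd v]
    exact sum_eq_zero fun σ _ => proj_of_notMem p (hcon σ) h2 hadd v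
  have h : Quad p C σ := ⟨hC, h1, hdd, hσ⟩
  obtain ⟨T2, hT2, hT2C, hT2g⟩ : ∃ T : LTest F K, @Fintype.card T.J T.fin ≤ 8 ∧
      (∀ f ∈ C, ∀ x y, T.Pass f x y) ∧ ∀ g : K → F, (∀ x y, T.Pass g x y) →
        (∃ e ∈ FA p C, e ≠ 0 ∧ e ≠ 1) → ∃ e ∈ FA p C, e ≠ 0 ∧ e ≠ 1 ∧
          ∀ (τ : K) (c : F), τ ≠ 0 → (∀ f ∈ C, Sim e (σ e) f τ c) → Sim e (σ e) g τ c := by
    by_cases hE : ∃ e ∈ FA p C, e ≠ 0 ∧ e ≠ 1
    · obtain ⟨e, he, he0, he1⟩ := hE
      obtain ⟨T, a, b, c⟩ := exists_simTest (C := C) (Quad.den_ne (σ := σ) he0 he1)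
        (h.exists_qq he he0 he1 hq)
      exact ⟨T, a, b, fun g hg _ => ⟨e, he, he0, he1, c g hg⟩⟩
    · obtain ⟨T, a, b, -⟩ := exists_adjTest C
      exact ⟨T, a, b, fun g _ hE' => absurd hE' hE⟩
  obtain ⟨T3, hT3, hT3C, hT3g⟩ := exists_adjTest C
  refine testable_of_tests C (by omega) ![planeTest C, T2, T3] ?_ hdd ?_ ?_
  · intro i
    fin_cases i
    · change @Fintype.card (planeTest C).J (planeTest C).fin ≤ _
      rw [planeTest_card]
      omega
    · exact hT2.trans (by omega)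
    · exact hT3.trans (by omega)
  · intro c hc i x y
    fin_cases i
    · change (planeTest C).Pass c x y
      rw [planeTest_pass]
      exact (hat_of_mem hdd hc).2 x y.1 y.2.1
    · exact hT2C c hc x y
    · exact hT3C c hc x y
  · intro g hgdd hg
    have hhat : Hat C g := ⟨hgdd, fun x y z =>
      (planeTest_pass C g x (y, z, 0)).1 (hg 0 x (y, z, 0))⟩
    have hg2 := hT2g g (hg 1)
    have hg3 := hT3g g (hg 2)
    refine mem_of_span_eq hspan fun u hu => ?_
    by_cases hu0 : u = 0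
    · subst hu0
      simp
    obtain ⟨α0, α1, α2, t0, t1, t2, x, w, hW⟩ := exists_word hC h1 hq hu hu0
    rw [hW]
    exact h.W_eq_zero hhat hg2 hg3 w x

omit [Algebra F K] in
/-- the zero code -/
theorem testable_bot [Fintype K] [DecidableEq F] :
    LocallyTestable (⊥ : Submodule F (K → F)) (Fintype.card F ^ 2 + 8)
      (1 / (2000 * ((Fintype.card F ^ 2 + 8 : ℕ) : ℝ) * ((3 : ℕ) + 1))) := by
  refine testable_of_tests ⊥ (by omega)
    (fun _ : Fin 3 => relTest (n := 1) (0 : Fin 1 → K) 0 (fun _ => (1 : F))) ?_ ?_ ?_ ?_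
  · intro i
    rw [relTest_card]
    omega
  · intro c hc x a b d
    rw [Submodule.mem_bot] at hc
    rw [hc]
    simp [dd]
  · intro c hc i x y
    rw [Submodule.mem_bot] at hc
    rw [hc, relTest_pass]
    simp
  · intro g _ hg
    rw [Submodule.mem_bot]
    funext x
    have h1 := (relTest_pass _ _ _ _ _ _).1 (hg 0 x 0)
    simpa using h1

/-- Affine invariant codes with dual words of weight at most four. -/
theorem testable_four [Fintype K] [DecidableEq F] (hC : AffineInvariant C)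
    (hspan : Submodule.span F (lowWeightDual C 4) = dualCode C) :
    LocallyTestable C (Fintype.card F ^ 2 + 8)
      (1 / (2000 * ((Fintype.card F ^ 2 + 8 : ℕ) : ℝ) * ((3 : ℕ) + 1))) := by
  by_cases hbot : C = ⊥
  · rw [hbot]
    exact testable_bot
  have h1 := one_mem hC hbot
  by_cases htop : ∃ u ∈ lowWeightDual C 4, u ≠ 0
  · obtain ⟨u, hu, hu0⟩ := htop
    have hdd : ∀ c ∈ C, ∀ x a b d, dd c x a b d = 0 := by
      intro c hc x a b d
      rw [dd_eq_dl, degree hC h1 hu hu0 hc [a, b, d] rfl]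
      rfl
    by_cases hq : ∃ c ∈ C, ∃ x u v, bb c x u v ≠ 0
    · exact testable_of_quad hC h1 hspan hdd hq
    · push Not at hq
      refine testable_of_tests C (by omega) (fun _ : Fin 3 => planeTest C) ?_ hdd ?_ ?_
      · intro i
        rw [planeTest_card]
        omega
      · intro c hc i x y
        rw [planeTest_pass]
        exact (hat_of_mem hdd hc).2 x y.1 y.2.1
      · intro g hgdd hg
        have hhat : Hat C g := ⟨hgdd, fun x y z =>
          (planeTest_pass C g x (y, z, 0)).1 (hg 0 x (y, z, 0))⟩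
        exact mem_of_hat_of_deg_one hC h1 hspan hq hhat
  · push Not at htop
    refine locallyTestable_of_relDist_eq_zero C _ _ fun r => ?_
    refine relDist_eq_zero_of_mem C r (mem_of_span_eq hspan fun u hu => ?_)
    rw [htop u hu]
    simp

end Pool.Agent.LTCF
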