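import Pool.Agent.LTCF.Box
import Pool.Agent.LTCF.Defs
import Pool.Agent.LTCB.Neg

/-!
# Affine invariant codes with dual words of weight five
-/

set_option autoImplicit false

namespace Pool.Agent.LTCF

open Finset Pool.Agent.LTC

variable {F K : Type} [Field F] [Fintype F] [DecidableEq F] [Field K] [Fintype K] [Algebra F K]
variable {t : ℕ} {n e : Fin t → ℕ}

variable (F K n)

/-- the words which annihilate `1`, `x` and all products `x * fr j x` -/
def DD : Submodule F (K → F) where
  carrier := {u | ∑ x, u x = 0 ∧ ∑ x, u x • x = 0 ∧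
    ∀ j ∈ expS n (univ : Finset (Fin t)), ∑ x, u x • (x * fr F K j x) = 0}
  zero_mem' := by
    refine ⟨by simp, by simp, fun j _ => by simp⟩
  add_mem' := by
    rintro a b ⟨ha1, ha2, ha3⟩ ⟨hb1, hb2, hb3⟩
    refine ⟨?_, ?_, fun j hj => ?_⟩
    · simp only [Pi.add_apply, sum_add_distrib, ha1, hb1, add_zero]
    · simp only [Pi.add_apply, add_smul, sum_add_distrib, ha2, hb2, add_zero]
    · simp only [Pi.add_apply, add_smul, sum_add_distrib, ha3 j hj, hb3 j hj, add_zero]
  smul_mem' := by
    rintro c a ⟨ha1, ha2, ha3⟩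
    refine ⟨?_, ?_, fun j hj => ?_⟩
    · simp only [Pi.smul_apply, smul_eq_mul, ← mul_sum, ha1, mul_zero]
    · simp only [Pi.smul_apply, smul_eq_mul, mul_smul, ← smul_sum, ha2, smul_zero]
    · simp only [Pi.smul_apply, smul_eq_mul, mul_smul, ← smul_sum, ha3 j hj, smul_zero]

/-- the dual words of weight at most five -/
def W5 : Set (K → F) := {u | u ∈ DD F K n ∧ hammingNorm u ≤ 5}

/-- the code -/
def code5 : Submodule F (K → F) := dualCode (Submodule.span F (W5 F K n))

variable {F K n}

theorem dualCode_code5 : dualCode (code5 F K n) = Submodule.span F (W5 F K n) :=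
  dualCode_dualCode _

theorem span_code5 : Submodule.span F (lowWeightDual (code5 F K n) 5) =
    dualCode (code5 F K n) := by
  refine le_antisymm (Submodule.span_le.2 fun u hu => hu.1) ?_
  rw [dualCode_code5]
  refine Submodule.span_mono fun u hu => ⟨?_, hu.2⟩
  rw [dualCode_code5]
  exact Submodule.subset_span hu

theorem dual_le_DD {u : K → F} (hu : u ∈ dualCode (code5 F K n)) : u ∈ DD F K n := by
  rw [dualCode_code5] at hu
  exact (Submodule.span_le.2 fun u (hu : u ∈ W5 F K n) => hu.1) hu

theorem mem_code5 {f : K → F} (hf : ∀ u ∈ W5 F K n, ∑ x, u x * f x = 0) : f ∈ code5 F K n :=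
  mem_of_span_eq (C := code5 F K n) dualCode_code5.symm hf

theorem sum_code5 {f : K → F} (hf : f ∈ code5 F K n) {u : K → F} (hu : u ∈ W5 F K n) :
    ∑ x, u x * f x = 0 := by
  have h1 : u ∈ dualCode (code5 F K n) := by
    rw [dualCode_code5]
    exact Submodule.subset_span hu
  exact h1 f hf

omit [DecidableEq F] in
theorem DD.sum_fr {u : K → F} (hu : u ∈ DD F K n) (j : ℕ) : ∑ x, u x • fr F K j x = 0 := by
  have h1 := congrArg (fr F K j) hu.2.1
  rw [map_sum, map_zero] at h1
  simpa only [map_smul] using h1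

/-- the affine map as a permutation -/
def affEquiv (a : K) (ha : a ≠ 0) (b : K) : K ≃ K where
  toFun := fun x => a * x + b
  invFun := fun y => a⁻¹ * (y - b)
  left_inv := fun x => by
    change a⁻¹ * (a * x + b - b) = x
    rw [add_sub_cancel_right, inv_mul_cancel_left₀ ha]
  right_inv := fun y => by
    change a * (a⁻¹ * (y - b)) + b = y
    rw [mul_inv_cancel_left₀ ha, sub_add_cancel]

omit [DecidableEq F] in
theorem affine_DD {u : K → F} (hu : u ∈ DD F K n) {a : K} (ha : a ≠ 0) (b : K) :
    (fun y => u (a⁻¹ * (y - b))) ∈ DD F K n := by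
  have h0 : ∀ x, (affEquiv a ha b).symm (affEquiv a ha b x) = x :=
    (affEquiv a ha b).symm_apply_apply
  have h1 : ∀ x : K, u (a⁻¹ * (affEquiv a ha b x - b)) = u x := by
    intro x
    exact congrArg u (h0 x)
  have h2 : ∀ x : K, affEquiv a ha b x = a * x + b := fun _ => rfl
  refine ⟨?_, ?_, fun j hj => ?_⟩
  · rw [← Equiv.sum_comp (affEquiv a ha b)]
    simp only [h1]
    exact hu.1
  · rw [← Equiv.sum_comp (affEquiv a ha b)]
    simp only [h1]
    simp only [h2, smul_add, sum_add_distrib]
    have h3 : ∑ x, u x • (a * x) = a * ∑ x, u x • x := by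
      rw [mul_sum]
      exact sum_congr rfl fun x _ => (mul_smul_comm _ _ _).symm
    have h4 : ∑ x, u x • b = (∑ x, u x) • b := by rw [sum_smul]
    rw [h3, h4, hu.1, hu.2.1, mul_zero, zero_smul, add_zero]
  · rw [← Equiv.sum_comp (affEquiv a ha b)]
    simp only [h1]
    simp only [h2]
    have h3 : ∀ x : K, u x • ((a * x + b) * fr F K j (a * x + b)) =
        (a * fr F K j a) * (u x • (x * fr F K j x)) + (a * fr F K j b) * (u x • x) +
          (b * fr F K j a) * (u x • fr F K j x) + u x • (b * fr F K j b) := by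
      intro x
      rw [map_add, map_mul]
      simp only [Algebra.smul_def]
      ring
    have h4 : ∑ x, u x • (b * fr F K j b) = (∑ x, u x) • (b * fr F K j b) := by rw [sum_smul]
    simp only [h3, sum_add_distrib, ← mul_sum, hu.2.2 j hj, hu.2.1, DD.sum_fr hu j]
    rw [h4, hu.1]
    simp

/-- the code is invariant under all maps `x ↦ a * x + b` -/
theorem affine_code5 : AffineInvariant (code5 F K n) := by
  intro a b ha f hf
  refine mem_code5 fun u hu => ?_
  have h0 : ∀ x, (affEquiv a ha b).symm (affEquiv a ha b x) = x :=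
    (affEquiv a ha b).symm_apply_apply
  have h1 : (fun y => u (a⁻¹ * (y - b))) ∈ W5 F K n := by
    refine ⟨affine_DD hu.1 ha b, ?_⟩
    refine le_trans (le_of_eq ?_) hu.2
    unfold hammingNorm
    refine card_bij' (fun y _ => (affEquiv a ha b).symm y) (fun x _ => affEquiv a ha b x)
      ?_ ?_ ?_ ?_
    · intro y hy
      simp only [mem_filter, mem_univ, true_and] at hy ⊢
      exact hy
    · intro x hx
      simp only [mem_filter, mem_univ, true_and] at hx ⊢
      have : a⁻¹ * (affEquiv a ha b x - b) = x := h0 x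
      rwa [this]
    · intro y _
      exact (affEquiv a ha b).right_inv y
    · intro x _
      exact (affEquiv a ha b).left_inv x
  have h2 := sum_code5 hf h1
  rw [← Equiv.sum_comp (affEquiv a ha b)] at h2
  rw [← h2]
  refine sum_congr rfl fun x _ => ?_
  have h3 : a⁻¹ * (affEquiv a ha b x - b) = x := h0 x
  rw [h3]
  rfl

/-- words with few positions which annihilate the products are dual words -/
theorem word_mem_W5 {p : Fin 5 → K} {a : Fin 5 → F} (h0 : ∑ j, a j = 0)
    (h1 : ∑ j, a j • p j = 0)
    (h2 : ∀ m ∈ expS n (univ : Finset (Fin t)), ∑ j, a j • (p j * fr F K m (p j)) = 0) :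
    word p a ∈ W5 F K n := by
  classical
  have key : ∀ g : K → K, ∑ x, word p a x • g x = ∑ j, a j • g (p j) := by
    intro g
    unfold word
    simp only [Finset.sum_apply, Finset.sum_smul]
    rw [Finset.sum_comm]
    refine Finset.sum_congr rfl fun k _ => ?_
    rw [Finset.sum_eq_single (p k)]
    · simp
    · intro i _ hi
      rw [Pi.single_eq_of_ne hi, zero_smul]
    · intro h; exact absurd (Finset.mem_univ _) h
  refine ⟨⟨?_, ?_, fun m hm => ?_⟩, hammingNorm_word_le _ _⟩
  · have h3 := sum_word_mul p a (fun _ => (1 : F))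
    simp only [mul_one] at h3
    rw [h3, h0]
  · rw [key (fun x => x), h1]
  · rw [key (fun x => x * fr F K m x), h2 m hm]

/-- the bad words -/
noncomputable def rr (ψ : K →ₗ[F] F) (c : K) (e : Fin t → ℕ) (k : Fin t) (x : K) : F :=
  ψ (c * (x * fr F K (gg e k) x))

theorem undetected {N : ℕ} (hN : Module.finrank F K = N) (he : CRT n e N) (ψ : K →ₗ[F] F)
    (c : Fin t → K) (q : ℕ) (I : Finset K) (hI : I.card ≤ q) :
    ∃ S : Finset (Fin t), S.card ≤ q ∧
      ∀ k, k ∉ S → ∃ d ∈ code5 F K n, ∀ i ∈ I, d i = rr ψ (c k) e k i := by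
  classical
  obtain ⟨S, hS, hmem⟩ := exists_small hN he (fun i : I => (i : K))
  rw [Fintype.card_coe] at hS
  refine ⟨S, hS.trans hI, fun k hkS => ?_⟩
  obtain ⟨w, hw, hwI⟩ := bx_comp_mem (fun x : K => x) univ (fun i : I => (i : K)) (hmem k hkS)
  refine Pool.Agent.LTCB.exists_agree _ I _ fun u hu hsupp => ?_
  have h0 := dual_le_DD hu
  have h1 : ∀ w ∈ bx F n (fun x : K => x) univ, ∑ x, u x • (x * w x) = 0 := by
    intro w hw
    induction hw using Submodule.span_induction with
    | mem w hw =>
      obtain ⟨j, hj, rfl⟩ := hw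
      exact h0.2.2 j hj
    | zero => simp
    | add w w' _ _ h h' =>
      simp only [Pi.add_apply, mul_add, smul_add, sum_add_distrib, h, h', add_zero]
    | smul c w _ h =>
      have h2 : ∀ x : K, u x • (x * (c • w) x) = c * (u x • (x * w x)) := by
        intro x
        simp only [Pi.smul_apply, smul_eq_mul, Algebra.smul_def]
        ring
      simp only [h2, ← mul_sum, h, mul_zero]
  have h2 : ∀ x : K, u x * rr ψ (c k) e k x = ψ (c k * (u x • (x * w x))) := by
    intro x
    rw [mul_smul_comm, map_smul, smul_eq_mul]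
    by_cases hx : x ∈ I
    · rw [rr, hwI ⟨x, hx⟩]
    · rw [hsupp x hx, zero_mul, zero_mul]
  simp only [h2]
  rw [← map_sum, ← mul_sum, h1 w hw, mul_zero, map_zero]

end Pool.Agent.LTCF
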