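import Pool.Agent.LTCF.Far

/-!
# Codes over a fixed field with dual words of weight five which are not testable
-/

set_option autoImplicit false

namespace Pool.Agent.LTCF

open Finset Pool.Agent.LTC

theorem exists_psi (F K : Type) [Field F] [Field K] [Algebra F K] :
    ∃ ψ : K →ₗ[F] F, ∃ x, ψ x ≠ 0 := by
  have h : (1 : K) ∉ (⊥ : Submodule F K) := by
    rw [Submodule.mem_bot]
    exact one_ne_zero
  obtain ⟨ψ, hψ, -⟩ := Submodule.exists_le_ker_of_notMem h
  exact ⟨ψ, 1, hψ⟩

variable (F : Type) [Field F] [Fintype F] [DecidableEq F]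

omit [DecidableEq F] in
/-- there are extensions of every degree -/
theorem exists_ext (N : ℕ) (hN : N ≠ 0) : ∃ (K : Type) (_ : Field K) (_ : Fintype K)
    (_ : Algebra F K), Module.finrank F K = N := by
  obtain ⟨p, hp⟩ := CharP.exists F
  have : Fact p.Prime := ⟨CharP.char_is_prime F p⟩
  have : NeZero N := ⟨hN⟩
  exact ⟨FiniteField.Extension F p N, inferInstance, Fintype.ofFinite _, inferInstance,
    FiniteField.finrank_extension F p N⟩

variable {F}

omit [DecidableEq F] in
theorem exists_pent (hF : 3 ≤ Fintype.card F) {K : Type} [Field K] [Fintype K] [Algebra F K]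
    {m : ℕ} (hm : 5 ≤ m) (hodd : Odd m) (hdvd : m ∣ Module.finrank F K) :
    ∃ (a : Fin 5 → F) (z : Fin 5 → K), Pent F K m a z := by
  obtain ⟨E, iE, iE', iE'', hE⟩ := exists_ext F m (by omega)
  rw [← hE] at hodd hdvd hm
  obtain ⟨φ⟩ := FiniteField.nonempty_algHom_of_finrank_dvd hdvd
  obtain ⟨a, z, h0, h1, h2, h3⟩ := exists_pentad (F := F) (E := E) hF hodd hm
  refine ⟨a, fun i => φ (z i), h0, ?_, ?_, ?_, ?_⟩
  · have := congrArg φ h1
    simpa only [map_sum, map_smul, map_zero] using this
  · have := congrArg φ h2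
    simpa only [map_sum, map_smul, map_zero, map_mul, map_fr] using this
  · intro h
    have h4 : φ (∑ i, a i • (z i * z i)) = 0 := by
      rw [← h]
      simp only [map_sum, map_smul, map_mul]
    exact h3 (φ.injective (h4.trans (map_zero φ).symm))
  · intro i
    rw [← hE, ← map_fr]
    congr 1
    rw [fr_modEq (b := 0) (by rw [Nat.ModEq, Nat.mod_self, Nat.zero_mod]), fr_zero]

theorem exists_affine_not_testable (hF : 3 ≤ Fintype.card F) (q : ℕ) (s : ℝ) (hs : 0 < s) :
    ∃ (K : Type) (_ : Field K) (_ : Fintype K) (_ : Algebra F K)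
      (C : Submodule F (K → F)), AffineInvariant C ∧
        Submodule.span F (lowWeightDual C 5) = dualCode C ∧ ¬ LocallyTestable C q s := by
  classical
  obtain ⟨t, ht⟩ := exists_nat_gt ((q : ℝ) / (s * (1 / 20)))
  have ht' : (q : ℝ) < s * (1 / 20) * t := by
    rw [div_lt_iff₀ (by positivity)] at ht
    linarith
  -- pairwise coprime odd numbers
  let n : Fin t → ℕ := fun i => Nat.fermatNumber (i + 1)
  have hn : ∀ i, 5 ≤ n i := by
    intro i
    have h1 : (2 : ℕ) ^ 2 ≤ 2 ^ 2 ^ ((i : ℕ) + 1) :=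
      Nat.pow_le_pow_right (by norm_num) (by
        calc 2 = 2 ^ 1 := by norm_num
          _ ≤ 2 ^ ((i : ℕ) + 1) := Nat.pow_le_pow_right (by norm_num) (by omega))
    have h2 : n i = 2 ^ 2 ^ ((i : ℕ) + 1) + 1 := rfl
    omega
  have hodd : ∀ i, Odd (n i) := by
    intro i
    have h2 : n i = 2 ^ 2 ^ ((i : ℕ) + 1) + 1 := rfl
    rw [h2]
    refine Even.add_one ?_
    rw [Nat.even_pow]
    exact ⟨even_two, by positivity⟩
  have hcop : Pairwise (Function.onFun Nat.Coprime n) := by
    intro i j hij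
    exact Nat.coprime_fermatNumber_fermatNumber fun h => hij (Fin.ext (by omega))
  have hCRT : ∀ i : Fin t, ∃ m : ℕ, m % n i = 1 ∧ ∀ l, l ≠ i → m % n l = 0 := by
    intro i
    obtain ⟨m, hm⟩ := (Nat.chineseRemainderOfFinset (fun l => if l = i then 1 else 0) n
      Finset.univ (fun l _ => by have := hn l; omega) (fun a _ b _ hab => hcop hab))
    refine ⟨m, ?_, fun l hl => ?_⟩
    · have h := hm i (Finset.mem_univ i)
      rw [if_pos rfl, Nat.ModEq] at h
      rw [h, Nat.mod_eq_of_lt]
      have := hn i; omega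
    · have h := hm l (Finset.mem_univ l)
      rw [if_neg hl, Nat.ModEq] at h
      rw [h, Nat.zero_mod]
  choose e he1 he0 using hCRT
  have hprod : (∏ i, n i) ≠ 0 := Finset.prod_ne_zero_iff.2 fun i _ => by have := hn i; omega
  have he : CRT n e (∏ i, n i) := by
    refine ⟨fun i => by have := hn i; omega, hodd, he1, he0, fun m hm => ?_⟩
    have h1 : (∏ i, n i) ∣ m := by
      refine Finset.prod_dvd_of_isRelPrime ?_ ?_
      · intro i _ j _ hij
        exact Nat.coprime_iff_isRelPrime.1 (hcop hij)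
      · intro i _
        exact Nat.dvd_of_mod_eq_zero (hm i)
    exact Nat.mod_eq_zero_of_dvd h1
  obtain ⟨K, iK, iK', iK'', hN⟩ := exists_ext F (∏ i, n i) hprod
  obtain ⟨ψ, hψ⟩ := exists_psi F K
  have hP : ∀ k : Fin t, ∃ (a : Fin 5 → F) (z : Fin 5 → K), Pent F K (n k) a z := fun k =>
    exists_pent hF (hn k) (hodd k) (by rw [hN]; exact Finset.dvd_prod_of_mem n (mem_univ k))
  choose a z hP using hP
  have hc : ∀ k : Fin t, ∃ c : K, Fintype.card K ≤ 4 * (univ.filter fun l => ψ (c *
      ((l * fr F K (gg e k) l) * ∑ i, a k i • (z k i * z k i))) ≠ 0).card := by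
    intro k
    refine exists_scale ψ hψ _ fun x hx => ?_
    refine mul_ne_zero (mul_ne_zero hx ?_) (hP k).h3
    intro h
    exact hx (fr_injective (gg e k) (h.trans (map_zero _).symm))
  choose c hc using hc
  refine ⟨K, iK, iK', iK'', code5 F K n, affine_code5, span_code5, ?_⟩
  refine Pool.Agent.LTCB.not_locallyTestable_of_family' (code5 F K n) q s (1 / 20) hs t
    (fun k => rr ψ (c k) e k) ?_ (fun I hI => undetected hN he ψ c q I hI) ht'
  intro k w hw
  obtain ⟨d, hd, h⟩ := exists_relDist (code5 F K n) (w + rr ψ (c k) e k)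
  rw [h]
  have hcard : (0 : ℝ) < Fintype.card K := by exact_mod_cast Fintype.card_pos
  rw [div_le_div_iff₀ (by norm_num) hcard, one_mul]
  have hg : gg e k % n k = 0 := by
    have h1 : n k ∣ gg e k := Finset.dvd_sum fun i hi =>
      Nat.dvd_of_mod_eq_zero (he0 i k (ne_of_mem_erase hi).symm)
    exact Nat.mod_eq_zero_of_dvd h1
  have h1 := card_far (hP k) rfl hg ψ (c k) (hc k) (Submodule.sub_mem _ hd hw)
  have h2 : hammingDist (w + rr ψ (c k) e k) d =
      (Finset.univ.filter fun x => (d - w) x ≠ rr ψ (c k) e k x).card := by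
    unfold hammingDist
    congr 1
    ext x
    simp only [Finset.mem_filter, Finset.mem_univ, true_and, Pi.add_apply, Pi.sub_apply, ne_eq,
      sub_eq_iff_eq_add]
    rw [add_comm (rr ψ (c k) e k x), eq_comm]
  rw [h2]
  have h3 : (Fintype.card K : ℝ) ≤ 20 *
      ((Finset.univ.filter fun x => (d - w) x ≠ rr ψ (c k) e k x).card : ℝ) := by
    exact_mod_cast h1
  linarith

/-- Affine invariant codes are doubly transitive. -/
theorem AffineInvariant.doublyTransitive {F K : Type} [Field F] [Field K]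
    {C : Submodule F (K → F)} (hC : AffineInvariant C) : DoublyTransitiveCode C := by
  let G : Subgroup (Equiv.Perm K) :=
    { carrier := {π | ∃ a b : K, a ≠ 0 ∧ ∀ i, π i = a * i + b}
      mul_mem' := by
        rintro π ρ ⟨a, b, ha, h⟩ ⟨a', b', ha', h'⟩
        refine ⟨a * a', a * b' + b, mul_ne_zero ha ha', fun i => ?_⟩
        rw [Equiv.Perm.mul_apply, h, h']
        ring
      one_mem' := ⟨1, 0, one_ne_zero, fun i => by simp⟩
      inv_mem' := by
        rintro π ⟨a, b, ha, h⟩
        refine ⟨a⁻¹, -(a⁻¹ * b), inv_ne_zero ha, fun i => ?_⟩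
        have h1 := h (π⁻¹ i)
        have h2 : π (π⁻¹ i) = i := π.apply_symm_apply i
        rw [h2] at h1
        have h3 : a * π⁻¹ i = i - b := by linear_combination -h1
        calc π⁻¹ i = a⁻¹ * (a * π⁻¹ i) := (inv_mul_cancel_left₀ ha _).symm
          _ = a⁻¹ * (i - b) := by rw [h3]
          _ = _ := by ring }
  refine ⟨G, ?_, ?_⟩
  · rintro π ⟨a, b, ha, h⟩ w hw
    simp only [h]
    exact hC a b ha w hw
  · intro i j i' j' hij hij'
    have hx : i - j ≠ 0 := sub_ne_zero.2 hij
    have hx' : i' - j' ≠ 0 := sub_ne_zero.2 hij'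
    set a := (i' - j') / (i - j) with ha
    have ha0 : a ≠ 0 := div_ne_zero hx' hx
    refine ⟨affEquiv a ha0 (i' - a * i), ⟨a, i' - a * i, ha0, fun l => rfl⟩, ?_, ?_⟩
    · change a * i + (i' - a * i) = i'
      ring
    · change a * j + (i' - a * i) = j'
      have : a * (i - j) = i' - j' := by rw [ha, div_mul_cancel₀ _ hx]
      linear_combination -this

end Pool.Agent.LTCF
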