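import Pool.Agent.LTCF.Comp

/-!
# The quadratic parts of the words of a code of degree two
-/

set_option autoImplicit false

namespace Pool.Agent.LTCF

open Finset Pool.Agent.LTC

section General

variable {F K : Type} [Field F] [Field K]

theorem bb_comm (f : K → F) (x u v : K) : bb f x u v = bb f x v u := by
  have e : x + v + u = x + u + v := by ring
  simp only [bb, e]
  ring

theorem bb_add_left {f : K → F} (hf : ∀ x a b c, dd f x a b c = 0) (x u u' v : K) :
    bb f x (u + u') v = bb f x u v + bb f x u' v := by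
  have h := hf x u u' v
  simp only [dd] at h
  simp only [bb, ← add_assoc]
  linear_combination h

theorem bb_add_right {f : K → F} (hf : ∀ x a b c, dd f x a b c = 0) (x u v v' : K) :
    bb f x u (v + v') = bb f x u v + bb f x u v' := by
  rw [bb_comm, bb_add_left hf, bb_comm f x v u, bb_comm f x v' u]

/-- the quadratic part -/
def qq [Algebra F K] (e e' : F) (f : K → F) (x l : K) : F :=
  (e' * (f (x + l) - f x) - (f (x + e • l) - f x)) / (e' - e' ^ 2)

/-- the additive part -/
def ll [Algebra F K] (e e' : F) (f : K → F) (x l : K) : F := f (x + l) - f x - qq e e' f x l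

end General

variable {F K : Type} [Field F] [Fintype F] [Field K] [Algebra F K]
variable {C : Submodule F (K → F)}

/-- the hypotheses on the code -/
structure Quad (p : ℕ) [Fact p.Prime] [Algebra (ZMod p) F] (C : Submodule F (K → F))
    (σ : F ≃ₐ[ZMod p] F) : Prop where
  aff : AffineInvariant C
  one : (fun _ => 1) ∈ C
  deg : ∀ c ∈ C, ∀ x a b d, dd c x a b d = 0
  mem : σ ∈ AA p C

variable {p : ℕ} [Fact p.Prime] [Algebra (ZMod p) F] {σ : F ≃ₐ[ZMod p] F}

theorem Quad.bb_smul_of_mem (h : Quad p C σ) {c : F} (hc : c ∈ FA p C) {f : K → F} (hf : f ∈ C)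
    (x u v : K) : bb f x u (c • v) = σ c * bb f x u v := by
  have h1 : (fun v => bb f x u v) ∈ C := by
    have h2 := C.sub_mem (h.aff.base h.one hf (x + u)) (h.aff.base h.one hf x)
    have h3 : ((fun y => f (x + u + y) - f (x + u)) - fun y => f (x + y) - f x) =
        fun v => bb f x u v := by
      funext v
      simp only [Pi.sub_apply, bb]
      ring
    rwa [h3] at h2
  exact additive_smul p h1 (fun v w => bb_add_right (h.deg f hf) x u v w) hc h.mem v

theorem Quad.bb_smul (h : Quad p C σ) {c : F} (hc : c ∈ FA p C) {g : K → F} (hg : Hat C g)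
    (x u v : K) : bb g x u (c • v) = σ c * bb g x u v := by
  have hΦ : IsLinearMap F (fun w : F × F → F => w (1, c) - w (1, 0) - w (0, c) + w (0, 0) -
      σ c * (w (1, 1) - w (1, 0) - w (0, 1) + w (0, 0))) :=
    ⟨fun v w => by simp only [Pi.add_apply]; ring,
      fun a v => by simp only [Pi.smul_apply, smul_eq_mul]; ring⟩
  have h2 := transfer hΦ (by
    intro d hd x y z
    have h3 := h.bb_smul_of_mem hc hd x y z
    simp only [bb] at h3
    simp only [one_smul, zero_smul, add_zero]
    linear_combination h3) hg x u v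
  simp only [one_smul, zero_smul, add_zero] at h2
  simp only [bb]
  linear_combination h2

theorem Quad.bb_smul_left (h : Quad p C σ) {c : F} (hc : c ∈ FA p C) {g : K → F} (hg : Hat C g)
    (x u v : K) : bb g x (c • u) v = σ c * bb g x u v := by
  rw [bb_comm, h.bb_smul hc hg, bb_comm]

theorem Quad.hat (h : Quad p C σ) {f : K → F} (hf : f ∈ C) : Hat C f := hat_of_mem h.deg hf

section Parts

variable {e : F}

omit [Fintype F] in
theorem Quad.den_ne (he0 : e ≠ 0) (he1 : e ≠ 1) : σ e - σ e ^ 2 ≠ 0 := by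
  have h1 : σ e ≠ 0 := fun h => he0 ((map_eq_zero σ).1 h)
  have h2 : σ e ≠ 1 := by
    intro h
    rw [← map_one σ] at h
    exact he1 (σ.injective h)
  have h3 : σ e - σ e ^ 2 = σ e * (1 - σ e) := by ring
  rw [h3]
  exact mul_ne_zero h1 (sub_ne_zero.2 h2.symm)

theorem Quad.qq_add (h : Quad p C σ) (he : e ∈ FA p C) (he0 : e ≠ 0) (he1 : e ≠ 1) {g : K → F}
    (hg : Hat C g) (x u v : K) :
    qq e (σ e) g x (u + v) = qq e (σ e) g x u + qq e (σ e) g x v + bb g x u v := by
  have hd : σ e - σ e ^ 2 ≠ 0 := Quad.den_ne he0 he1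
  have h1 : bb g x (e • u) (e • v) = σ e ^ 2 * bb g x u v := by
    rw [h.bb_smul he hg, h.bb_smul_left he hg]
    ring
  have e1 : g (x + (u + v)) = g (x + u) + g (x + v) - g x + bb g x u v := by
    simp only [bb, ← add_assoc]
    ring
  have e2 : g (x + e • (u + v)) = g (x + e • u) + g (x + e • v) - g x +
      bb g x (e • u) (e • v) := by
    simp only [bb, smul_add, ← add_assoc]
    ring
  simp only [qq]
  rw [e1, e2, h1, div_eq_iff hd, add_mul, add_mul, div_mul_cancel₀ _ hd, div_mul_cancel₀ _ hd]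
  ring

theorem Quad.ll_add (h : Quad p C σ) (he : e ∈ FA p C) (he0 : e ≠ 0) (he1 : e ≠ 1) {g : K → F}
    (hg : Hat C g) (x u v : K) :
    ll e (σ e) g x (u + v) = ll e (σ e) g x u + ll e (σ e) g x v := by
  simp only [ll, h.qq_add he he0 he1 hg]
  simp only [bb, ← add_assoc]
  ring

theorem Quad.qq_mem (h : Quad p C σ) (he0 : e ≠ 0) {f : K → F} (hf : f ∈ C) (x : K) :
    (fun l => qq e (σ e) f x l) ∈ C := by
  have h1 := h.aff.base h.one hf x
  have he' : algebraMap F K e ≠ 0 := fun h0 => he0 ((map_eq_zero _).1 h0)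
  have h2 := h.aff.scale h1 he'
  have h3 := C.smul_mem (σ e - σ e ^ 2)⁻¹ (C.sub_mem (C.smul_mem (σ e) h1) h2)
  have h4 : ((σ e - σ e ^ 2)⁻¹ • ((σ e • fun y => f (x + y) - f x) -
      fun y => f (x + algebraMap F K e * y) - f x)) = fun l => qq e (σ e) f x l := by
    funext l
    have h5 : ∀ y : K, algebraMap F K e * y = e • y := fun y => (Algebra.smul_def e y).symm
    simp only [Pi.smul_apply, Pi.sub_apply, smul_eq_mul, qq, h5]
    rw [div_eq_inv_mul]
  rwa [h4] at h3

theorem Quad.scale_mem (h : Quad p C σ) {f : K → F} (hf : f ∈ C) {c : F} (hc : c ≠ 0) :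
    (fun l => f (c • l)) ∈ C := by
  have hc' : algebraMap F K c ≠ 0 := fun h0 => hc ((map_eq_zero _).1 h0)
  have h2 := h.aff.scale hf hc'
  simpa only [Algebra.smul_def] using h2

/-- the quadratic part is homogeneous: first for the element `e` -/
theorem Quad.qq_smul_self (h : Quad p C σ) (he : e ∈ FA p C) (he0 : e ≠ 0) {f : K → F}
    (hf : f ∈ C) (x l : K) : qq e (σ e) f x (e • l) = σ e ^ 2 * qq e (σ e) f x l := by
  have h1 := h.aff.base h.one hf x
  have h2 : (fun l => f (x + e • l) - f x - σ e ^ 2 * (f (x + l) - f x)) ∈ C := by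
    have h3 := C.sub_mem (h.scale_mem h1 he0) (C.smul_mem (σ e ^ 2) h1)
    have h4 : ((fun l => f (x + e • l) - f x) - σ e ^ 2 • fun y => f (x + y) - f x) =
        fun l => f (x + e • l) - f x - σ e ^ 2 * (f (x + l) - f x) := by
      funext l
      simp only [Pi.smul_apply, Pi.sub_apply, smul_eq_mul]
    rwa [h4] at h3
  have h3 := additive_smul p h2 (by
    intro u v
    have h4 : bb f x (e • u) (e • v) = σ e ^ 2 * bb f x u v := by
      rw [h.bb_smul he (h.hat hf), h.bb_smul_left he (h.hat hf)]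
      ring
    simp only [bb] at h4
    simp only [smul_add, ← add_assoc]
    linear_combination h4) he h.mem l
  simp only [qq]
  rw [← mul_div_assoc]
  congr 1
  linear_combination -h3

theorem Quad.qq_smul_of_mem (h : Quad p C σ) (he : e ∈ FA p C) (he0 : e ≠ 0) (he1 : e ≠ 1)
    {c : F} (hc : c ∈ FA p C) {f : K → F} (hf : f ∈ C) (x l : K) :
    qq e (σ e) f x (c • l) = σ c ^ 2 * qq e (σ e) f x l := by
  have hd : σ e - σ e ^ 2 ≠ 0 := Quad.den_ne he0 he1
  by_cases hc0 : c = 0
  · subst hc0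
    rw [zero_smul, map_zero]
    simp [qq]
  have h1 := h.qq_mem he0 hf x
  have h2 : (fun l => qq e (σ e) f x (c • l) - σ c ^ 2 * qq e (σ e) f x l) ∈ C :=
    C.sub_mem (h.scale_mem h1 hc0) (C.smul_mem (σ c ^ 2) h1)
  have h3 := additive_smul p h2 (by
    intro u v
    simp only [smul_add, h.qq_add he he0 he1 (h.hat hf)]
    rw [h.bb_smul hc (h.hat hf), h.bb_smul_left hc (h.hat hf)]
    ring) he h.mem l
  have h4 : c • e • l = e • c • l := smul_comm _ _ _
  rw [h4, h.qq_smul_self he he0 hf, h.qq_smul_self he he0 hf] at h3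
  have h5 : (σ e - σ e ^ 2) * (qq e (σ e) f x (c • l) - σ c ^ 2 * qq e (σ e) f x l) = 0 := by
    linear_combination -h3
  exact sub_eq_zero.1 ((mul_eq_zero.1 h5).resolve_left hd)

theorem Quad.qq_smul (h : Quad p C σ) (he : e ∈ FA p C) (he0 : e ≠ 0) (he1 : e ≠ 1)
    {c : F} (hc : c ∈ FA p C) {g : K → F} (hg : Hat C g) (x l : K) :
    qq e (σ e) g x (c • l) = σ c ^ 2 * qq e (σ e) g x l := by
  have hΦ : IsLinearMap F (fun w : F × F → F =>
      (σ e * (w (c, 0) - w (0, 0)) - (w (e * c, 0) - w (0, 0))) / (σ e - σ e ^ 2) -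
      σ c ^ 2 * ((σ e * (w (1, 0) - w (0, 0)) - (w (e, 0) - w (0, 0))) / (σ e - σ e ^ 2))) :=
    ⟨fun v w => by simp only [Pi.add_apply]; ring,
      fun a v => by simp only [Pi.smul_apply, smul_eq_mul]; ring⟩
  have h2 := transfer hΦ (by
    intro d hd x y z
    have h3 := h.qq_smul_of_mem he he0 he1 hc hd x y
    simp only [qq, smul_smul] at h3
    simp only [one_smul, zero_smul, add_zero]
    rw [h3, sub_self]) hg x l 0
  simp only [one_smul, zero_smul, add_zero] at h2
  simp only [qq, smul_smul]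
  exact sub_eq_zero.1 h2

theorem Quad.ll_smul_of_mem (h : Quad p C σ) (he : e ∈ FA p C) (he0 : e ≠ 0) (he1 : e ≠ 1)
    {c : F} (hc : c ∈ FA p C) {f : K → F} (hf : f ∈ C) (x l : K) :
    ll e (σ e) f x (c • l) = σ c * ll e (σ e) f x l := by
  have h2 : (fun l => ll e (σ e) f x l) ∈ C :=
    C.sub_mem (h.aff.base h.one hf x) (h.qq_mem he0 hf x)
  exact additive_smul p h2 (fun u v => h.ll_add he he0 he1 (h.hat hf) x u v) hc h.mem l

theorem Quad.ll_smul (h : Quad p C σ) (he : e ∈ FA p C) (he0 : e ≠ 0) (he1 : e ≠ 1)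
    {c : F} (hc : c ∈ FA p C) {g : K → F} (hg : Hat C g) (x l : K) :
    ll e (σ e) g x (c • l) = σ c * ll e (σ e) g x l := by
  have hΦ : IsLinearMap F (fun w : F × F → F => w (c, 0) - w (0, 0) -
      (σ e * (w (c, 0) - w (0, 0)) - (w (e * c, 0) - w (0, 0))) / (σ e - σ e ^ 2) -
      σ c * (w (1, 0) - w (0, 0) -
        (σ e * (w (1, 0) - w (0, 0)) - (w (e, 0) - w (0, 0))) / (σ e - σ e ^ 2))) :=
    ⟨fun v w => by simp only [Pi.add_apply]; ring,
      fun a v => by simp only [Pi.smul_apply, smul_eq_mul]; ring⟩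
  have h2 := transfer hΦ (by
    intro d hd x y z
    have h3 := h.ll_smul_of_mem he he0 he1 hc hd x y
    simp only [ll, qq, smul_smul] at h3
    simp only [one_smul, zero_smul, add_zero]
    rw [h3, sub_self]) hg x l 0
  simp only [one_smul, zero_smul, add_zero] at h2
  simp only [ll, qq, smul_smul]
  exact sub_eq_zero.1 h2

end Parts

end Pool.Agent.LTCF
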