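import Pool.Agent.LTCF.Words

/-!
# Similitudes and self-adjoint elements
-/

set_option autoImplicit false

namespace Pool.Agent.LTCF

open Finset Pool.Agent.LTC

variable {F K : Type} [Field F] [Field K] [Algebra F K] {C : Submodule F (K → F)}

/-- `τ` is a similitude of the quadratic parts with the multiplier `c` -/
def Sim (e e' : F) (f : K → F) (τ : K) (c : F) : Prop :=
  ∀ x l, qq e e' f x (τ * l) = c * qq e e' f x l

/-- `t` is self-adjoint for the second differences -/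
def Adj (f : K → F) (t : K) : Prop := ∀ x u v, bb f x (t * u) v = bb f x u (t * v)

variable [Fintype F] {p : ℕ} [Fact p.Prime] [Algebra (ZMod p) F] {σ : F ≃ₐ[ZMod p] F} {e : F}

theorem Quad.W_eq (h : Quad p C σ) (he : e ∈ FA p C) (he0 : e ≠ 0) (he1 : e ≠ 1) {β0 β1 : F}
    (hβ0 : β0 ∈ FA p C) (hβ1 : β1 ∈ FA p C) {g : K → F} (hg : Hat C g) (α2 : F) (x : K)
    {t0 t1 t2 : K} (ht : β0 • t0 + β1 • t1 + t2 = 0) :
    W (α2 * σ β0) (α2 * σ β1) α2 t0 t1 t2 g x =
      α2 * (σ β0 * (1 + σ β0) * qq e (σ e) g x t0 + σ β1 * (1 + σ β1) * qq e (σ e) g x t1 +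
        σ β0 * σ β1 * bb g x t0 t1) := by
  have h1 : t2 = (-1 : F) • (β0 • t0 + β1 • t1) := by
    rw [neg_smul, one_smul, eq_neg_iff_add_eq_zero, add_comm]
    exact ht
  have hm : (-1 : F) ∈ FA p C := (FA p C).neg_mem (FA p C).one_mem
  have h2 : ll e (σ e) g x t2 = -(σ β0 * ll e (σ e) g x t0 + σ β1 * ll e (σ e) g x t1) := by
    rw [h1, h.ll_smul he he0 he1 hm hg, h.ll_add he he0 he1 hg, h.ll_smul he he0 he1 hβ0 hg,
      h.ll_smul he he0 he1 hβ1 hg, map_neg, map_one]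
    ring
  have h3 : qq e (σ e) g x t2 = σ β0 ^ 2 * qq e (σ e) g x t0 + σ β1 ^ 2 * qq e (σ e) g x t1 +
      σ β0 * σ β1 * bb g x t0 t1 := by
    rw [h1, h.qq_smul he he0 he1 hm hg, h.qq_add he he0 he1 hg, h.qq_smul he he0 he1 hβ0 hg,
      h.qq_smul he he0 he1 hβ1 hg, h.bb_smul hβ1 hg, h.bb_smul_left hβ0 hg, map_neg, map_one]
    ring
  have h4 : ∀ t, g (x + t) - g x = ll e (σ e) g x t + qq e (σ e) g x t := by
    intro t
    rw [ll]
    ring
  rw [W, h4, h4, h4, h2, h3]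
  ring

/-- words which give similitudes -/
theorem Quad.sim_of_word (h : Quad p C σ) (he : e ∈ FA p C) (he0 : e ≠ 0) (he1 : e ≠ 1)
    {α2 β0 β1 : F} {t0 t1 t2 : K} (hβ0 : β0 ∈ FA p C) (hβ1 : β1 ∈ FA p C)
    (ht : β0 • t0 + β1 • t1 + t2 = 0)
    (w : Word C (α2 * σ β0) (α2 * σ β1) α2 t0 t1 t2) (hb : 1 + β0 ≠ 0) :
    (∀ g, Hat C g → ∀ x, W (α2 * σ β0) (α2 * σ β1) α2 t0 t1 t2 g x = 0) ∨
    ∃ (τ : K) (c : F), τ ≠ 0 ∧ (∀ f ∈ C, Sim e (σ e) f τ c) ∧
      ∀ g, Hat C g → Sim e (σ e) g τ c →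
        ∀ x, W (α2 * σ β0) (α2 * σ β1) α2 t0 t1 t2 g x = 0 := by
  set κ := β1 / (1 + β0) with hκ
  have hκm : κ ∈ FA p C := (FA p C).div_mem hβ1 ((FA p C).add_mem (FA p C).one_mem hβ0)
  have hs0 : 1 + σ β0 ≠ 0 := by
    rw [← map_one σ, ← map_add]
    exact fun h0 => hb ((map_eq_zero σ).1 h0)
  have hκσ : σ κ * (1 + σ β0) = σ β1 := by
    rw [← map_one σ, ← map_add, ← map_mul, hκ, div_mul_cancel₀ _ hb]
  have hσ1 : σ β1 ≠ 0 := right_ne_zero_of_mul w.a1
  have hsum : 1 + σ β0 + σ β1 ≠ 0 := by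
    intro h0
    apply w.a3
    linear_combination α2 * h0
  set a := σ β0 * (1 + σ β0) with ha
  set d := σ β1 * (1 + σ β1) - a * σ κ ^ 2 with hd
  have hd0 : d ≠ 0 := by
    have h1 : d * (1 + σ β0) = σ β1 * (1 + σ β0 + σ β1) := by
      rw [hd, ha]
      linear_combination (-(σ β0 * (1 + σ β0) * σ κ) - σ β0 * σ β1) * hκσ
    intro h0
    rw [h0, zero_mul] at h1
    exact mul_ne_zero hσ1 hsum h1.symm
  -- the word in terms of the similitude
  have key : ∀ g, Hat C g → ∀ x l, W (α2 * σ β0) (α2 * σ β1) α2 (l * t0) (l * t1) (l * t2) g x =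
      α2 * (a * qq e (σ e) g x (l * (t0 + κ • t1)) + d * qq e (σ e) g x (l * t1)) := by
    intro g hg x l
    have h1 : β0 • (l * t0) + β1 • (l * t1) + l * t2 = 0 := by
      rw [← mul_smul_comm, ← mul_smul_comm, ← mul_add, ← mul_add, ht, mul_zero]
    have h2 : l * (t0 + κ • t1) = l * t0 + κ • (l * t1) := by
      rw [mul_add, mul_smul_comm]
    rw [h.W_eq he he0 he1 hβ0 hβ1 hg α2 x h1, h2, h.qq_add he he0 he1 hg,
      h.qq_smul he he0 he1 hκm hg, h.bb_smul hκm hg, hd, ha]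
    linear_combination (-(α2 * σ β0 * bb g x (l * t0) (l * t1))) * hκσ
  by_cases hw : t0 + κ • t1 = 0
  · left
    intro g hg x
    have h1 : t0 = (-κ) • t1 := by
      rw [neg_smul, eq_neg_iff_add_eq_zero]
      exact hw
    refine w.line (μ := t1) h1 (one_smul F t1).symm (s2 := β0 * κ - β1) ?_ hg x
    have h2 : t2 = -(β0 • t0 + β1 • t1) := by
      rw [eq_neg_iff_add_eq_zero, add_comm]
      exact ht
    rw [h2, h1, neg_smul, sub_smul, smul_neg, smul_smul]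
    abel
  · right
    refine ⟨t1 / (t0 + κ • t1), -(a / d), div_ne_zero w.n1 hw, ?_, ?_⟩
    · intro f hf x l
      have h1 := w.rel f hf x (l / (t0 + κ • t1))
      rw [key f (h.hat hf)] at h1
      have h2 := (mul_eq_zero.1 h1).resolve_left w.a2
      have e1 : l / (t0 + κ • t1) * (t0 + κ • t1) = l := div_mul_cancel₀ _ hw
      have e2 : l / (t0 + κ • t1) * t1 = t1 / (t0 + κ • t1) * l := by ring
      rw [e1, e2] at h2
      have h3 : qq e (σ e) f x (t1 / (t0 + κ • t1) * l) =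
          -(a * qq e (σ e) f x l) / d := by
        rw [eq_div_iff hd0]
        linear_combination h2
      rw [h3]
      ring
    · intro g hg hsim x
      have h1 := key g hg x 1
      simp only [one_mul] at h1
      have h2 := hsim x (t0 + κ • t1)
      rw [div_mul_cancel₀ _ hw] at h2
      rw [h1, h2]
      have h3 : d * (-(a / d) * qq e (σ e) g x (t0 + κ • t1)) =
          -(a * qq e (σ e) g x (t0 + κ • t1)) := by
        field_simp
      rw [h3, add_neg_cancel, mul_zero]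

omit [Algebra F K] [Fintype F] in
theorem W_neg (α2 : F) (t0 t1 : K) (g : K → F) (x : K) :
    W (-α2) (-α2) α2 t0 t1 (t0 + t1) g x = α2 * bb g x t0 t1 := by
  simp only [W, bb, ← add_assoc]
  ring

omit [Algebra F K] [Fintype F] in
theorem Word.bb_eq_zero {α2 : F} {t0 t1 : K} (w : Word C (-α2) (-α2) α2 t0 t1 (t0 + t1))
    {f : K → F} (hf : f ∈ C) (x l : K) : bb f x (l * t0) (l * t1) = 0 := by
  have h1 := w.rel f hf x l
  rw [mul_add, W_neg] at h1
  exact (mul_eq_zero.1 h1).resolve_left w.a2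

theorem Quad.sim_of_sum (h : Quad p C σ) (he : e ∈ FA p C) (he0 : e ≠ 0) (he1 : e ≠ 1)
    {α2 : F} {t0 t1 : K} (w : Word C (-α2) (-α2) α2 t0 t1 (t0 + t1)) (h2 : (2 : F) ≠ 0) :
    ∃ (τ : K) (c : F), τ ≠ 0 ∧ (∀ f ∈ C, Sim e (σ e) f τ c) ∧
      ∀ g, Hat C g → Sim e (σ e) g τ c → ∀ x, W (-α2) (-α2) α2 t0 t1 (t0 + t1) g x = 0 := by
  have hm : (-1 : F) ∈ FA p C := (FA p C).neg_mem (FA p C).one_mem
  have key : ∀ g, Hat C g → ∀ x a b, qq e (σ e) g x (a + b) - qq e (σ e) g x (a - b) =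
      2 * bb g x a b := by
    intro g hg x a b
    have h1 : a - b = a + (-1 : F) • b := by
      rw [neg_smul, one_smul, sub_eq_add_neg]
    rw [h1, h.qq_add he he0 he1 hg, h.qq_add he he0 he1 hg, h.qq_smul he he0 he1 hm hg,
      h.bb_smul hm hg, map_neg, map_one]
    ring
  have hs : t0 + t1 ≠ 0 := w.n2
  refine ⟨(t0 - t1) / (t0 + t1), 1, div_ne_zero (sub_ne_zero.2 w.n01) hs, ?_, ?_⟩
  · intro f hf x l
    have h1 := key f (h.hat hf) x (l / (t0 + t1) * t0) (l / (t0 + t1) * t1)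
    rw [w.bb_eq_zero hf, mul_zero, ← mul_add, ← mul_sub, div_mul_cancel₀ _ hs] at h1
    have e2 : l / (t0 + t1) * (t0 - t1) = (t0 - t1) / (t0 + t1) * l := by ring
    rw [e2] at h1
    rw [one_mul]
    exact (sub_eq_zero.1 h1).symm
  · intro g hg hsim x
    have h1 := key g hg x t0 t1
    have h3 := hsim x (t0 + t1)
    rw [div_mul_cancel₀ _ hs, one_mul] at h3
    rw [h3, sub_self] at h1
    rw [W_neg, (mul_eq_zero.1 h1.symm).resolve_left h2, mul_zero]

/-- words which give self-adjoint elements -/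
theorem Quad.adj_of_sum (h : Quad p C σ) {α2 : F} {t0 t1 : K}
    (w : Word C (-α2) (-α2) α2 t0 t1 (t0 + t1)) (h2 : (2 : F) = 0) {f : K → F} (hf : f ∈ C) :
    Adj f (t1 / t0) := by
  intro x u v
  have h1 : ∀ l, bb f x l (t1 / t0 * l) = 0 := by
    intro l
    have h3 := w.bb_eq_zero hf x (l / t0)
    have e2 : l / t0 * t1 = t1 / t0 * l := by ring
    rwa [div_mul_cancel₀ _ w.n0, e2] at h3
  have h3 := h1 (u + v)
  rw [mul_add, bb_add_left (h.deg f hf), bb_add_right (h.deg f hf), bb_add_right (h.deg f hf),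
    h1, h1, zero_add, add_zero] at h3
  rw [bb_comm f x (t1 / t0 * u) v]
  linear_combination -h3 + bb f x v (t1 / t0 * u) * h2

omit [Algebra F K] [Fintype F] in
theorem W_of_adj {α2 : F} {t0 t1 s : K} (h2 : (2 : F) = 0) (h2K : (2 : K) = 0) (ht0 : t0 ≠ 0)
    (hs : s * s = t1 / t0) {g : K → F} (hg : Adj g s) (x : K) :
    W (-α2) (-α2) α2 t0 t1 (t0 + t1) g x = 0 := by
  have h1 : t1 = s * (s * t0) := by
    rw [← mul_assoc, hs, div_mul_cancel₀ _ ht0]
  have h3 : bb g x (s * t0) (s * t0) = 0 := by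
    have h4 : x + s * t0 + s * t0 = x := by linear_combination s * t0 * h2K
    rw [bb, h4]
    linear_combination (g x - g (x + s * t0)) * h2
  rw [W_neg, h1, ← hg, h3, mul_zero]

end Pool.Agent.LTCF
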