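import Pool.Agent.LTCF.Assemble
import Pool.Agent.LTCF.DegOne
import Pool.Agent.LTCF.Sim

/-!
# The local tests
-/

set_option autoImplicit false

namespace Pool.Agent.LTCF

open Finset Pool.Agent.LTC

variable {F K : Type} [Field F] [Field K]

section RelTest

/-- the test given by one linear relation -/
def relTest {n : ℕ} (m m' : Fin n → K) (ρ : Fin n → F) : LTest F K where
  J := Fin n
  fin := inferInstance
  L := fun j => (AddMonoidHom.mulLeft (m j)).comp (AddMonoidHom.fst K (K × K)) +
    (AddMonoidHom.mulLeft (m' j)).comp ((AddMonoidHom.fst K K).comp (AddMonoidHom.snd K (K × K)))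
  G :=
    { carrier := {v | ∑ j, ρ j * v j = 0}
      zero_mem' := by simp
      add_mem' := by
        intro a b ha hb
        simp only [Set.mem_ofPred_eq, Pi.add_apply, mul_add, sum_add_distrib] at ha hb ⊢
        rw [ha, hb, add_zero]
      smul_mem' := by
        intro c a ha
        simp only [Set.mem_ofPred_eq, Pi.smul_apply, smul_eq_mul, mul_left_comm _ c] at ha ⊢
        rw [← mul_sum, ha, mul_zero] }

theorem relTest_pass {n : ℕ} (m m' : Fin n → K) (ρ : Fin n → F) (f : K → F) (x : K)
    (y : K × K × K) : (relTest m m' ρ).Pass f x y ↔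
      ∑ j, ρ j * f (x + (m j * y.1 + m' j * y.2.1)) = 0 := Iff.rfl

theorem relTest_card {n : ℕ} (m m' : Fin n → K) (ρ : Fin n → F) :
    @Fintype.card (relTest m m' ρ).J (relTest m m' ρ).fin = n := Fintype.card_fin n

end RelTest

section Plane

variable [Algebra F K] [Fintype F]

/-- the plane test -/
def planeTest (C : Submodule F (K → F)) : LTest F K where
  J := F × F
  fin := inferInstance
  L := fun s => (DistribSMul.toAddMonoidHom K s.1).comp (AddMonoidHom.fst K (K × K)) +
    (DistribSMul.toAddMonoidHom K s.2).comp
      ((AddMonoidHom.fst K K).comp (AddMonoidHom.snd K (K × K)))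
  G := planeSpan C

theorem planeTest_pass (C : Submodule F (K → F)) (f : K → F) (x : K) (y : K × K × K) :
    (planeTest C).Pass f x y ↔
      (fun s : F × F => f (x + s.1 • y.1 + s.2 • y.2.1)) ∈ planeSpan C := by
  simp only [add_assoc]
  rfl

theorem planeTest_card (C : Submodule F (K → F)) :
    @Fintype.card (planeTest C).J (planeTest C).fin = Fintype.card F ^ 2 := by
  have : @Fintype.card (planeTest C).J (planeTest C).fin = Fintype.card (F × F) := rfl
  rw [this, Fintype.card_prod, sq]

end Plane

section Sim

variable [Algebra F K]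

/-- the test for a similitude -/
def simTest (e e' : F) (τ : K) (c : F) : LTest F K :=
  relTest ![τ, algebraMap F K e * τ, 1, algebraMap F K e, 0] 0
    ![e', -1, -(c * e'), c, -(e' - 1) + c * (e' - 1)]

theorem simTest_pass {e e' : F} (hd : e' - e' ^ 2 ≠ 0) (τ : K) (c : F) (f : K → F) :
    (∀ x y, (simTest e e' τ c).Pass f x y) ↔ Sim e e' f τ c := by
  have h : ∀ x (y : K × K × K), (simTest e e' τ c).Pass f x y ↔
      qq e e' f x (τ * y.1) = c * qq e e' f x y.1 := by
    intro x y
    rw [simTest, relTest_pass]
    simp only [Fin.sum_univ_succ, Fin.sum_univ_zero, Matrix.cons_val_zero, Matrix.cons_val_succ,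
      Pi.zero_apply, zero_mul, add_zero, one_mul]
    simp only [qq, Algebra.smul_def, ← mul_assoc]
    rw [← mul_div_assoc, div_eq_div_iff hd hd, ← sub_eq_zero (b := _ * (e' - e' ^ 2)), ← sub_mul,
      mul_eq_zero, or_iff_left hd]
    constructor
    · intro h
      linear_combination h
    · intro h
      linear_combination h
  constructor
  · intro hp x l
    exact (h x (l, 0, 0)).1 (hp x (l, 0, 0))
  · intro hs x y
    exact (h x y).2 (hs x y.1)

end Sim

/-- the test for a self-adjoint element -/
def adjTest (F : Type) [Field F] (t : K) : LTest F K :=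
  relTest ![t, t, 0, 1, 1, 0] ![1, 0, 1, t, 0, t] ![1, -1, -1, -1, 1, 1]

theorem adjTest_pass (t : K) (f : K → F) :
    (∀ x y, (adjTest F t).Pass f x y) ↔ Adj f t := by
  have h : ∀ x (y : K × K × K), (adjTest F t).Pass f x y ↔
      bb f x (t * y.1) y.2.1 = bb f x y.1 (t * y.2.1) := by
    intro x y
    rw [adjTest, relTest_pass]
    simp only [Fin.sum_univ_succ, Fin.sum_univ_zero, Matrix.cons_val_zero, Matrix.cons_val_succ,
      zero_mul, add_zero, one_mul, ← add_assoc]
    simp only [bb]
    constructor
    · intro h
      linear_combination h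
    · intro h
      linear_combination h
  constructor
  · intro hp x u v
    exact (h x (u, v, 0)).1 (hp x (u, v, 0))
  · intro hs x y
    exact (h x y).2 (hs x y.1 y.2.1)

end Pool.Agent.LTCF
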