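import Pool.Agent.LTCB.NegFinal
import Pool.Agent.LTCF.Defs

/-!
# The field with two elements
-/

set_option autoImplicit false

namespace Pool.Agent.LTCF

open Finset Pool.Agent.LTC

section Transport

variable {ι F F' : Type} [Field F] [Field F']

/-- the code with the values transported along an isomorphism of fields -/
def tr (φ : F ≃+* F') (C : Submodule F (ι → F)) : Submodule F' (ι → F') where
  carrier := {w | (fun i => φ.symm (w i)) ∈ C}
  zero_mem' := by
    change (fun _ : ι => φ.symm 0) ∈ C
    rw [map_zero]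
    exact C.zero_mem
  add_mem' := by
    intro v w hv hw
    change (fun i => φ.symm (v i + w i)) ∈ C
    have h : (fun i => φ.symm (v i + w i)) = (fun i => φ.symm (v i)) + fun i => φ.symm (w i) := by
      ext i
      rw [map_add]
      rfl
    rw [h]
    exact C.add_mem hv hw
  smul_mem' := by
    intro a w hw
    change (fun i => φ.symm (a * w i)) ∈ C
    have h : (fun i => φ.symm (a * w i)) = φ.symm a • fun i => φ.symm (w i) := by
      ext i
      rw [map_mul]
      rfl
    rw [h]
    exact C.smul_mem _ hw

theorem mem_tr {φ : F ≃+* F'} {C : Submodule F (ι → F)} {w : ι → F'} :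
    w ∈ tr φ C ↔ (fun i => φ.symm (w i)) ∈ C := Iff.rfl

theorem comp_mem_tr {φ : F ≃+* F'} {C : Submodule F (ι → F)} {w : ι → F} :
    (fun i => φ (w i)) ∈ tr φ C ↔ w ∈ C := by
  rw [mem_tr]
  simp only [RingEquiv.symm_apply_apply]

theorem span_tr [Fintype ι] [DecidableEq F] [DecidableEq F'] (φ : F ≃+* F')
    (C : Submodule F (ι → F)) (q : ℕ)
    (h : Submodule.span F (lowWeightDual C q) = dualCode C) :
    Submodule.span F' (lowWeightDual (tr φ C) q) = dualCode (tr φ C) := by
  refine span_eq_of_forall_mem (fun u hu => hu.1) fun f hf => ?_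
  rw [mem_tr]
  refine mem_of_span_eq h fun u hu => ?_
  have h1 : (fun i => φ (u i)) ∈ lowWeightDual (tr φ C) q := by
    refine ⟨?_, ?_⟩
    · rw [mem_dualCode]
      intro c hc
      have h2 := (mem_dualCode.1 hu.1) _ (mem_tr.1 hc)
      have h3 := congrArg φ h2
      rw [map_sum, map_zero] at h3
      simpa only [map_mul, RingEquiv.apply_symm_apply] using h3
    · refine le_trans (le_of_eq ?_) hu.2
      exact hammingNorm_comp (fun _ => φ) (fun _ => φ.injective) fun _ => map_zero φ
  have h4 := congrArg φ.symm (hf _ h1)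
  rw [map_sum, map_zero] at h4
  simpa only [map_mul, RingEquiv.symm_apply_apply] using h4

/-- the tree which reads the transported values -/
def mapTree (φ : F ≃+* F') : DecisionTree ι F' → DecisionTree ι F
  | .leaf b => .leaf b
  | .read i next => .read i fun a => mapTree φ (next (φ a))

theorem run_mapTree (φ : F ≃+* F') (T : DecisionTree ι F') (r : ι → F) :
    (mapTree φ T).run r = T.run fun i => φ (r i) := by
  induction T with
  | leaf b => rfl
  | read i next ih => exact ih (φ (r i))

theorem readsAtMost_mapTree (φ : F ≃+* F') (T : DecisionTree ι F') (q : ℕ)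
    (h : T.ReadsAtMost q) : (mapTree φ T).ReadsAtMost q := by
  induction T generalizing q with
  | leaf b => trivial
  | read i next ih =>
    cases q with
    | zero => exact absurd h (by simp [DecisionTree.ReadsAtMost])
    | succ q => exact fun a => ih (φ a) q (h (φ a))

theorem relDist_tr [Fintype ι] [DecidableEq F] [DecidableEq F'] (φ : F ≃+* F')
    (C : Submodule F (ι → F)) (r : ι → F) :
    relDist (tr φ C) (fun i => φ (r i)) = relDist C r := by
  have h : {d : ℕ | ∃ c ∈ tr φ C, hammingDist (fun i => φ (r i)) c = d} =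
      {d : ℕ | ∃ c ∈ C, hammingDist r c = d} := by
    ext d
    constructor
    · rintro ⟨c, hc, hd⟩
      refine ⟨_, mem_tr.1 hc, ?_⟩
      rw [← hd, ← hammingDist_comp (fun _ => φ) (fun _ => φ.injective)]
      simp only [RingEquiv.apply_symm_apply]
    · rintro ⟨c, hc, hd⟩
      refine ⟨_, comp_mem_tr.2 hc, ?_⟩
      rw [← hd]
      exact hammingDist_comp (fun _ => φ) fun _ => φ.injective
  unfold relDist
  rw [h]

theorem locallyTestable_of_tr [Fintype ι] [DecidableEq F] [DecidableEq F'] (φ : F ≃+* F')
    (C : Submodule F (ι → F)) (q : ℕ) (s : ℝ) (h : LocallyTestable (tr φ C) q s) :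
    LocallyTestable C q s := by
  obtain ⟨T, hq, h0, hs⟩ := h
  let T' : Tester ι F :=
    { Ω := T.Ω
      fin := T.fin
      prob := T.prob
      prob_nonneg := T.prob_nonneg
      prob_sum := T.prob_sum
      tree := fun ω => mapTree φ (T.tree ω) }
  have hr : ∀ r : ι → F, T'.rejectProb r = T.rejectProb fun i => φ (r i) := by
    intro r
    unfold Tester.rejectProb
    let _ := T.fin
    change ∑ ω : T.Ω, (if (mapTree φ (T.tree ω)).run r = false then T.prob ω else 0) = _
    simp only [run_mapTree]
  refine ⟨T', fun ω => readsAtMost_mapTree φ _ _ (hq ω), fun r hr' => ?_, fun r => ?_⟩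
  · rw [hr]
    exact h0 _ (comp_mem_tr.2 hr')
  · rw [hr, ← relDist_tr φ]
    exact hs _

end Transport

/-- in the binary case there are no dual words of weight five, if the constants are codewords -/
theorem lowWeightDual_five {ι F : Type} [Fintype ι] [Field F] [Fintype F] [DecidableEq F]
    (hF : Fintype.card F = 2) {C : Submodule F (ι → F)} (h1 : (fun _ => 1) ∈ C) :
    lowWeightDual C 5 = lowWeightDual C 4 := by
  have h2 : ∀ x : F, x ≠ 0 → x = 1 := by
    intro x hx
    have h3 := FiniteField.pow_card_sub_one_eq_one x hx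
    rwa [hF, pow_one] at h3
  have h4 : (2 : F) = 0 := by
    have h5 := Nat.cast_card_eq_zero F
    rw [hF] at h5
    exact_mod_cast h5
  ext u
  constructor
  · rintro ⟨hu, h5⟩
    refine ⟨hu, ?_⟩
    by_contra h6
    have h7 : hammingNorm u = 5 := by omega
    have h8 := (mem_dualCode.1 hu) _ h1
    simp only [mul_one] at h8
    have h9 : ∑ i, u i = (hammingNorm u : F) := by
      rw [hammingNorm, ← Finset.sum_filter_ne_zero, Finset.card_eq_sum_ones, Nat.cast_sum]
      refine Finset.sum_congr rfl fun i hi => ?_
      rw [h2 _ (Finset.mem_filter.1 hi).2, Nat.cast_one]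
    rw [h9, h7] at h8
    have h10 : ((5 : ℕ) : F) = 2 + 2 + 1 := by norm_num
    rw [h10, h4, zero_add, zero_add] at h8
    exact one_ne_zero h8
  · rintro ⟨hu, h5⟩
    exact ⟨hu, h5.trans (by norm_num)⟩

/-- the negative result over a field with two elements -/
theorem exists_affine_not_testable_two (F : Type) [Field F] [Fintype F] [DecidableEq F]
    (hF : Fintype.card F = 2) (q : ℕ) (s : ℝ) (hs : 0 < s) :
    ∃ (K : Type) (_ : Field K) (_ : Fintype K) (_ : Algebra F K)
      (C : Submodule F (K → F)), AffineInvariant C ∧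
        Submodule.span F (lowWeightDual C 6) = dualCode C ∧ ¬ LocallyTestable C q s := by
  obtain ⟨K, hK, hK1, hK2, C, hC, hspan, hneg⟩ := LTCB.exists_affine_not_testable q s hs
  let φ : ZMod 2 ≃+* F := ZMod.ringEquivOfPrime F Nat.prime_two hF
  let _ : Algebra (ZMod 2) K := ZMod.algebra K 2
  refine ⟨K, hK, hK1, ((algebraMap (ZMod 2) K).comp φ.symm.toRingHom).toAlgebra, tr φ C, ?_,
    span_tr φ C 6 hspan, fun h => hneg (locallyTestable_of_tr φ C q s h)⟩
  intro a b ha w hw
  exact hC a b ha _ (mem_tr.1 hw)

end Pool.Agent.LTCF
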