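import Pool.Agent.LTCF.Quad

/-!
# The dual words of weight four of a code of degree two
-/

set_option autoImplicit false

namespace Pool.Agent.LTCF

open Finset Pool.Agent.LTC

variable {F K : Type} [Field F] [Field K] {C : Submodule F (K → F)}

/-- the value of a four point relation -/
def W (α0 α1 α2 : F) (t0 t1 t2 : K) (g : K → F) (x : K) : F :=
  α0 * (g (x + t0) - g x) + α1 * (g (x + t1) - g x) + α2 * (g (x + t2) - g x)

/-- the data of a dual word of weight four -/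
structure Word (C : Submodule F (K → F)) (α0 α1 α2 : F) (t0 t1 t2 : K) : Prop where
  a0 : α0 ≠ 0
  a1 : α1 ≠ 0
  a2 : α2 ≠ 0
  a3 : α0 + α1 + α2 ≠ 0
  n0 : t0 ≠ 0
  n1 : t1 ≠ 0
  n2 : t2 ≠ 0
  n01 : t0 ≠ t1
  rel : ∀ f ∈ C, ∀ x l, W α0 α1 α2 (l * t0) (l * t1) (l * t2) f x = 0

theorem W_swap (α0 α1 α2 : F) (t0 t1 t2 : K) (g : K → F) (x : K) :
    W α0 α1 α2 t0 t1 t2 g x = W α1 α0 α2 t1 t0 t2 g x := by
  simp only [W]
  ring

theorem Word.swap {α0 α1 α2 : F} {t0 t1 t2 : K} (w : Word C α0 α1 α2 t0 t1 t2) :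
    Word C α1 α0 α2 t1 t0 t2 :=
  ⟨w.a1, w.a0, w.a2, by rw [add_comm α1]; exact w.a3, w.n1, w.n0, w.n2, w.n01.symm,
    fun f hf x l => by rw [W_swap]; exact w.rel f hf x l⟩

theorem exists_word [Fintype K] [DecidableEq F] (hC : AffineInvariant C)
    (h1 : (fun _ => 1) ∈ C) (hq : ∃ c ∈ C, ∃ x u v, bb c x u v ≠ 0) {u : K → F}
    (hu : u ∈ lowWeightDual C 4) (hu0 : u ≠ 0) :
    ∃ (α0 α1 α2 : F) (t0 t1 t2 x : K), Word C α0 α1 α2 t0 t1 t2 ∧
      ∀ g : K → F, ∑ i, u i * g i = W α0 α1 α2 t0 t1 t2 g x := by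
  classical
  set S := univ.filter fun i => u i ≠ 0 with hS
  have hSmem : ∀ i, i ∈ S ↔ u i ≠ 0 := fun i => by
    rw [hS, mem_filter]
    exact and_iff_right (mem_univ _)
  have hcard : S.card ≤ 4 := hu.2
  have hcard3 : ¬ S.card ≤ 3 := by
    intro h3
    obtain ⟨c, hc, x, y, z, hne⟩ := hq
    apply hne
    have hu3 : u ∈ lowWeightDual C (2 + 1) := ⟨hu.1, h3⟩
    rw [bb_eq_dl, degree hC h1 hu3 hu0 hc [y, z] rfl]
    rfl
  have hcard4 : S.card = 3 + 1 := by omega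
  obtain ⟨d, S', hd, hS', hcardS'⟩ := card_eq_succ.1 hcard4
  obtain ⟨a, b, c, hab, hac, hbc, hS''⟩ := card_eq_three.1 hcardS'
  subst hS''
  have hda : d ≠ a := fun h => hd (by rw [h]; simp)
  have hdb : d ≠ b := fun h => hd (by rw [h]; simp)
  have hdc : d ≠ c := fun h => hd (by rw [h]; simp)
  have hua : u a ≠ 0 := (hSmem a).1 (by rw [← hS']; simp)
  have hub : u b ≠ 0 := (hSmem b).1 (by rw [← hS']; simp)
  have huc : u c ≠ 0 := (hSmem c).1 (by rw [← hS']; simp)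
  have hud : u d ≠ 0 := (hSmem d).1 (by rw [← hS']; simp)
  have hsum : ∀ g : K → F, ∑ i, u i * g i = u d * g d + (u a * g a + (u b * g b + u c * g c)) := by
    intro g
    have e1 : ∑ i, u i * g i = ∑ i ∈ S, u i * g i := by
      rw [hS, sum_filter_of_ne]
      intro i _ hi h0
      exact hi (by rw [h0, zero_mul])
    rw [e1, ← hS', sum_insert hd, sum_insert (by simp [hab, hac]), sum_insert (by simp [hbc]),
      sum_singleton]
  have hzero : u d + (u a + (u b + u c)) = 0 := by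
    have h2 := hu.1 _ h1
    rw [hsum] at h2
    simpa only [mul_one] using h2
  have hW : ∀ g : K → F, ∑ i, u i * g i = W (u a) (u b) (u c) (a - d) (b - d) (c - d) g d := by
    intro g
    rw [hsum, W, add_sub_cancel, add_sub_cancel, add_sub_cancel]
    linear_combination g d * hzero
  refine ⟨u a, u b, u c, a - d, b - d, c - d, d, ⟨hua, hub, huc, ?_, sub_ne_zero.2 hda.symm,
    sub_ne_zero.2 hdb.symm, sub_ne_zero.2 hdc.symm, ?_, ?_⟩, hW⟩
  · intro h0
    apply hud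
    linear_combination hzero - h0
  · intro h0
    exact hab (sub_left_injective h0)
  · intro f hf x l
    have h2 := word_rel hC h1 hu.1 hf (x - d * l) l
    rw [hsum (fun i => f (x - d * l + i * l))] at h2
    have e0 : x - d * l + d * l = x := by ring
    have e1 : x - d * l + a * l = x + l * (a - d) := by ring
    have e2 : x - d * l + b * l = x + l * (b - d) := by ring
    have e3 : x - d * l + c * l = x + l * (c - d) := by ring
    rw [e0, e1, e2, e3] at h2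
    rw [W]
    linear_combination h2 - f x * hzero

variable [Algebra F K]

/-- words on a line of the plane test -/
theorem Word.line {α0 α1 α2 : F} {t0 t1 t2 : K} (w : Word C α0 α1 α2 t0 t1 t2) {μ : K}
    {s0 s1 s2 : F} (h0 : t0 = s0 • μ) (h1 : t1 = s1 • μ) (h2 : t2 = s2 • μ) {g : K → F}
    (hg : Hat C g) (x : K) : W α0 α1 α2 t0 t1 t2 g x = 0 := by
  have hμ : μ ≠ 0 := by
    rintro rfl
    exact w.n0 (by rw [h0, smul_zero])
  have hΦ : IsLinearMap F (fun v : F × F → F => α0 * (v (s0, 0) - v (0, 0)) +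
      α1 * (v (s1, 0) - v (0, 0)) + α2 * (v (s2, 0) - v (0, 0))) :=
    ⟨fun v w => by simp only [Pi.add_apply]; ring,
      fun a v => by simp only [Pi.smul_apply, smul_eq_mul]; ring⟩
  have h := transfer hΦ (by
    intro d hd x y z
    have h3 := w.rel d hd x (y / μ)
    have e : ∀ s : F, y / μ * (s • μ) = s • y := by
      intro s
      rw [mul_smul_comm, div_mul_cancel₀ _ hμ]
    rw [h0, h1, h2, e, e, e, W] at h3
    simpa only [zero_smul, add_zero] using h3) hg x μ 0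
  simp only [zero_smul, add_zero] at h
  rw [W, h0, h1, h2]
  exact h

variable [Fintype F] {p : ℕ} [Fact p.Prime] [Algebra (ZMod p) F] {σ : F ≃ₐ[ZMod p] F}

theorem Word.smul_eq {α0 α1 α2 : F} {t0 t1 t2 : K} (w : Word C α0 α1 α2 t0 t1 t2)
    {τ : F ≃ₐ[ZMod p] F} (hτ : τ ∈ AA p C) :
    τ.symm (α0 / α2) • t0 + τ.symm (α1 / α2) • t1 + t2 = 0 := by
  have h := sum_smul_eq_zero p (C := C) univ ![α0, α1, α2] ![t0, t1, t2] (by
    intro a ha hadd l
    have h0 := zero_of_additive hadd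
    have h2 := w.rel a ha 0 l
    simp only [W, zero_add, h0, sub_zero] at h2
    simpa [Fin.sum_univ_succ, ← add_assoc] using h2) hτ
  simp only [Fin.sum_univ_succ, Fin.sum_univ_zero, Matrix.cons_val_zero, Matrix.cons_val_succ,
    add_zero, ← add_assoc] at h
  have h2 : τ.symm α2 ≠ 0 := fun h3 => w.a2 ((map_eq_zero τ.symm).1 h3)
  have h3 := congrArg (fun z => (τ.symm α2)⁻¹ • z) h
  simp only [smul_add, smul_smul, smul_zero, inv_mul_cancel₀ h2, one_smul] at h3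
  rw [map_div₀, map_div₀, div_eq_inv_mul, div_eq_inv_mul]
  exact h3

theorem Word.cases {α0 α1 α2 : F} {t0 t1 t2 : K} (w : Word C α0 α1 α2 t0 t1 t2)
    (hσ : σ ∈ AA p C) :
    (∃ (μ : K) (s0 s1 s2 : F), t0 = s0 • μ ∧ t1 = s1 • μ ∧ t2 = s2 • μ) ∨
      ∃ β0 ∈ FA p C, ∃ β1 ∈ FA p C, α0 = α2 * σ β0 ∧ α1 = α2 * σ β1 ∧
        β0 • t0 + β1 • t1 + t2 = 0 := by
  by_cases hall : ∀ τ ∈ AA p C, τ.symm (α0 / α2) = σ.symm (α0 / α2) ∧
      τ.symm (α1 / α2) = σ.symm (α1 / α2)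
  · right
    have hmem : ∀ γ : F, (∀ τ ∈ AA p C, τ.symm γ = σ.symm γ) → σ.symm γ ∈ FA p C := by
      intro γ h τ hτ τ' hτ'
      have h1 : τ (σ.symm γ) = γ := by rw [← h τ hτ, AlgEquiv.apply_symm_apply]
      have h2 : τ' (σ.symm γ) = γ := by rw [← h τ' hτ', AlgEquiv.apply_symm_apply]
      rw [h1, h2]
    refine ⟨σ.symm (α0 / α2), hmem _ fun τ hτ => (hall τ hτ).1, σ.symm (α1 / α2),
      hmem _ fun τ hτ => (hall τ hτ).2, ?_, ?_, w.smul_eq hσ⟩
    · rw [AlgEquiv.apply_symm_apply, mul_div_cancel₀ _ w.a2]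
    · rw [AlgEquiv.apply_symm_apply, mul_div_cancel₀ _ w.a2]
  · left
    push Not at hall
    obtain ⟨τ, hτ, hne⟩ := hall
    have h1 := w.smul_eq hτ
    have h2 := w.smul_eq hσ
    set γ0 := τ.symm (α0 / α2)
    set γ1 := τ.symm (α1 / α2)
    set δ0 := σ.symm (α0 / α2)
    set δ1 := σ.symm (α1 / α2)
    have h3 : (γ0 - δ0) • t0 + (γ1 - δ1) • t1 = 0 := by
      rw [sub_smul, sub_smul]
      have h4 : γ0 • t0 - δ0 • t0 + (γ1 • t1 - δ1 • t1) =
        (γ0 • t0 + γ1 • t1 + t2) - (δ0 • t0 + δ1 • t1 + t2) := by abel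
      rw [h4, h1, h2, sub_zero]
    have h4 : γ0 - δ0 ≠ 0 := by
      intro h4
      rw [h4, zero_smul, zero_add] at h3
      exact hne (sub_eq_zero.1 h4) (sub_eq_zero.1 ((smul_eq_zero.1 h3).resolve_right w.n1))
    have h5 : t0 = (-((γ0 - δ0)⁻¹ * (γ1 - δ1))) • t1 := by
      have h6 : t0 = (γ0 - δ0)⁻¹ • ((γ0 - δ0) • t0) := by
        rw [smul_smul, inv_mul_cancel₀ h4, one_smul]
      rw [h6, eq_neg_of_add_eq_zero_left h3, smul_neg, smul_smul, neg_smul]
    refine ⟨t1, -((γ0 - δ0)⁻¹ * (γ1 - δ1)), 1, -(δ0 * -((γ0 - δ0)⁻¹ * (γ1 - δ1)) + δ1), h5,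
      (one_smul _ _).symm, ?_⟩
    rw [neg_smul, add_smul, ← smul_smul, ← h5, eq_neg_iff_add_eq_zero, add_comm]
    exact h2

end Pool.Agent.LTCF
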